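import Pool.Agent.H37.T6.CSA
import Pool.Agent.H56.SMC.ZNL

/-!
# CEN: the topological zeta function

`D = DD (pf a) q g`, `P_d = ∑_{T.card = d} ν(T)² LLs D (inB T)`, `S_d = ∑_{τ face, faceRank = d} nvol(τ) J_τ` (classical filters).  `csa`: `S_d = P_d` for `1 ≤ d ≤ n`.
(1) `P_d = 0` for `d ≥ n + 1`: no element of `D` has more than `n` elements (`mem_DD`).  All `T : Finset (Fin r)`: the sum `∑_T (-1)^|T| ν(T)² LLs D (inB T)` is `∑_{d ≤ n} (-1)^d P_d` (`Finset.sum_fiberwise_of_maps_to` etc.).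
(2) `P_1 = ∑_i LLs D {inl i}` (`ν {i} = 1`: `cnv_mul`, `ZNL_faceVol_single`), `P_0 = LLs D ∅` (`mulv_empty`).
(3) `-X * P_0 = P_1`: `rdd_ne`: `InT ∅`.  `rjl`: `LLs D ∅ = JJ ∅`; `rrel` for `Ξ = ∅`, `z = rho` (`hC.np`: `0 + 2 ≤ n + 1`): `VL rho = -X` (`VL_rho`); the right side is `∑_{ω, InT {ω}} pr (pf a ω) rho * JJ {ω}`, with `pr (pf a (inl i)) rho = 1`, `pr (pf a (inr j)) rho = 0` (`pf_inl`, `pf_inr`), `JJ {inl i} = LLs D {inl i}` (`rjl`); if not `InT {inl i}` then `LLs D {inl i} = 0`.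
(4) The faces of rank `1` are singletons (`rank_one`, `hC.inj`; they are nonempty since the rank is `1`), `nvol = 1` (`nvol_single`), so `∑_{faceRank = 1} J_τ = S_1 = P_1`.  Faces have `faceRank ≤ n + 1` (`ZJT_rank_le`).  For `faceRank a τ = n + 1` `J_τ` is a natural number (the product over `Fin (n + 1 - (n + 1))` is empty), so it is regular.
(5) So `topZetaG = P_1 + X/(X+1) * (∑_{d=2}^n (-1)^(d-1) P_d + c)`, `c` regular, and `topZetaG + X/(X+1) * ∑_{d=0}^n (-1)^d P_d = P_1 + X/(X+1) * (P_0 - P_1 + c) = (P_1 + X P_0)/(X+1) + X/(X+1) * c = X/(X+1) * c` (`n ≥ 1`), regular: `reg_X_div hs1`.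
-/

set_option autoImplicit false

namespace Pool.Agent.H37.T6

open Finset H60.RegTri
open Pool.Agent.H37.T5
open Pool.Agent.H56.SMC

variable {n r : ℕ} {a : Fin r → (Fin n →₀ ℕ)} {R : Finset (Fin n → ℕ)} {s0 : ℂ}
  {q : Unit ⊕ Fin n → ℤ} {g : Option (Fin r ⊕ Fin n) → ℝ} {h : Option R → ℝ}

open Classical in
/-- `P_d` -/
noncomputable def CEN_P (a : Fin r → (Fin n →₀ ℕ)) (q : Unit ⊕ Fin n → ℤ)
    (g : Option (Fin r ⊕ Fin n) → ℝ) (d : ℕ) : RatFunc ℂ :=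
  ∑ T ∈ univ.filter (fun T : Finset (Fin r) => T.card = d),
    (((mulv (pf a) (inB T)) ^ 2 : ℕ) : RatFunc ℂ) *
      LLs (pf a) q AA BB (DD (pf a) q g) (inB T)

theorem CEN_card_inB (T : Finset (Fin r)) : (inB T : Finset (Fin r ⊕ Fin n)).card = T.card := by
  simp [inB]

theorem CEN_LL0 (a : Fin r → (Fin n →₀ ℕ)) (q : Unit ⊕ Fin n → ℤ)
    (g : Option (Fin r ⊕ Fin n) → ℝ) (Ξ : Finset (Fin r ⊕ Fin n)) (h : ¬ InT (pf a) q g Ξ) :
    LLs (pf a) q AA BB (DD (pf a) q g) Ξ = 0 := by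
  unfold LLs
  have h6 : (DD (pf a) q g).filter (fun Δ => Ξ ⊆ Δ) = ∅ := by
    rw [filter_eq_empty_iff]
    exact fun Δ' hΔ' h7 => h ⟨Δ', hΔ', h7⟩
  rw [h6, sum_empty]

theorem CEN_big (a : Fin r → (Fin n →₀ ℕ)) (q : Unit ⊕ Fin n → ℤ)
    (g : Option (Fin r ⊕ Fin n) → ℝ) (T : Finset (Fin r)) (h : n + 1 ≤ T.card) :
    LLs (pf a) q AA BB (DD (pf a) q g) (inB T) = 0 := by
  apply CEN_LL0
  rintro ⟨Δ, hΔ, hsub⟩
  have h1 := (mem_DD.1 hΔ).2
  have h2 := card_le_card hsub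
  rw [CEN_card_inB] at h2
  rw [Fintype.card_sum, Fintype.card_fin, Fintype.card_unit] at h1
  omega

theorem CEN_all (a : Fin r → (Fin n →₀ ℕ)) (q : Unit ⊕ Fin n → ℤ)
    (g : Option (Fin r ⊕ Fin n) → ℝ) :
    ∑ T : Finset (Fin r), (-1) ^ T.card * (((mulv (pf a) (inB T)) ^ 2 : ℕ) : RatFunc ℂ) *
        LLs (pf a) q AA BB (DD (pf a) q g) (inB T) =
      ∑ d ∈ range (n + 1), (-1) ^ d * CEN_P a q g d := by
  classical
  have h1 : ∑ T : Finset (Fin r), (-1) ^ T.card * (((mulv (pf a) (inB T)) ^ 2 : ℕ) : RatFunc ℂ) *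
        LLs (pf a) q AA BB (DD (pf a) q g) (inB T) =
      ∑ T ∈ univ.filter (fun T : Finset (Fin r) => T.card ∈ range (n + 1)),
        (-1) ^ T.card * (((mulv (pf a) (inB T)) ^ 2 : ℕ) : RatFunc ℂ) *
        LLs (pf a) q AA BB (DD (pf a) q g) (inB T) := by
    rw [sum_filter]
    refine sum_congr rfl fun T _ => ?_
    split_ifs with h
    · rfl
    · rw [CEN_big a q g T (by rw [mem_range] at h; omega), mul_zero]
  rw [h1, ← sum_fiberwise_of_maps_to (s := univ.filter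
    (fun T : Finset (Fin r) => T.card ∈ range (n + 1))) (t := range (n + 1))
    (g := fun T => T.card) (fun T hT => (mem_filter.1 hT).2)]
  refine sum_congr rfl fun d hd => ?_
  unfold CEN_P
  rw [mul_sum, filter_filter]
  refine sum_congr ?_ fun T hT => ?_
  · ext T
    simp only [mem_filter, mem_univ, true_and]
    constructor
    · exact fun h => h.2
    · exact fun h => ⟨by rw [h]; exact hd, h⟩
  · rw [(mem_filter.1 hT).2, mul_assoc]

theorem CEN_one (a : Fin r → (Fin n →₀ ℕ)) (q : Unit ⊕ Fin n → ℤ)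
    (g : Option (Fin r ⊕ Fin n) → ℝ) :
    CEN_P a q g 1 = ∑ i : Fin r, LLs (pf a) q AA BB (DD (pf a) q g) {Sum.inl i} := by
  classical
  unfold CEN_P
  have h1 : univ.filter (fun T : Finset (Fin r) => T.card = 1) =
      univ.map ⟨fun i : Fin r => ({i} : Finset (Fin r)), singleton_injective⟩ := by
    ext T
    simp only [mem_filter, mem_univ, true_and, mem_map, Function.Embedding.coeFn_mk]
    rw [card_eq_one]
    exact ⟨fun ⟨x, hx⟩ => ⟨x, hx.symm⟩, fun ⟨x, hx⟩ => ⟨x, hx.symm⟩⟩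
  rw [h1, sum_map]
  refine sum_congr rfl fun i _ => ?_
  have h2 : (inB ({i} : Finset (Fin r)) : Finset (Fin r ⊕ Fin n)) = {Sum.inl i} := by
    simp [inB]
  rw [Function.Embedding.coeFn_mk, cnv_mul, ZNL_faceVol_single, h2]
  simp

theorem CEN_zero (a : Fin r → (Fin n →₀ ℕ)) (q : Unit ⊕ Fin n → ℤ)
    (g : Option (Fin r ⊕ Fin n) → ℝ) :
    CEN_P a q g 0 = LLs (pf a) q AA BB (DD (pf a) q g) ∅ := by
  classical
  unfold CEN_P
  have h1 : univ.filter (fun T : Finset (Fin r) => T.card = 0) = {∅} := by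
    ext T
    simp [card_eq_zero]
  have h2 : (inB (∅ : Finset (Fin r)) : Finset (Fin r ⊕ Fin n)) = ∅ := by
    simp [inB]
  rw [h1, sum_singleton, h2, mulv_empty]
  simp

theorem CEN_rel (hC : CS a R s0 q g h) : -RatFunc.X * CEN_P a q g 0 = CEN_P a q g 1 := by
  classical
  obtain ⟨Δ, hΔ⟩ := rdd_ne hC.rs
  have hT : InT (pf a) q g ∅ := ⟨Δ, hΔ, empty_subset _⟩
  have hnp := hC.np
  have h1 := rrel hC.rs ∅ hT (by
    rw [card_empty, Fintype.card_sum, Fintype.card_fin, Fintype.card_unit]; omega)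
    rho (fun ω hω => absurd hω (notMem_empty _))
  rw [VL_rho, rjl hC.rs hC.qg ∅ hT, ← CEN_zero] at h1
  rw [h1, CEN_one, sum_filter, sdiff_empty, Fintype.sum_sum_type]
  have h2 : ∑ j : Fin n, (if InT (pf a) q g (insert (Sum.inr j) ∅) then
      (pr (pf a (Sum.inr j)) rho : RatFunc ℂ) *
        JJ (vv a R) (pf a) AA BB h univ (insert (Sum.inr j) ∅) else 0) = 0 := by
    refine sum_eq_zero fun j _ => ?_
    rw [pf_inr]
    simp [rho]
  rw [h2, add_zero]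
  refine sum_congr rfl fun i _ => ?_
  have h3 : pr (pf a (Sum.inl i)) rho = 1 := by
    rw [pf_inl]
    simp [rho]
  rw [h3, Int.cast_one, one_mul]
  have h4 : (insert (Sum.inl i) ∅ : Finset (Fin r ⊕ Fin n)) = {Sum.inl i} := rfl
  rw [h4]
  split_ifs with h5
  · rw [rjl hC.rs hC.qg _ h5]
  · rw [CEN_LL0 a q g _ h5]

theorem CEN_nonempty {τ : Finset (Fin r)} (h : H22.faceRank a τ ≠ 0) : τ.Nonempty := by
  rw [nonempty_iff_ne_empty]
  rintro rfl
  apply h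
  unfold H22.faceRank
  simp

theorem CEN_regtop (𝒟 : ∀ τ, H22.FaceCones a τ) (τ : Finset (Fin r))
    (hτ : H22.faceRank a τ = n + 1) : H37.SM.Reg s0 (H22.JfunG a τ (𝒟 τ)) := by
  unfold H22.JfunG
  refine H37.SM.Reg.sum _ _ fun C _ => ?_
  have hE : IsEmpty (Fin (n + 1 - H22.faceRank a τ)) := by
    rw [hτ, Nat.sub_self]
    exact Fin.isEmpty
  have h1 : ∏ c, ((H22.wsum ((𝒟 τ).w C c) : RatFunc ℂ) +
      (H22.wmin a ((𝒟 τ).w C c) : RatFunc ℂ) * RatFunc.X)⁻¹ = 1 := by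
    have := hE
    exact Fintype.prod_empty _
  rw [h1, mul_one]
  exact H37.SM.reg_natCast _

theorem cen (hC : CS a R s0 q g h) (hs1 : s0 ≠ -1) (𝒟 : ∀ τ, H22.FaceCones a τ)
    (𝒯 : ∀ τ, H22.FaceTriang a τ) :
    H37.SM.Reg s0 (H22.topZetaG a 𝒟 𝒯 + RatFunc.X / (RatFunc.X + 1) *
      ∑ T : Finset (Fin r), (-1) ^ T.card * (((mulv (pf a) (inB T)) ^ 2 : ℕ) : RatFunc ℂ) *
        LLs (pf a) q AA BB (DD (pf a) q g) (inB T)) := by
  classical
  have hn := hC.np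
  obtain ⟨m, rfl⟩ : ∃ m, n = m + 1 := ⟨n - 1, by omega⟩
  -- the faces of rank `d`
  let F : ℕ → Finset (Finset (Fin r)) := fun d =>
    univ.filter (fun τ : Finset (Fin r) => H22.IsFace a τ ∧ H22.faceRank a τ = d)
  have hF : ∀ d τ, τ ∈ F d ↔ H22.IsFace a τ ∧ H22.faceRank a τ = d := fun d τ => by simp [F]
  have hS : ∀ d, 1 ≤ d → d ≤ m + 1 →
      ∑ τ ∈ F d, (H22.nvol (𝒯 τ) : RatFunc ℂ) * H22.JfunG a τ (𝒟 τ) = CEN_P a q g d :=
    fun d h1 h2 => by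
      have h3 := csa hC 𝒟 𝒯 (F d) d h1 h2 (hF d)
      rw [h3]
      unfold CEN_P
      exact sum_congr (by ext T; simp) fun _ _ => rfl
  have h1 : ∑ τ ∈ F 1, H22.JfunG a τ (𝒟 τ) = CEN_P a q g 1 := by
    rw [← hS 1 le_rfl (by omega)]
    refine sum_congr rfl fun τ hτ => ?_
    have hr1 := ((hF 1 τ).1 hτ).2
    obtain ⟨p, rfl⟩ := rank_one a hC.inj τ (CEN_nonempty (by rw [hr1]; exact one_ne_zero)) hr1
    rw [nvol_single, Nat.cast_one, one_mul]
  have h2 : ∑ τ ∈ univ.filter (fun τ : Finset (Fin r) => H22.IsFace a τ ∧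
      2 ≤ H22.faceRank a τ), (-1) ^ (H22.faceRank a τ - 1) *
        (H22.nvol (𝒯 τ) : RatFunc ℂ) * H22.JfunG a τ (𝒟 τ) =
      ∑ i ∈ range (m + 1), (-1) ^ (i + 1) *
        ∑ τ ∈ F (i + 2), (H22.nvol (𝒯 τ) : RatFunc ℂ) * H22.JfunG a τ (𝒟 τ) := by
    rw [← sum_fiberwise_of_maps_to (s := univ.filter (fun τ : Finset (Fin r) => H22.IsFace a τ ∧
      2 ≤ H22.faceRank a τ)) (t := range (m + 1)) (g := fun τ => H22.faceRank a τ - 2)
      (fun τ hτ => by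
        have h3 := (mem_filter.1 hτ).2.2
        have h4 := ZJT_rank_le (a := a) τ
        rw [mem_range]
        omega)]
    refine sum_congr rfl fun i _ => ?_
    rw [mul_sum, filter_filter]
    refine sum_congr ?_ fun τ hτ => ?_
    · ext τ
      rw [hF]
      simp only [mem_filter, mem_univ, true_and]
      constructor
      · rintro ⟨⟨h3, h4⟩, h5⟩
        exact ⟨h3, by omega⟩
      · rintro ⟨h3, h4⟩
        exact ⟨⟨h3, by omega⟩, by omega⟩
    · rw [((hF _ τ).1 hτ).2]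
      have h5 : i + 2 - 1 = i + 1 := by omega
      rw [h5, mul_assoc]
  have hc : H37.SM.Reg s0 (∑ τ ∈ F (m + 2), (H22.nvol (𝒯 τ) : RatFunc ℂ) *
      H22.JfunG a τ (𝒟 τ)) := by
    refine H37.SM.Reg.sum _ _ fun τ hτ => ?_
    exact (H37.SM.reg_natCast _).mul (CEN_regtop 𝒟 τ ((hF _ τ).1 hτ).2)
  have hX : (RatFunc.X + 1 : RatFunc ℂ) ≠ 0 := by
    have h3 := H37.SM.linear_ne_zero 1 1 one_pos
    intro h4
    apply h3
    rw [Nat.cast_one, one_mul, add_comm]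
    exact h4
  set c := ∑ τ ∈ F (m + 2), (H22.nvol (𝒯 τ) : RatFunc ℂ) * H22.JfunG a τ (𝒟 τ) with hcdef
  have hrel := CEN_rel hC
  have key : H22.topZetaG a 𝒟 𝒯 + RatFunc.X / (RatFunc.X + 1) *
      ∑ T : Finset (Fin r), (-1) ^ T.card * (((mulv (pf a) (inB T)) ^ 2 : ℕ) : RatFunc ℂ) *
        LLs (pf a) q AA BB (DD (pf a) q g) (inB T) =
      RatFunc.X / (RatFunc.X + 1) * ((-1) ^ (m + 1) * c) := by
    have h6 : H22.topZetaG a 𝒟 𝒯 = CEN_P a q g 1 + RatFunc.X / (RatFunc.X + 1) *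
        (∑ i ∈ range m, (-1) ^ (i + 1) * CEN_P a q g (i + 2) + (-1) ^ (m + 1) * c) := by
      have h7 : ∑ i ∈ range (m + 1), (-1 : RatFunc ℂ) ^ (i + 1) *
          ∑ τ ∈ F (i + 2), (H22.nvol (𝒯 τ) : RatFunc ℂ) * H22.JfunG a τ (𝒟 τ) =
          ∑ i ∈ range m, (-1) ^ (i + 1) * CEN_P a q g (i + 2) + (-1) ^ (m + 1) * c := by
        rw [sum_range_succ]
        congr 1
        refine sum_congr rfl fun i hi => ?_
        rw [hS (i + 2) (by omega) (by have := mem_range.1 hi; omega)]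
      rw [← h7, ← h2, ← h1]
      unfold H22.topZetaG
      congr 1
    rw [h6, CEN_all, sum_range_succ', sum_range_succ', ← hrel]
    have h8 : ∑ i ∈ range m, (-1 : RatFunc ℂ) ^ (i + 1) * CEN_P a q g (i + 2) =
        -∑ i ∈ range m, (-1) ^ (i + 1 + 1) * CEN_P a q g (i + 1 + 1) := by
      rw [← sum_neg_distrib]
      refine sum_congr rfl fun i _ => ?_
      rw [pow_succ (-1 : RatFunc ℂ) (i + 1)]
      ring
    rw [h8]
    field_simp
    try ring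
  rw [key]
  refine (H37.SM.reg_X_div hs1).mul (H37.SM.Reg.mul ?_ hc)
  have h9 : ((-1 : RatFunc ℂ)) ^ (m + 1) = (((-1) ^ (m + 1) : ℤ) : RatFunc ℂ) := by
    push_cast
    rfl
  rw [h9]
  exact H37.SM.reg_intCast _

end Pool.Agent.H37.T6
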