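import Pool.Agent.H37.T6.RRAY
import Pool.Agent.H37.T5.ZIND

/-!
# CHY: the hypothesis `HY` gives the hypothesis of the cluster sums

`Δ ∈ DD`, `Y ⊆ Δ`; `Y` is independent (`rint`).  `G = Gx (vv a R) (pf a) Y` is not empty (`rray` for `Δ`, `Gx_mono`).  `p = ∑_{i∈G} v_i ∈ ℤ^{1+n}`: `φ_ω(p) ≥ 0`, and `φ_ω(p) = 0` iff `φ_ω` vanishes on `G` (`nn`); in particular on `Y`.  `w j = (p (inr j)).toNat`, `p (inr j) = pr (pf a (inr j)) p ≥ 0`.
(1) some `inl b ∈ Y`: the coordinate `inl ()` of `hΛ`: `-s0 = ∑_b Λ (inl b)` (`AA`, `BB`, `pf`), and `s0 ≠ 0`, so some `Λ (inl b) ≠ 0`.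
(2) `a_i·w + p (inl ()) = φ_{inl i}(p) ≥ 0` for all `i` with equality for the `b` of (1): so `N(w) = -p (inl ())`, `p = lf a w`; `a_i·w = N(w)` iff `φ_{inl i}(p) = 0`; `w j = 0` iff `φ_{inr j}(p) = 0`.
(3) `|w| + N(w) s0 = ∑_ω Λ ω φ_ω(p) = 0` (`zlam_pair`; `pr_AA_lf`, `pr_BB_lf`; `Λ ω ≠ 0` implies `ω ∈ Y`).
(4) `N(w) > 0`: otherwise `|w| = 0` by (3), `w = 0`, `p = 0`, so all `φ_ω(v_i) = 0` for `i ∈ G`, `v_i = 0` by `sp`, contradicting `v_ne`.  So `s0 = -|w|/N(w)`.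
(5) `Yb = {b : inl b ∈ Y}`, `Yj = {j : inr j ∈ Y}` (`Finset.univ.filter`).  `YD a w Yb Yj`: `pos`, `on`, `onj` clear.  `ind`: the family is a reindexing of `vR (pf a)` on `Y` (`vR_pf_inl`, `vR_pf_inr`).
`rel`: let `y` be as there.  For `M` large `y + M p` satisfies `φ_ω ≥ 0` for all `ω` (finitely many; where `φ_ω(p) = 0`, i.e. on the face of `w`, by the hypotheses on `y`: `pfR_inl`, `∑ t, rowR a i t * y t = y (inl ()) + ∑ a_ij y_j`), and `φ_Y(y + M p) = 0`; `tcone`: it is a combination of the `v_i`, `i ∈ G`, so `φ_ω(y + M p) = 0` for all `ω` vanishing on `G`, i.e. with `φ_ω(p) = 0`; hence `φ_ω(y) = 0` for these `ω`.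
`span`: coordinatewise `hΛ` says `(p0R a w t : ℂ) = ∑_ω Λ ω * (pf a ω t : ℂ)` (`-s0 = |w|/N(w)`); take real parts: `p0R a w = ∑_{ω ∈ Y} Re (Λ ω) • vR (pf a) ω`.
(6) `hHY w Yb Yj` gives `b, k` with `ApexY`, `k` unique.  `ApexY a Yb Yj b k` iff `Ap (fun ω k => pr (pf a ω) (eD k)) (inB univ) Y (inl b) k`: `pr (pf a (inl i)) (eD k) = a i k`, `pr (pf a (inr j)) (eD k) = if j = k then 1 else 0` (`pf_inl`, `pf_inr`, `eD`).
-/

set_option autoImplicit false

namespace Pool.Agent.H37.T6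

open Finset H60.RegTri
open Pool.Agent.H37.T5
open Pool.Agent.H56.SMC

variable {n r : ℕ} {a : Fin r → (Fin n →₀ ℕ)} {R : Finset (Fin n → ℕ)} {s0 : ℂ}
  {q : Unit ⊕ Fin n → ℤ} {g : Option (Fin r ⊕ Fin n) → ℝ} {h : Option R → ℝ}

theorem CHY_pr_sum {ι κ : Type} [Fintype κ] (f : κ → ℤ) (G : Finset ι) (v : ι → κ → ℤ) :
    pr f (∑ i ∈ G, v i) = ∑ i ∈ G, pr f (v i) := by
  simp only [pr, Finset.sum_apply, Finset.mul_sum]
  rw [Finset.sum_comm]

theorem CHY_prR_int {κ : Type} [Fintype κ] (f p : κ → ℤ) :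
    prR f (fun t => (p t : ℝ)) = (pr f p : ℝ) := by
  simp only [prR, pr]
  push_cast
  rfl

theorem CHY_row (i : Fin r) (y : Unit ⊕ Fin n → ℝ) :
    ∑ t, H22.rowR a i t * y t = prR (pf a (Sum.inl i)) y := by
  rw [← vR_pf_inl]
  rfl

theorem CHY_wmin (w : Fin n → ℕ) (N : ℤ) (hle : ∀ i, N ≤ ∑ j, (a i j : ℤ) * (w j : ℤ)) (b : Fin r)
    (hb : ∑ j, (a b j : ℤ) * (w j : ℤ) = N) : (H22.wmin a w : ℤ) = N := by
  haveI : Nonempty (Fin r) := ⟨b⟩
  have hcast : ∀ i, ((∑ j, a i j * w j : ℕ) : ℤ) = ∑ j, (a i j : ℤ) * (w j : ℤ) := by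
    intro i
    push_cast
    rfl
  obtain ⟨i, hi⟩ := exists_eq_ciInf_of_finite (f := fun i : Fin r => ∑ j, a i j * w j)
  have h1 : H22.wmin a w = ∑ j, a i j * w j := hi.symm
  have h2 : H22.wmin a w ≤ ∑ j, a b j * w j :=
    ciInf_le (OrderBot.bddBelow _) b
  have h3 : (H22.wmin a w : ℤ) ≤ ((∑ j, a b j * w j : ℕ) : ℤ) := by exact_mod_cast h2
  rw [hcast, hb] at h3
  have h4 := hle i
  rw [← hcast, ← h1] at h4
  omega

theorem CHY_eD_inl (i : Fin r) (k : Fin n) : pr (pf a (Sum.inl i)) (eD k) = a i k := by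
  simp [pr, pf, eD, H22.homRow, Fintype.sum_sum_type, Pi.single_apply]

theorem CHY_eD_inr (j k : Fin n) : pr (pf a (Sum.inr j)) (eD k) = if j = k then 1 else 0 := by
  simp only [pr, pf, eD, Fintype.sum_sum_type, Sum.elim_inr, Sum.elim_inl, Pi.single_apply]
  by_cases h : j = k <;> simp [h, eq_comm]

/-- The two notions of an apex direction agree. -/
theorem CHY_ap (Y : Finset (Fin r ⊕ Fin n)) (Yb : Finset (Fin r)) (Yj : Finset (Fin n))
    (hb : ∀ b, b ∈ Yb ↔ Sum.inl b ∈ Y) (hj : ∀ j, j ∈ Yj ↔ Sum.inr j ∈ Y) (b : Fin r)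
    (k : Fin n) : ApexY a Yb Yj b k ↔
      Ap (fun (ω : Fin r ⊕ Fin n) (k : Fin n) => pr (pf a ω) (eD k)) (inB univ) Y
        (Sum.inl b) k := by
  constructor
  · rintro ⟨h1, h2, h3, h4⟩
    refine ⟨(hb b).1 h1, mem_inB.2 (mem_univ b), ?_, ?_⟩
    · show pr (pf a (Sum.inl b)) (eD k) = 1
      rw [CHY_eD_inl, h2]
      rfl
    · intro ω hω hne
      show pr (pf a ω) (eD k) = 0
      rcases ω with b' | j
      · rw [CHY_eD_inl, h4 b' ((hb b').2 hω) (fun h => hne (by rw [h]))]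
        rfl
      · rw [CHY_eD_inr, if_neg]
        rintro rfl
        exact h3 ((hj j).2 hω)
  · rintro ⟨h1, -, h3, h4⟩
    have h3' : pr (pf a (Sum.inl b)) (eD k) = 1 := h3
    rw [CHY_eD_inl] at h3'
    refine ⟨(hb b).2 h1, by exact_mod_cast h3', ?_, ?_⟩
    · intro hk
      have h5 : pr (pf a (Sum.inr k)) (eD k) = 0 := h4 (Sum.inr k) ((hj k).1 hk) (by simp)
      rw [CHY_eD_inr, if_pos rfl] at h5
      exact one_ne_zero h5
    · intro b' hb' hne
      have h5 : pr (pf a (Sum.inl b')) (eD k) = 0 := h4 (Sum.inl b') ((hb b').1 hb')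
        (fun h => hne (Sum.inl_injective h))
      rw [CHY_eD_inl] at h5
      exact_mod_cast h5

theorem chy (hC : CS a R s0 q g h) (hs0 : s0 ≠ 0) (hHY : HY a s0)
    (Λ : Fin r ⊕ Fin n → ℂ) (hΛ : IsLam (pf a) AA BB s0 Λ) (Y : Finset (Fin r ⊕ Fin n))
    (hY : InT (pf a) q g Y) (hΛY : ∀ ω, Λ ω ≠ 0 → ω ∈ Y) :
    ∃ b k, Ap (fun (ω : Fin r ⊕ Fin n) (k : Fin n) => pr (pf a ω) (eD k)) (inB univ) Y b k ∧
      ∀ k', Ap (fun (ω : Fin r ⊕ Fin n) (k : Fin n) => pr (pf a ω) (eD k)) (inB univ) Y b k' →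
        k' = k := by
  have hZ := hC.rs.zt
  have hind := (rint hY).1
  obtain ⟨i0, hi0⟩ : ∃ i, i ∈ Gx (vv a R) (pf a) Y := by
    obtain ⟨Δ, hΔ, hsub⟩ := hY
    obtain ⟨i, hi⟩ := rray hC.rs hΔ
    exact ⟨i, Gx_mono hsub hi⟩
  obtain ⟨p, hp⟩ : ∃ p, p = ∑ i ∈ Gx (vv a R) (pf a) Y, vv a R i := ⟨_, rfl⟩
  have hpp : ∀ ω, pr (pf a ω) p = ∑ i ∈ Gx (vv a R) (pf a) Y, pr (pf a ω) (vv a R i) := by
    intro ω
    rw [hp, CHY_pr_sum]
  have hp0 : ∀ ω, 0 ≤ pr (pf a ω) p := by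
    intro ω
    rw [hpp]
    exact Finset.sum_nonneg fun i _ => hZ.nn i ω
  have hpz : ∀ ω, pr (pf a ω) p = 0 → ∀ i ∈ Gx (vv a R) (pf a) Y,
      pr (pf a ω) (vv a R i) = 0 := by
    intro ω hω
    rw [hpp, Finset.sum_eq_zero_iff_of_nonneg fun i _ => hZ.nn i ω] at hω
    exact hω
  have hpY : ∀ ω ∈ Y, pr (pf a ω) p = 0 := by
    intro ω hω
    rw [hpp]
    exact Finset.sum_eq_zero fun i hi => mem_Gx.1 hi ω hω
  -- some exponent in `Y`
  have hb : ∃ b, Λ (Sum.inl b) ≠ 0 := by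
    by_contra hno
    push Not at hno
    have h1 := hΛ (Sum.inl ())
    rw [Fintype.sum_sum_type] at h1
    simp [hno, AA, BB, pf] at h1
    exact hs0 h1
  obtain ⟨b0, hb0⟩ := hb
  have hb0Y := hΛY _ hb0
  -- the weight vector
  obtain ⟨w, hw⟩ : ∃ w : Fin n → ℕ, ∀ j, (w j : ℤ) = p (Sum.inr j) := by
    refine ⟨fun j => (p (Sum.inr j)).toNat, fun j => ?_⟩
    have h1 := hp0 (Sum.inr j)
    rw [pf_inr] at h1
    exact Int.toNat_of_nonneg h1
  have hpi : ∀ i, pr (pf a (Sum.inl i)) p =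
      p (Sum.inl ()) + ∑ j, (a i j : ℤ) * (w j : ℤ) := by
    intro i
    rw [pf_inl]
    congr 1
    exact Finset.sum_congr rfl fun j _ => by rw [hw j]
  have hwmin : (H22.wmin a w : ℤ) = -p (Sum.inl ()) := by
    refine CHY_wmin w _ (fun i => ?_) b0 ?_
    · have h1 := hp0 (Sum.inl i)
      rw [hpi] at h1
      linarith
    · have h1 := hpY _ hb0Y
      rw [hpi] at h1
      linarith
  have hplf : p = lf a w := by
    funext t
    rcases t with ⟨⟩ | j
    · show p (Sum.inl ()) = -(H22.wmin a w : ℤ)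
      rw [hwmin, neg_neg]
    · exact (hw j).symm
  -- the relation
  have hrel : (H22.wsum w : ℂ) + (H22.wmin a w : ℂ) * s0 = 0 := by
    have h1 := zlam_pair Λ hΛ p
    have h2 : ∑ ω, Λ ω * (pr (pf a ω) p : ℂ) = 0 := by
      refine Finset.sum_eq_zero fun ω _ => ?_
      by_cases hω : Λ ω = 0
      · rw [hω, zero_mul]
      · rw [hpY ω (hΛY ω hω), Int.cast_zero, mul_zero]
    rw [h2, hplf, pr_AA_lf, pr_BB_lf] at h1
    push_cast at h1
    exact h1
  have hpos : 0 < H22.wmin a w := by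
    rcases Nat.eq_zero_or_pos (H22.wmin a w) with h0 | h0
    · exfalso
      rw [h0, Nat.cast_zero, zero_mul, add_zero] at hrel
      have h1 : H22.wsum w = 0 := by exact_mod_cast hrel
      have h2 : ∀ j, w j = 0 := fun j =>
        (Finset.sum_eq_zero_iff.1 h1) j (mem_univ j)
      have h3 : p = 0 := by
        rw [hplf]
        funext t
        rcases t with ⟨⟩ | j
        · show -(H22.wmin a w : ℤ) = 0
          rw [h0]
          rfl
        · show (w j : ℤ) = 0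
          rw [h2 j]
          rfl
      have h4 : ∀ ω, pr (pf a ω) (vv a R i0) = 0 := by
        intro ω
        refine hpz ω ?_ i0 hi0
        rw [h3]
        simp [pr]
      have h5 : vR (vv a R) i0 = 0 := by
        apply hZ.sp
        intro ω
        rw [prR_vR, h4 ω, Int.cast_zero]
      apply v_ne hZ i0
      funext t
      have h6 := congrFun h5 t
      have h7 : ((vv a R i0 t : ℤ) : ℝ) = 0 := h6
      exact_mod_cast h7
    · exact h0
  have hNC : (H22.wmin a w : ℂ) ≠ 0 := by exact_mod_cast hpos.ne'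
  have hs : s0 = -(H22.wsum w : ℂ) / (H22.wmin a w : ℂ) := by
    rw [eq_div_iff hNC]
    linear_combination hrel
  -- faces of `w` and zeros of the functionals at `p`
  have hface : ∀ i, ∑ j, a i j * w j = H22.wmin a w ↔ pr (pf a (Sum.inl i)) p = 0 := by
    intro i
    rw [hplf, pf_inl_lf]
    omega
  have hfacej : ∀ j, w j = 0 ↔ pr (pf a (Sum.inr j)) p = 0 := by
    intro j
    rw [pf_inr, ← hw j]
    omega
  obtain ⟨Yb, hYb⟩ : ∃ Yb : Finset (Fin r), ∀ b, b ∈ Yb ↔ Sum.inl b ∈ Y :=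
    ⟨Finset.univ.filter (fun b => Sum.inl b ∈ Y), fun b => by simp⟩
  obtain ⟨Yj, hYj⟩ : ∃ Yj : Finset (Fin n), ∀ j, j ∈ Yj ↔ Sum.inr j ∈ Y :=
    ⟨Finset.univ.filter (fun j => Sum.inr j ∈ Y), fun j => by simp⟩
  have hYD : YD a w Yb Yj := by
    refine ⟨hpos, ?_, ?_, ?_, ?_, ?_⟩
    · intro b hb
      exact (hface b).2 (hpY _ ((hYb b).1 hb))
    · intro j hj
      exact (hfacej j).2 (hpY _ ((hYj j).1 hj))
    · have h1 : LinearIndependent ℝ (fun x : Y => vR (pf a) x.1) := hind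
      let e : (Yb ⊕ Yj) → Y := Sum.elim (fun b => ⟨Sum.inl b.1, (hYb b.1).1 b.2⟩)
        (fun j => ⟨Sum.inr j.1, (hYj j.1).1 j.2⟩)
      have he : Function.Injective e := by
        intro x y hxy
        rcases x with x | x <;> rcases y with y | y
        · have h2 : (Sum.inl x.1 : Fin r ⊕ Fin n) = Sum.inl y.1 := congrArg Subtype.val hxy
          rw [Subtype.ext (Sum.inl_injective h2)]
        · have h2 : (Sum.inl x.1 : Fin r ⊕ Fin n) = Sum.inr y.1 := congrArg Subtype.val hxy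
          simp at h2
        · have h2 : (Sum.inr x.1 : Fin r ⊕ Fin n) = Sum.inl y.1 := congrArg Subtype.val hxy
          simp at h2
        · have h2 : (Sum.inr x.1 : Fin r ⊕ Fin n) = Sum.inr y.1 := congrArg Subtype.val hxy
          rw [Subtype.ext (Sum.inr_injective h2)]
      have h3 := h1.comp e he
      have h4 : (fun x : Y => vR (pf a) x.1) ∘ e = Sum.elim (fun b : Yb => H22.rowR a b.1)
          (fun j : Yj => (eR j.1 : Unit ⊕ Fin n → ℝ)) := by
        funext x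
        rcases x with x | x
        · exact vR_pf_inl a x.1
        · exact vR_pf_inr a x.1
      rw [h4] at h3
      exact h3
    · intro y h1 h2 h3 h4
      have g1 : ∀ ω, pr (pf a ω) p = 0 → 0 ≤ prR (pf a ω) y := by
        intro ω hω
        rcases ω with i | j
        · rw [← CHY_row]
          exact h1 i ((hface i).2 hω)
        · rw [pfR_inr]
          exact h2 j ((hfacej j).2 hω)
      have g2 : ∀ ω ∈ Y, prR (pf a ω) y = 0 := by
        intro ω hω
        rcases ω with i | j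
        · rw [← CHY_row]
          exact h3 i ((hYb i).2 hω)
        · rw [pfR_inr]
          exact h4 j ((hYj j).2 hω)
      obtain ⟨M, hM⟩ : ∃ M : ℝ, ∀ ω, |prR (pf a ω) y| ≤ M :=
        ⟨∑ ω, |prR (pf a ω) y|, fun ω => Finset.single_le_sum
          (f := fun ω => |prR (pf a ω) y|) (fun _ _ => abs_nonneg _) (mem_univ ω)⟩
      have g3 : ∀ ω, prR (pf a ω) (y + M • (fun t => (p t : ℝ))) =
          prR (pf a ω) y + M * (pr (pf a ω) p : ℝ) := by
        intro ω
        rw [ZLOC_prR_add, ZLOC_prR_smul, CHY_prR_int]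
      obtain ⟨x, hx, hx0, hxy⟩ := tcone hZ Y (y + M • (fun t => (p t : ℝ)))
        (fun ω => by
          rw [g3]
          rcases (hp0 ω).eq_or_lt with h5 | h5
          · rw [← h5, Int.cast_zero, mul_zero, add_zero]
            exact g1 ω h5.symm
          · have h6 : (1 : ℝ) ≤ (pr (pf a ω) p : ℝ) := by exact_mod_cast h5
            have h7 := hM ω
            have h8 := neg_abs_le (prR (pf a ω) y)
            have h9 : 0 ≤ M := (abs_nonneg _).trans h7
            nlinarith)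
        (fun ω hω => by
          rw [g3, hpY ω hω, g2 ω hω, Int.cast_zero, mul_zero, add_zero])
      have g4 : ∀ ω, pr (pf a ω) p = 0 → prR (pf a ω) y = 0 := by
        intro ω hω
        have h5 := g3 ω
        rw [hω, Int.cast_zero, mul_zero, add_zero, hxy, ZLOC_prR_sum] at h5
        rw [← h5]
        refine Finset.sum_eq_zero fun i _ => ?_
        by_cases hi : i ∈ Gx (vv a R) (pf a) Y
        · rw [hpz ω hω i hi, Int.cast_zero, mul_zero]
        · rw [hx0 i hi, zero_mul]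
      refine ⟨fun i hi => ?_, fun j hj => ?_⟩
      · rw [CHY_row]
        exact g4 _ ((hface i).1 hi)
      · have h5 := g4 _ ((hfacej j).1 hj)
        rwa [pfR_inr] at h5
    · have h1 : p0R a w = ∑ ω, (Λ ω).re • vR (pf a) ω := by
        funext t
        have h2 := congrArg Complex.re (hΛ t)
        rw [Complex.re_sum] at h2
        have h3 : ∀ ω, (Λ ω * (pf a ω t : ℂ)).re = (Λ ω).re * (pf a ω t : ℝ) := by
          intro ω
          have h4 : ((pf a ω t : ℤ) : ℂ) = (((pf a ω t : ℤ) : ℝ) : ℂ) := by push_cast; rfl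
          rw [h4, Complex.re_mul_ofReal]
        simp only [h3] at h2
        rw [Finset.sum_apply]
        simp only [Pi.smul_apply, smul_eq_mul]
        have h5 : ((AA t : ℤ) + (BB t : ℤ) * s0 : ℂ).re = p0R a w t := by
          have h6 : s0 = ((-(H22.wsum w : ℝ) / (H22.wmin a w : ℝ) : ℝ) : ℂ) := by
            rw [hs]
            push_cast
            rfl
          rcases t with ⟨⟩ | j
          · simp only [AA, BB, p0R, Sum.elim_inl]
            rw [h6]
            push_cast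
            rw [zero_add, neg_one_mul, neg_div, neg_neg]
            have h7 : ((H22.wsum w : ℂ) / (H22.wmin a w : ℂ)) =
                (((H22.wsum w : ℝ) / (H22.wmin a w : ℝ) : ℝ) : ℂ) := by push_cast; rfl
            rw [h7, Complex.ofReal_re]
          · simp [AA, BB, p0R]
        rw [h5] at h2
        exact h2
      rw [h1]
      refine Submodule.sum_mem _ fun ω _ => ?_
      by_cases hω : Λ ω = 0
      · rw [hω, Complex.zero_re, zero_smul]
        exact Submodule.zero_mem _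
      · refine Submodule.smul_mem _ _ (Submodule.subset_span ?_)
        have hωY := hΛY ω hω
        rcases ω with b | j
        · exact Or.inl ⟨b, (hYb b).2 hωY, vR_pf_inl a b⟩
        · exact Or.inr ⟨j, (hYj j).2 hωY, vR_pf_inr a j⟩
  obtain ⟨b, k, hbk, huniq⟩ := hHY w Yb Yj hYD hs
  refine ⟨Sum.inl b, k, (CHY_ap Y Yb Yj hYb hYj b k).1 hbk, fun k' hk' => ?_⟩
  exact huniq k' ((CHY_ap Y Yb Yj hYb hYj b k').2 hk')

end Pool.Agent.H37.T6
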