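import Pool.Agent.H37.T6.TDefs
import Pool.Agent.H37.T5.ZHTA

/-!
# GEX: the heights of the functionals

(1) Base point `g0`: `0` at the `some (inl i)`, `-1` at the `some (inr j)`, `H` at `none`, where `H > ∑_{o∈σ} |β_o|` for all independent `σ` not containing `none` with `vR f none = ∑_σ β_o vR f o` (`f = phq q φ`; `β` on `σ` is unique by `coeff_unique`; finitely many `σ`).
At `g0` the condition `top` holds: `∑ β_o g0_o ≤ ∑ |β_o| < H`; and `Bot`: `-1 < ∑ β_i * 0 = 0`.  (2) Both conditions are finitely many strict linear inequalities in `g` (choose the coefficients `β` once for every `σ`, resp. `(T, j)`, they are unique on `σ` resp. `T`), so they hold on an open set `U ∋ g0`.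
(3) `ZHTA_sub (vR f)` (T5, file ZHTA) gives finitely many proper subspaces of `Option (Ω1 ⊕ Ω2) → ℝ` such that every `g` outside is generic; `H60.RegTri.exists_avoid` for `U`.
-/

set_option autoImplicit false

namespace Pool.Agent.H37.T6

open Finset H60.RegTri
open Pool.Agent.H37.T5

variable {κ : Type} [Fintype κ]

theorem gex {Ω1 Ω2 : Type} [Fintype Ω1] [DecidableEq Ω1] [Fintype Ω2] [DecidableEq Ω2]
    (φ : Ω1 ⊕ Ω2 → κ → ℤ) (q : κ → ℤ) :
    ∃ g : Option (Ω1 ⊕ Ω2) → ℝ, (∀ τ, GenericOn (vR (phq q φ)) g τ) ∧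
      (∀ σ : Finset (Option (Ω1 ⊕ Ω2)), none ∉ σ →
        LinearIndepOn ℝ (vR (phq q φ)) (σ : Set (Option (Ω1 ⊕ Ω2))) →
        ∀ β : Option (Ω1 ⊕ Ω2) → ℝ,
        vR (phq q φ) none = ∑ i ∈ σ, β i • vR (phq q φ) i → ∑ i ∈ σ, β i * g i < g none) ∧
      Bot φ g := by
  classical
  obtain ⟨P1, hP1, hP1'⟩ := ZHTA_sub (vR (phq q φ))
  set f : Option (Ω1 ⊕ Ω2) → κ → ℝ := vR (phq q φ) with hf
  set f' : Ω1 → κ → ℝ := fun i => vR φ (Sum.inl i) with hf'
  let U : Set (Option (Ω1 ⊕ Ω2) → ℝ) := {g |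
    (∀ σ : Finset (Option (Ω1 ⊕ Ω2)), none ∉ σ → ∑ i ∈ σ, cf f σ (f none) i * g i < g none) ∧
    (∀ p : Finset Ω1 × Ω2, g (some (Sum.inr p.2)) <
      ∑ i ∈ p.1, cf f' p.1 (vR φ (Sum.inr p.2)) i * g (some (Sum.inl i)))}
  have hU : IsOpen U := by
    have hUe : U = (⋂ σ : Finset (Option (Ω1 ⊕ Ω2)), {g : Option (Ω1 ⊕ Ω2) → ℝ |
        none ∉ σ → ∑ i ∈ σ, cf f σ (f none) i * g i < g none}) ∩
        (⋂ p : Finset Ω1 × Ω2, {g : Option (Ω1 ⊕ Ω2) → ℝ | g (some (Sum.inr p.2)) <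
          ∑ i ∈ p.1, cf f' p.1 (vR φ (Sum.inr p.2)) i * g (some (Sum.inl i))}) := by
      ext g
      simp only [U, Set.mem_setOf_eq, Set.mem_inter_iff, Set.mem_iInter]
    rw [hUe]
    refine (isOpen_iInter_of_finite fun σ => ?_).inter (isOpen_iInter_of_finite fun p => ?_)
    · by_cases h1 : none ∉ σ
      · simp only [h1, not_false_eq_true, true_imp_iff]
        exact isOpen_lt (by fun_prop) (by fun_prop)
      · simp [h1]
    · exact isOpen_lt (by fun_prop) (by fun_prop)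
  have hUne : U.Nonempty := by
    let T : Finset (Option (Ω1 ⊕ Ω2)) → ℝ := fun σ => ∑ i ∈ σ, |cf f σ (f none) i|
    have hT : ∀ σ, 0 ≤ T σ := fun σ => Finset.sum_nonneg fun i _ => abs_nonneg _
    let H : ℝ := 1 + ∑ σ, T σ
    have hH : ∀ σ, T σ < H := by
      intro σ
      have h1 := Finset.single_le_sum (f := T) (fun q _ => hT q) (Finset.mem_univ σ)
      have h2 : H = 1 + ∑ σ, T σ := rfl
      linarith
    let g0 : Option (Ω1 ⊕ Ω2) → ℝ := fun o => o.elim H (Sum.elim (fun _ => 0) (fun _ => -1))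
    have hg1 : ∀ i : Ω1, g0 (some (Sum.inl i)) = 0 := fun _ => rfl
    have hg2 : ∀ j : Ω2, g0 (some (Sum.inr j)) = -1 := fun _ => rfl
    have hg3 : g0 none = H := rfl
    refine ⟨g0, ?_, ?_⟩
    · intro σ hσ
      have h2 : ∑ i ∈ σ, cf f σ (f none) i * g0 i ≤ T σ := by
        refine Finset.sum_le_sum fun i hi => ?_
        have hle : |g0 i| ≤ 1 := by
          rcases i with _ | (i | j)
          · exact absurd hi hσ
          · rw [hg1]; norm_num
          · rw [hg2]; norm_num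
        calc cf f σ (f none) i * g0 i ≤ |cf f σ (f none) i * g0 i| := le_abs_self _
          _ = |cf f σ (f none) i| * |g0 i| := abs_mul _ _
          _ ≤ |cf f σ (f none) i| * 1 := mul_le_mul_of_nonneg_left hle (abs_nonneg _)
          _ = |cf f σ (f none) i| := mul_one _
      rw [hg3]
      exact h2.trans_lt (hH σ)
    · intro p
      rw [hg2]
      have h2 : ∑ i ∈ p.1, cf f' p.1 (vR φ (Sum.inr p.2)) i * g0 (some (Sum.inl i)) = 0 :=
        Finset.sum_eq_zero fun i _ => by rw [hg1, mul_zero]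
      rw [h2]
      norm_num
  obtain ⟨g, hgU, hg⟩ := exists_avoid P1 hP1 U hU hUne
  refine ⟨g, hP1' g hg, ?_, ?_⟩
  · intro σ hσ hi β hβ
    have h1 := hgU.1 σ hσ
    rw [Finset.sum_congr rfl (fun i his => by rw [cf_eq hi β hβ his])] at h1
    exact h1
  · intro T hT j β hβ
    have h1 := hgU.2 (T, j)
    simp only at h1
    rw [Finset.sum_congr rfl (fun i his => by rw [cf_eq hT β hβ his])] at h1
    exact h1

end Pool.Agent.H37.T6
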