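import Pool.Agent.H37.T6.TDefs
import Pool.Agent.H37.T5.ZHTA

/-!
# HEX: the heights of the rays

`ZHTA_sub v` and `ZHTA_sub v'` (T5, file ZHTA) give two finite families of proper subspaces; `H60.RegTri.exists_avoid` for the family indexed by the sum type and `U = univ`.
-/

set_option autoImplicit false

namespace Pool.Agent.H37.T6

open Finset H60.RegTri
open Pool.Agent.H37.T5

theorem hex {ι κ κ' : Type} [Fintype ι] [DecidableEq ι] (v : ι → κ → ℝ) (v' : ι → κ' → ℝ) :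
    ∃ h : ι → ℝ, (∀ τ, GenericOn v h τ) ∧ ∀ τ, GenericOn v' h τ := by
  obtain ⟨P1, hP1, hP1'⟩ := ZHTA_sub v
  obtain ⟨P2, hP2, hP2'⟩ := ZHTA_sub v'
  obtain ⟨h, -, hh⟩ := exists_avoid (Sum.elim P1 P2)
    (by rintro (p | p) <;> simp [hP1, hP2]) Set.univ isOpen_univ Set.univ_nonempty
  exact ⟨h, hP1' h fun p => hh (Sum.inl p), hP2' h fun p => hh (Sum.inr p)⟩

end Pool.Agent.H37.T6
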