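import Pool.Agent.H37.T6.LDV

/-!
# QEX: a generic integral vector in the interior

`U = {x : κ → ℝ | ∀ i, 0 < ∑ x_j (v i)_j}` is open and contains `∑_ω φ_ω`: `∑_ω φ_ω(v_i) > 0` since all terms are `≥ 0` and if all are `0` then `v i = 0` by `hZ.sp` (`v_ne`).
Let `Ξ` be independent with `Ξ.card + 2 = card κ` and `z1` with `φ_Ξ(z1) = 0` and (na) `VL A B z1 ≠ 0` or (nb) `¬ IsCr A B s0 z1` (so `z1 ≠ 0`).  There is an integral `z2 ≠ 0` with `φ_Ξ(z2) = 0` and `pr z1 z2 = 0`: the family `Ξ ∪ {z1}` (index type `Option Ω`) is independent (`z1` is orthogonal to `Ξ` and `pr z1 z1 ≠ 0`), it has `card κ - 1` elements, so some unit vector `e_j` is not in its span; add it (index type `Option (Option Ω)`) and apply `ldv` at this element.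
For `q` put `z = q(z2) z1 - q(z1) z2`: `φ_Ξ(z) = 0`, `q(z) = 0`.  (na): `pr A z = q·(A(z1) z2 - A(z2) z1)` up to sign and similarly for `B`; one of `A(z1) = pr A z1`, `B(z1)` is not `0` (otherwise `VL A B z1 = 0`), say `A(z1) ≠ 0`; then `u = A(z1) z2 - A(z2) z1 ≠ 0` (its pairing with `z2` is `A(z1) |z2|² ≠ 0`), and `q·u ≠ 0` implies `pr A z ≠ 0`, `VL A B z ≠ 0` (`VL_eq_zero`).
(nb): let `c1, c2 ∈ ℂ` be the values of `V(z1)`, `V(z2)` at `s0`, `c1 ≠ 0`; the value of `V(z)` at `s0` is `q(z2) c1 - q(z1) c2`, with real part `q·(Re(c1) z2 - Re(c2) z1)` and imaginary part `q·(Im(c1) z2 - Im(c2) z1)`; one of `Re c1`, `Im c1` is not `0`, and then the corresponding real vector `u` is not `0` (pairing with `z2`); `q·u ≠ 0` implies `¬ IsCr A B s0 z`.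
So finitely many nonzero real vectors `u_t` (at most two for every `Ξ`); `H60.RegTri.exists_avoid` with the hyperplanes `{x | x·u_t = 0}` gives a real `x ∈ U` with all `x·u_t ≠ 0`; the set of these `x` is open, so it contains a rational vector (density of `κ → ℚ` in `κ → ℝ`), and a positive integral multiple `q` of it (`ZLOCZ_int`) works (`U` and the hyperplanes are invariant under positive scaling).
-/

set_option autoImplicit false

namespace Pool.Agent.H37.T6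

open Finset H60.RegTri
open Pool.Agent.H37.T5

variable {ι κ Ω : Type} [Fintype ι] [DecidableEq ι] [Fintype κ] [DecidableEq κ] [Fintype Ω]
  [DecidableEq Ω] {v : ι → κ → ℤ} {φ : Ω → κ → ℤ} {A B q : κ → ℤ} {s0 : ℂ}
  {g : Option Ω → ℝ} {h : ι → ℝ}

omit [Fintype ι] [DecidableEq ι] [DecidableEq κ] [Fintype Ω] [DecidableEq Ω] in
/-- an integral vector in the kernel of `Ξ` orthogonal to `z1` -/
theorem QEX_z2 (φ : Ω → κ → ℤ) (Ξ : Finset Ω) (hc : Ξ.card + 2 = Fintype.card κ) (z1 : κ → ℤ) :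
    ∃ z : κ → ℤ, z ≠ 0 ∧ (∀ ω ∈ Ξ, pr (φ ω) z = 0) ∧ pr z1 z = 0 := by
  classical
  let L : (κ → ℚ) →ₗ[ℚ] ((Ξ → ℚ) × ℚ) :=
    { toFun := fun y => (fun ω => ∑ j, (φ (ω : Ω) j : ℚ) * y j, ∑ j, (z1 j : ℚ) * y j)
      map_add' := fun y y' => by
        refine Prod.ext (funext fun ω => ?_) ?_
        · simp only [Pi.add_apply, mul_add, sum_add_distrib, Prod.fst_add]
        · simp only [Pi.add_apply, mul_add, sum_add_distrib, Prod.snd_add]
      map_smul' := fun C y => by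
        refine Prod.ext (funext fun ω => ?_) ?_
        · simp only [Pi.smul_apply, smul_eq_mul, mul_sum, RingHom.id_apply, Prod.smul_fst]
          exact sum_congr rfl fun j _ => by ring
        · simp only [Pi.smul_apply, smul_eq_mul, mul_sum, RingHom.id_apply, Prod.smul_snd]
          exact sum_congr rfl fun j _ => by ring }
  have hL : LinearMap.ker L ≠ ⊥ := by
    apply LinearMap.ker_ne_bot_of_finrank_lt
    rw [Module.finrank_prod, Module.finrank_fintype_fun_eq_card, Module.finrank_fintype_fun_eq_card,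
      Module.finrank_self, Fintype.card_coe]
    omega
  obtain ⟨y, hy, hy0⟩ := (Submodule.ne_bot_iff _).1 hL
  rw [LinearMap.mem_ker] at hy
  have h1 : ∀ ω ∈ Ξ, ∑ j, (φ ω j : ℚ) * y j = 0 := fun ω hω =>
    congrFun (congrArg Prod.fst hy) ⟨ω, hω⟩
  have h2 : ∑ j, (z1 j : ℚ) * y j = 0 := congrArg Prod.snd hy
  obtain ⟨D, z, hD, hz⟩ := ZLOCZ_int y
  have hD' : (D : ℚ) ≠ 0 := by exact_mod_cast hD.ne'
  have h3 : ∀ x : κ → ℤ, ((pr x z : ℤ) : ℚ) = D * ∑ j, (x j : ℚ) * y j := by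
    intro x
    rw [pr, Finset.mul_sum]
    push_cast
    refine Finset.sum_congr rfl fun j _ => ?_
    rw [hz]
    ring
  refine ⟨z, ?_, fun ω hω => ?_, ?_⟩
  · rintro rfl
    apply hy0
    funext j
    have h4 := hz j
    simp only [Pi.zero_apply, Int.cast_zero] at h4
    rcases mul_eq_zero.1 h4.symm with h5 | h5
    · exact absurd h5 hD'
    · exact h5
  · have h4 := h3 (φ ω)
    rw [h1 ω hω, mul_zero] at h4
    exact_mod_cast h4
  · have h4 := h3 z1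
    rw [h2, mul_zero] at h4
    exact_mod_cast h4

omit [Fintype ι] [DecidableEq ι] [DecidableEq κ] [Fintype Ω] [DecidableEq Ω] in
theorem QEX_pr_self {z : κ → ℤ} (hz : z ≠ 0) : 0 < pr z z := by
  obtain ⟨j, hj⟩ : ∃ j, z j ≠ 0 := by
    by_contra h
    push Not at h
    exact hz (funext h)
  exact Finset.sum_pos' (fun i _ => mul_self_nonneg (z i)) ⟨j, mem_univ j, mul_self_pos.2 hj⟩

omit [Fintype ι] [DecidableEq ι] [DecidableEq κ] [Fintype Ω] [DecidableEq Ω] in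
/-- the key: one open condition on `q` -/
theorem QEX_key (φ : Ω → κ → ℤ) (Ξ : Finset Ω) (hc : Ξ.card + 2 = Fintype.card κ) (z1 : κ → ℤ)
    (h1 : ∀ ω ∈ Ξ, pr (φ ω) z1 = 0) (C : κ → ℝ) (hC : ∑ j, C j * (z1 j : ℝ) ≠ 0) :
    ∃ u : κ → ℝ, u ≠ 0 ∧ ∀ q : κ → ℤ, ∑ j, (q j : ℝ) * u j ≠ 0 →
      ∃ z : κ → ℤ, (∀ ω ∈ Ξ, pr (φ ω) z = 0) ∧ pr q z = 0 ∧ ∑ j, C j * (z j : ℝ) ≠ 0 := by
  obtain ⟨z2, hz0, hz2, hz12⟩ := QEX_z2 φ Ξ hc z1
  have hp : (0 : ℝ) < (pr z2 z2 : ℤ) := by exact_mod_cast QEX_pr_self hz0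
  have hp12 : ((pr z1 z2 : ℤ) : ℝ) = 0 := by rw [hz12]; simp
  refine ⟨fun j => (∑ i, C i * (z1 i : ℝ)) * (z2 j : ℝ) - (∑ i, C i * (z2 i : ℝ)) * (z1 j : ℝ),
    fun hu => ?_, fun q hq => ?_⟩
  · have h2 : ∑ j, ((∑ i, C i * (z1 i : ℝ)) * (z2 j : ℝ) -
        (∑ i, C i * (z2 i : ℝ)) * (z1 j : ℝ)) * (z2 j : ℝ) = 0 := by
      refine Finset.sum_eq_zero fun j _ => ?_
      have h3 := congrFun hu j
      simp only [Pi.zero_apply] at h3
      rw [h3, zero_mul]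
    have h4 : ∑ j, ((∑ i, C i * (z1 i : ℝ)) * (z2 j : ℝ) -
        (∑ i, C i * (z2 i : ℝ)) * (z1 j : ℝ)) * (z2 j : ℝ) =
        (∑ i, C i * (z1 i : ℝ)) * ((pr z2 z2 : ℤ) : ℝ) -
          (∑ i, C i * (z2 i : ℝ)) * ((pr z1 z2 : ℤ) : ℝ) := by
      simp only [pr]
      push_cast
      rw [Finset.mul_sum, Finset.mul_sum, ← Finset.sum_sub_distrib]
      exact Finset.sum_congr rfl fun j _ => by ring
    rw [h4, hp12, mul_zero, sub_zero] at h2
    rcases mul_eq_zero.1 h2 with h5 | h5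
    · exact hC h5
    · exact hp.ne' h5
  · have hlin : ∀ x : κ → ℤ, pr x (fun j => pr q z2 * z1 j - pr q z1 * z2 j) =
        pr q z2 * pr x z1 - pr q z1 * pr x z2 := by
      intro x
      simp only [pr]
      rw [Finset.mul_sum, Finset.mul_sum, ← Finset.sum_sub_distrib]
      exact Finset.sum_congr rfl fun j _ => by ring
    refine ⟨fun j => pr q z2 * z1 j - pr q z1 * z2 j, fun ω hω => ?_, ?_, ?_⟩
    · rw [hlin, h1 ω hω, hz2 ω hω]
      ring
    · rw [hlin]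
      ring
    · intro h0
      apply hq
      have h5 : ∑ j, C j * (((pr q z2 * z1 j - pr q z1 * z2 j : ℤ)) : ℝ) =
          ((pr q z2 : ℤ) : ℝ) * (∑ i, C i * (z1 i : ℝ)) -
            ((pr q z1 : ℤ) : ℝ) * (∑ i, C i * (z2 i : ℝ)) := by
        rw [Finset.mul_sum, Finset.mul_sum, ← Finset.sum_sub_distrib]
        refine Finset.sum_congr rfl fun j _ => ?_
        push_cast
        ring
      rw [h5] at h0
      have h6 : ∑ j, (q j : ℝ) * ((∑ i, C i * (z1 i : ℝ)) * (z2 j : ℝ) -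
          (∑ i, C i * (z2 i : ℝ)) * (z1 j : ℝ)) =
          (∑ i, C i * (z1 i : ℝ)) * ((pr q z2 : ℤ) : ℝ) -
            (∑ i, C i * (z2 i : ℝ)) * ((pr q z1 : ℤ) : ℝ) := by
        simp only [pr]
        push_cast
        rw [Finset.mul_sum, Finset.mul_sum, ← Finset.sum_sub_distrib]
        exact Finset.sum_congr rfl fun j _ => by ring
      rw [h6]
      linear_combination h0

/-- the two kinds of conditions -/
def QEX_P (A B : κ → ℤ) (s0 : ℂ) (t : Bool) (z : κ → ℤ) : Prop :=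
  if t = true then VL A B z ≠ 0 else ¬ IsCr A B s0 z

omit [Fintype ι] [DecidableEq ι] [DecidableEq κ] [Fintype Ω] [DecidableEq Ω] in
theorem QEX_cond (φ : Ω → κ → ℤ) (A B : κ → ℤ) (s0 : ℂ) (t : Bool) (Ξ : Finset Ω)
    (hc : Ξ.card + 2 = Fintype.card κ)
    (hz : ∃ z : κ → ℤ, (∀ ω ∈ Ξ, pr (φ ω) z = 0) ∧ QEX_P A B s0 t z) :
    ∃ u : κ → ℝ, u ≠ 0 ∧ ∀ q : κ → ℤ, ∑ j, (q j : ℝ) * u j ≠ 0 →
      ∃ z : κ → ℤ, (∀ ω ∈ Ξ, pr (φ ω) z = 0) ∧ pr q z = 0 ∧ QEX_P A B s0 t z := by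
  obtain ⟨z1, h1, h2⟩ := hz
  -- it is enough to find a real functional
  suffices hs : ∃ C : κ → ℝ, ∑ j, C j * (z1 j : ℝ) ≠ 0 ∧
      ∀ z : κ → ℤ, ∑ j, C j * (z j : ℝ) ≠ 0 → QEX_P A B s0 t z by
    obtain ⟨C, hC1, hC2⟩ := hs
    obtain ⟨u, hu, hq⟩ := QEX_key φ Ξ hc z1 h1 C hC1
    refine ⟨u, hu, fun q hqu => ?_⟩
    obtain ⟨z, e1, e2, e3⟩ := hq q hqu
    exact ⟨z, e1, e2, hC2 z e3⟩
  have hpr : ∀ x z : κ → ℤ, ∑ j, ((x j : ℤ) : ℝ) * (z j : ℝ) = ((pr x z : ℤ) : ℝ) := by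
    intro x z
    simp only [pr]
    push_cast
    rfl
  cases t with
  | true =>
    simp only [QEX_P, if_true] at h2 ⊢
    have h3 : pr A z1 ≠ 0 ∨ pr B z1 ≠ 0 := by
      by_contra hcon
      push Not at hcon
      apply h2
      rw [VL, hcon.1, hcon.2]
      simp
    rcases h3 with h3 | h3
    · refine ⟨fun j => (A j : ℝ), ?_, fun z hz hV => ?_⟩
      · rw [hpr]
        exact_mod_cast h3
      · apply hz
        rw [hpr, (VL_eq_zero hV).1, Int.cast_zero]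
    · refine ⟨fun j => (B j : ℝ), ?_, fun z hz hV => ?_⟩
      · rw [hpr]
        exact_mod_cast h3
      · apply hz
        rw [hpr, (VL_eq_zero hV).2, Int.cast_zero]
  | false =>
    simp only [QEX_P, Bool.false_eq_true, if_false] at h2 ⊢
    have hre : ∀ z : κ → ℤ, ∑ j, ((A j : ℝ) + (B j : ℝ) * s0.re) * (z j : ℝ) =
        ((pr A z : ℂ) + (pr B z : ℂ) * s0).re := by
      intro z
      simp only [pr]
      push_cast
      simp only [Complex.add_re, Complex.mul_re, Complex.re_sum, Complex.im_sum, Complex.mul_im,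
        Complex.intCast_re, Complex.intCast_im]
      rw [Finset.sum_mul, Finset.sum_mul, ← Finset.sum_sub_distrib, ← Finset.sum_add_distrib]
      exact Finset.sum_congr rfl fun j _ => by ring
    have him : ∀ z : κ → ℤ, ∑ j, ((B j : ℝ) * s0.im) * (z j : ℝ) =
        ((pr A z : ℂ) + (pr B z : ℂ) * s0).im := by
      intro z
      simp only [pr]
      push_cast
      simp only [Complex.add_im, Complex.mul_re, Complex.re_sum, Complex.im_sum, Complex.mul_im,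
        Complex.intCast_re, Complex.intCast_im]
      rw [Finset.sum_mul, Finset.sum_mul, ← Finset.sum_add_distrib, ← Finset.sum_add_distrib]
      exact Finset.sum_congr rfl fun j _ => by ring
    by_cases h3 : ((pr A z1 : ℂ) + (pr B z1 : ℂ) * s0).re = 0
    · refine ⟨fun j => (B j : ℝ) * s0.im, ?_, fun z hz hcr => ?_⟩
      · rw [him]
        intro h4
        exact h2 (Complex.ext h3 h4)
      · apply hz
        rw [him, show (pr A z : ℂ) + (pr B z : ℂ) * s0 = 0 from hcr, Complex.zero_im]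
    · refine ⟨fun j => (A j : ℝ) + (B j : ℝ) * s0.re, ?_, fun z hz hcr => ?_⟩
      · rw [hre]
        exact h3
      · apply hz
        rw [hre, show (pr A z : ℂ) + (pr B z : ℂ) * s0 = 0 from hcr, Complex.zero_re]

omit [DecidableEq ι] [DecidableEq κ] [DecidableEq Ω] in
theorem QEX_pos (hZ : ZT v φ A B) (i : ι) : 0 < ∑ j, (∑ ω, (φ ω j : ℝ)) * (v i j : ℝ) := by
  have h1 : ∑ j, (∑ ω, (φ ω j : ℝ)) * (v i j : ℝ) = ∑ ω, ((pr (φ ω) (v i) : ℤ) : ℝ) := by
    simp only [pr]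
    push_cast
    rw [Finset.sum_comm]
    exact Finset.sum_congr rfl fun j _ => by rw [Finset.sum_mul]
  rw [h1]
  have h0 : ∀ ω ∈ (univ : Finset Ω), (0 : ℝ) ≤ ((pr (φ ω) (v i) : ℤ) : ℝ) := fun ω _ => by
    exact_mod_cast hZ.nn i ω
  rcases (Finset.sum_nonneg h0).lt_or_eq with h2 | h2
  · exact h2
  · exfalso
    have h3 := (Finset.sum_eq_zero_iff_of_nonneg h0).1 h2.symm
    have h4 := hZ.sp (vR v i) (fun ω => by
      rw [Pool.Agent.H37.T5.prR_vR]
      exact h3 ω (mem_univ ω))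
    apply v_ne hZ i
    funext j
    have h5 := congrFun h4 j
    simp only [vR, Pi.zero_apply] at h5
    exact_mod_cast h5

theorem qex (hZ : ZT v φ A B) (s0 : ℂ) : ∃ q : κ → ℤ, QG v φ A B s0 q := by
  classical
  obtain ⟨J, hJ⟩ : ∃ J : Type, J = {p : Finset Ω × Bool // p.1.card + 2 = Fintype.card κ ∧
      ∃ z : κ → ℤ, (∀ ω ∈ p.1, pr (φ ω) z = 0) ∧ QEX_P A B s0 p.2 z} := ⟨_, rfl⟩
  subst hJ
  have hex := fun j : {p : Finset Ω × Bool // p.1.card + 2 = Fintype.card κ ∧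
      ∃ z : κ → ℤ, (∀ ω ∈ p.1, pr (φ ω) z = 0) ∧ QEX_P A B s0 p.2 z} =>
    QEX_cond φ A B s0 j.1.2 j.1.1 j.2.1 j.2.2
  choose u hu0 hu using hex
  let ℓ : {p : Finset Ω × Bool // p.1.card + 2 = Fintype.card κ ∧
      ∃ z : κ → ℤ, (∀ ω ∈ p.1, pr (φ ω) z = 0) ∧ QEX_P A B s0 p.2 z} → (κ → ℝ) →ₗ[ℝ] ℝ :=
    fun j =>
    { toFun := fun x => ∑ i, x i * u j i
      map_add' := fun x x' => by simp only [Pi.add_apply, add_mul, sum_add_distrib]
      map_smul' := fun C x => by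
        simp only [Pi.smul_apply, smul_eq_mul, mul_sum, RingHom.id_apply]
        exact sum_congr rfl fun j _ => by ring }
  have hℓ : ∀ j x, ℓ j x = ∑ i, x i * u j i := fun j x => rfl
  have hU : IsOpen {x : κ → ℝ | ∀ i, 0 < ∑ j, x j * (v i j : ℝ)} := by
    have e : {x : κ → ℝ | ∀ i, 0 < ∑ j, x j * (v i j : ℝ)} =
        ⋂ i, {x : κ → ℝ | 0 < ∑ j, x j * (v i j : ℝ)} := by
      ext x
      simp
    rw [e]
    exact isOpen_iInter_of_finite fun i => isOpen_lt continuous_const (by fun_prop)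
  obtain ⟨c, hcU, hcP⟩ := exists_avoid (fun j => LinearMap.ker (ℓ j)) (fun j htop => by
      have h1 : u j ∈ LinearMap.ker (ℓ j) := by rw [htop]; trivial
      rw [LinearMap.mem_ker, hℓ] at h1
      have h2 := (Finset.sum_eq_zero_iff_of_nonneg (fun i _ => mul_self_nonneg (u j i))).1 h1
      exact hu0 j (funext fun i => mul_self_eq_zero.1 (h2 i (mem_univ i))))
    {x : κ → ℝ | ∀ i, 0 < ∑ j, x j * (v i j : ℝ)} hU
    ⟨fun j => ∑ ω, (φ ω j : ℝ), fun i => QEX_pos hZ i⟩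
  have hO : IsOpen ({x : κ → ℝ | ∀ i, 0 < ∑ j, x j * (v i j : ℝ)} ∩
      ⋂ j, {x : κ → ℝ | ∑ i, x i * u j i ≠ 0}) := by
    refine hU.inter (isOpen_iInter_of_finite fun j => ?_)
    exact isOpen_ne_fun (by fun_prop) continuous_const
  have hd : DenseRange (Pi.map (fun (_ : κ) (x : ℚ) => (x : ℝ))) :=
    DenseRange.piMap fun _ => Rat.denseRange_cast
  have hcO : c ∈ ({x : κ → ℝ | ∀ i, 0 < ∑ j, x j * (v i j : ℝ)} ∩
      ⋂ j, {x : κ → ℝ | ∑ i, x i * u j i ≠ 0}) := by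
    refine ⟨hcU, Set.mem_iInter.2 fun j => ?_⟩
    have h3 := hcP j
    rw [LinearMap.mem_ker, hℓ] at h3
    exact h3
  obtain ⟨y, hy1, hy2⟩ := hd.exists_mem_open hO ⟨c, hcO⟩
  obtain ⟨D, q, hD, hq⟩ := ZLOCZ_int y
  have hDR : (0 : ℝ) < (D : ℝ) := by exact_mod_cast hD
  have hqR : ∀ j, (q j : ℝ) = D * (y j : ℝ) := fun j => by exact_mod_cast hq j
  have hqu : ∀ w : κ → ℝ, ∑ j, (q j : ℝ) * w j = D * ∑ j, (y j : ℝ) * w j := by
    intro w
    rw [Finset.mul_sum]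
    exact Finset.sum_congr rfl fun j _ => by rw [hqR]; ring
  have hgood : ∀ j, ∑ i, (q i : ℝ) * u j i ≠ 0 := by
    intro j
    rw [hqu]
    exact mul_ne_zero hDR.ne' (Set.mem_iInter.1 hy2 j)
  refine ⟨q, ⟨fun i => ?_, fun Ξ _ hc hz => ?_, fun Ξ _ hc hz => ?_⟩⟩
  · have h4 : (0 : ℝ) < ((pr q (v i) : ℤ) : ℝ) := by
      have h5 : ((pr q (v i) : ℤ) : ℝ) = ∑ j, (q j : ℝ) * (v i j : ℝ) := by
        simp only [pr]
        push_cast
        rfl
      rw [h5, hqu]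
      exact mul_pos hDR (hy1 i)
    exact_mod_cast h4
  · exact hu ⟨(Ξ, true), hc, hz⟩ q (hgood _)
  · have hz' : ∃ z : κ → ℤ, (∀ ω ∈ Ξ, pr (φ ω) z = 0) ∧ QEX_P A B s0 false z := by
      obtain ⟨z, e1, e2⟩ := hz
      exact ⟨z, e1, by simpa [QEX_P] using e2⟩
    obtain ⟨z, e1, e2, e3⟩ := hu ⟨(Ξ, false), hc, hz'⟩ q (hgood _)
    exact ⟨z, e1, e2, by simpa [QEX_P] using e3⟩

end Pool.Agent.H37.T6
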