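import Pool.Agent.H37.T6.LFIN
import Pool.Agent.H37.T6.CEN
import Pool.Agent.H37.T6.CHY
import Pool.Agent.H37.T6.QEX
import Pool.Agent.H37.T6.GEX
import Pool.Agent.H37.T6.HEX
import Pool.Agent.H56.SMC.ZTC
import Pool.Agent.H56.SMC.ZNR

/-!
# FIN6: the zeta side for arbitrary nondegenerate polynomials

Suppose `s0` is a pole.  `ztc` gives a critical facet normal, so `s0 ≠ 0`.  Choose `R`, `q`, `g`,
`h`; `lfin` for `Vt` = all exponents with the hypothesis from `chy`; `cen`.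
-/

set_option autoImplicit false

namespace Pool.Agent.H37.T6

open Finset H60.RegTri
open Pool.Agent.H37.T5
open Pool.Agent.H56.SMC

/-- The concrete setting exists. -/
theorem exists_cs {n r : ℕ} (a : Fin r → (Fin n →₀ ℕ)) (ha : Function.Injective a)
    (hr : 0 < r) (hn : 0 < n) (s0 : ℂ) : ∃ R q g h, CS a R s0 q g h := by
  obtain ⟨R, hR⟩ := exists_raySet a hr
  have hZ := czt a ha hr R hR
  obtain ⟨q, hq⟩ := qex hZ s0
  obtain ⟨g, hg1, hg2, hg3⟩ := gex (pf a) q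
  obtain ⟨h, hh1, hh2⟩ := hex (vR (vv a R)) (rv0 R)
  exact ⟨R, q, g, h, ha, hr, hn, hR, ⟨Fintype.card_pos, hZ, hq.pos, hg1, hg2, hh1⟩, hq, hh2, hg3⟩

/-- The zeta side. -/
theorem polesT6 {n r : ℕ} (a : Fin r → (Fin n →₀ ℕ)) (ha : Function.Injective a)
    (hne : ∃ i, a i ≠ 0) (s0 : ℂ) (hs1 : s0 ≠ -1) (hHY : HY a s0)
    (𝒟 : ∀ τ, H22.FaceCones a τ) (𝒯 : ∀ τ, H22.FaceTriang a τ) :
    ¬ (H22.topZetaG a 𝒟 𝒯).denom.IsRoot s0 := by
  classical
  intro hs
  rcases ztc a 𝒟 𝒯 s0 hs with h | ⟨w0, hw0, hN0, hs00⟩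
  · exact hs1 h
  have hs0 : s0 ≠ 0 := by
    intro h0
    rw [h0] at hs00
    have h1 : (H22.wmin a w0 : ℂ) ≠ 0 := by exact_mod_cast hN0.ne'
    rw [eq_comm, div_eq_zero_iff] at hs00
    rcases hs00 with h2 | h2
    · rw [neg_eq_zero] at h2
      have h3 : H22.wsum w0 = 0 := by exact_mod_cast h2
      apply hw0.1
      funext j
      exact (Finset.sum_eq_zero_iff.1 h3) j (mem_univ j)
    · exact h1 h2
  obtain ⟨i0, hi0⟩ := hne
  have hr : 0 < r := Nat.pos_of_ne_zero (fun h => by subst h; exact i0.elim0)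
  have hn : 0 < n := by
    refine Nat.pos_of_ne_zero (fun h => ?_)
    subst h
    exact hi0 (Subsingleton.elim _ _)
  obtain ⟨R, q, g, h, hC⟩ := exists_cs a ha hr hn s0
  have hL := rls hC.rs hC.qg
  have h1 := lfin hL (inB (univ : Finset (Fin r))) (eD : Fin n → Unit ⊕ Fin n → ℤ)
    pr_AA_eD pr_BB_eD
    (fun Λ hΛ Y hY hΛY => chy hC hs0 hHY Λ hΛ Y hY hΛY)
  have h2 := cen hC hs1 𝒟 𝒯
  have h3 : ∑ T : Finset (Fin r), (-1) ^ T.card *
        (((mulv (pf a) (inB T)) ^ 2 : ℕ) : RatFunc ℂ) *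
          LLs (pf a) q AA BB (DD (pf a) q g) (inB T) =
      ∑ T ∈ (inB (univ : Finset (Fin r))).powerset,
        (-1) ^ T.card * (((mulv (pf a) T) ^ 2 : ℕ) : RatFunc ℂ) *
          LLs (pf a) q AA BB (DD (pf a) q g) T := by
    refine Finset.sum_bij (fun T _ => inB T) ?_ ?_ ?_ ?_
    · intro T _
      rw [mem_powerset]
      exact Finset.map_subset_map.2 (subset_univ _)
    · intro T _ T' _ hTT
      exact Finset.map_injective _ hTT
    · intro T hT
      rw [mem_powerset] at hT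
      obtain ⟨T', -, hT'⟩ := Finset.subset_map_iff.1 hT
      exact ⟨T', mem_univ _, hT'.symm⟩
    · intro T _
      rw [inB, card_map]
  rw [← h3] at h1
  have h4 := h2.sub ((H37.SM.reg_X_div hs1).mul h1)
  rw [add_sub_cancel_right] at h4
  exact h4 hs

end Pool.Agent.H37.T6
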