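import Pool.Agent.H37.T6.TDefs
import Pool.Agent.H37.T5.ZJT
import Pool.Agent.H37.T5.ZJM
import Pool.Agent.H56.SMC.ZNJT

/-!
# CJF: `J_τ` through the lifted rays

As `zjt` (T5, file ZJT; copy and modify; there `T = vt a τ`, here `T ⊆ τ` is a subset of exponents whose rows are a basis of the span of the rows of `τ`).  `T` is nonempty (`0 < faceRank`).  Let `h' w = h (some w)`, generic for `rv R` (`ZJT_gen`, `hC.gen'`).  `jf_tri` gives `JfunG a τ 𝒟 = ∑_{σ ∈ upT R h' (raysIn a R τ) (n + 1 - faceRank a τ)} tm a σ`, `faceRank a τ = T.card`.  The map `σ ↦ σ.map some` is a bijection onto `TT (vv a R) (pf a) h (inB T)`: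
(1) `Gx (vv a R) (pf a) (inB T)` consists of the `some w` with `w ∈ raysIn a R τ`: `rho` is excluded (`pr (pf a (inl t)) rho = 1`, `T` nonempty).  `pf_inl_lf`: `pr (pf a (inl t)) (lf a w) = 0` iff `a_t·w = N(w)`.  If this holds for all `t ∈ T` it holds for all `i ∈ τ` (the row of `i` is a combination of the rows of `T`, pair with `(-N(w); w)`), and `a_i·w = N(w)` for all `i ∈ τ` iff `toReal w ∈ minCone a τ` (`ZJT_wmin`).
(2) for a fixed `t ∈ T` all these vectors `(-N(w); w)` are the images of the `rv R w` under the injective linear map `ZJT_L a t` (`ZJT_vec`): `ZJT_indep`, `ZJT_upper`.  (3) the cardinality: `σ.card + T.card = n + 1`, `T.card ≤ n + 1` (`ZJT_rank_le`).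
(4) the multiplicities: `zjt_mul` (T5, file ZJM).  (5) the products: `VL_lf`.
-/

set_option autoImplicit false

namespace Pool.Agent.H37.T6

open Finset H60.RegTri
open Pool.Agent.H37.T5
open Pool.Agent.H56.SMC

variable {n r : ℕ} {a : Fin r → (Fin n →₀ ℕ)} {R : Finset (Fin n → ℕ)} {s0 : ℂ}
  {q : Unit ⊕ Fin n → ℤ} {g : Option (Fin r ⊕ Fin n) → ℝ} {h : Option R → ℝ}

/-- the rows of `T` span the rows of `τ` -/
theorem CJF_span (a : Fin r → (Fin n →₀ ℕ)) (τ T : Finset (Fin r)) (hTτ : T ⊆ τ)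
    (hT : LinearIndepOn ℝ (H22.rowR a) (T : Set (Fin r))) (hTc : T.card = H22.faceRank a τ)
    (i : Fin r) (hi : i ∈ τ) :
    ∃ β : Fin r → ℝ, H22.rowR a i = ∑ t ∈ T, β t • H22.rowR a t := by
  have hle : Submodule.span ℝ (H22.rowR a '' (T : Set (Fin r))) ≤
      Submodule.span ℝ (H22.rowR a '' (τ : Set (Fin r))) :=
    Submodule.span_mono (Set.image_mono (by exact_mod_cast hTτ))
  have hfr : Module.finrank ℝ (Submodule.span ℝ (H22.rowR a '' (T : Set (Fin r)))) = T.card := by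
    have h1 : LinearIndependent ℝ (fun t : T => H22.rowR a (t : Fin r)) := hT
    have h2 := finrank_span_eq_card h1
    rw [Fintype.card_coe] at h2
    have h3 : (H22.rowR a '' (T : Set (Fin r))) = Set.range (fun t : T => H22.rowR a (t : Fin r)) := by
      rw [Set.image_eq_range]
      rfl
    rw [h3, h2]
  have heq := Submodule.eq_of_le_of_finrank_eq hle (hfr.trans hTc)
  have h1 : H22.rowR a i ∈ Submodule.span ℝ (H22.rowR a '' (τ : Set (Fin r))) :=
    Submodule.subset_span ⟨i, hi, rfl⟩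
  rw [← heq] at h1
  exact (mem_span_iff (H22.rowR a) T _).1 h1

/-- the pairing of a row with `(-N(w); w)` -/
theorem CJF_pair (a : Fin r → (Fin n →₀ ℕ)) (w : Fin n → ℕ) (i : Fin r) :
    ∑ t, H22.rowR a i t * ((lf a w t : ℤ) : ℝ) =
      ((∑ j, a i j * w j : ℕ) : ℝ) - (H22.wmin a w : ℝ) := by
  simp only [H22.rowR, lf, Fintype.sum_sum_type, univ_unique, Sum.elim_inl, sum_const,
    card_singleton, one_smul, one_mul, Sum.elim_inr]
  push_cast
  ring

theorem CJF_eq (a : Fin r → (Fin n →₀ ℕ)) (τ T : Finset (Fin r)) (hTτ : T ⊆ τ)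
    (hT : LinearIndepOn ℝ (H22.rowR a) (T : Set (Fin r))) (hTc : T.card = H22.faceRank a τ)
    (w : Fin n → ℕ) (h : ∀ t ∈ T, ∑ j, a t j * w j = H22.wmin a w) (i : Fin r) (hi : i ∈ τ) :
    ∑ j, a i j * w j = H22.wmin a w := by
  obtain ⟨β, hβ⟩ := CJF_span a τ T hTτ hT hTc i hi
  have h1 : ∑ t, H22.rowR a i t * ((lf a w t : ℤ) : ℝ) =
      ∑ s ∈ T, β s * ∑ t, H22.rowR a s t * ((lf a w t : ℤ) : ℝ) := by
    rw [hβ]
    simp only [Finset.sum_apply, Pi.smul_apply, smul_eq_mul, Finset.sum_mul, Finset.mul_sum]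
    rw [Finset.sum_comm]
    exact sum_congr rfl fun s _ => sum_congr rfl fun t _ => by ring
  have h2 : ∑ s ∈ T, β s * ∑ t, H22.rowR a s t * ((lf a w t : ℤ) : ℝ) = 0 := by
    refine sum_eq_zero fun s hs => ?_
    rw [CJF_pair, h s hs, sub_self, mul_zero]
  rw [h2, CJF_pair, sub_eq_zero] at h1
  exact_mod_cast h1

theorem CJF_ne (a : Fin r → (Fin n →₀ ℕ)) (τ T : Finset (Fin r)) (hne : τ.Nonempty)
    (hTτ : T ⊆ τ) (hT : LinearIndepOn ℝ (H22.rowR a) (T : Set (Fin r)))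
    (hTc : T.card = H22.faceRank a τ) : T.Nonempty := by
  obtain ⟨i, hi⟩ := hne
  by_contra hcon
  rw [not_nonempty_iff_eq_empty] at hcon
  obtain ⟨β, hβ⟩ := CJF_span a τ T hTτ hT hTc i hi
  rw [hcon, sum_empty] at hβ
  have h1 := congrFun hβ (Sum.inl ())
  simp [H22.rowR] at h1

/-- the rays at which the functionals of `T` vanish -/
theorem CJF_Gx (a : Fin r → (Fin n →₀ ℕ)) (R : Finset (Fin n → ℕ)) (τ T : Finset (Fin r))
    (hne : τ.Nonempty)
    (hTτ : T ⊆ τ) (hT : LinearIndepOn ℝ (H22.rowR a) (T : Set (Fin r)))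
    (hTc : T.card = H22.faceRank a τ) :
    Gx (vv a R) (pf a) (inB T) = (raysIn a R τ).map ZJT_e := by
  ext o
  rw [mem_Gx, mem_map]
  have hin : ∀ P : Fin r ⊕ Fin n → Prop, (∀ ω ∈ inB T, P ω) ↔ ∀ t ∈ T, P (Sum.inl t) := by
    intro P
    unfold inB
    rw [forall_mem_map]
    rfl
  rw [hin]
  rcases o with _ | u
  · constructor
    · intro h
      obtain ⟨t, ht⟩ := CJF_ne a τ T hne hTτ hT hTc
      have h1 := h t ht
      have h2 : pr (pf a (Sum.inl t)) rho = 1 := by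
        rw [pf_inl]
        simp [rho]
      rw [show vv a R none = rho from rfl, h2] at h1
      exact absurd h1 one_ne_zero
    · rintro ⟨x, -, hx⟩
      exact absurd hx (by simp)
  · have h1 : (∀ t ∈ T, pr (pf a (Sum.inl t)) (vv a R (some u)) = 0) ↔
        u ∈ raysIn a R τ := by
      rw [mem_raysIn]
      have h2 : ∀ j, 0 ≤ rv R u j := fun j => Nat.cast_nonneg _
      constructor
      · intro h
        have h3 : ∀ t ∈ T, ∑ j, a t j * u.1 j = H22.wmin a u.1 := by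
          intro t ht
          have h3 := h t ht
          rw [show vv a R (some u) = lf a u.1 from rfl, pf_inl_lf] at h3
          have h4 : ((∑ j, a t j * u.1 j : ℕ) : ℤ) = (H22.wmin a u.1 : ℤ) := by linarith
          exact_mod_cast h4
        exact ⟨h2, fun i hi => (ZJT_wmin a u.1 i).2 (CJF_eq a τ T hTτ hT hTc u.1 h3 i hi)⟩
      · rintro ⟨-, h⟩ t ht
        have h3 := (ZJT_wmin a u.1 t).1 (h t (hTτ ht))
        rw [show vv a R (some u) = lf a u.1 from rfl, pf_inl_lf, h3, sub_self]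
    rw [h1]
    constructor
    · intro h
      exact ⟨u, h, rfl⟩
    · rintro ⟨x, hx, hxe⟩
      have : x = u := Option.some_injective _ hxe
      rwa [this] at hx

theorem cjf (hC : CS a R s0 q g h) (τ : Finset (Fin r)) (hτ : H22.IsFace a τ)
    (hne : τ.Nonempty) (T : Finset (Fin r)) (hTτ : T ⊆ τ)
    (hT : LinearIndepOn ℝ (H22.rowR a) (T : Set (Fin r))) (hTc : T.card = H22.faceRank a τ)
    (𝒟 : H22.FaceCones a τ) :
    H22.JfunG a τ 𝒟 = ∑ σ ∈ TT (vv a R) (pf a) h (inB T), tmv AA BB (vv a R) σ := by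
  classical
  obtain ⟨t, ht⟩ := CJF_ne a τ T hne hTτ hT hTc
  rw [jf_tri a R hC.rays (fun w => h (some w)) (ZJT_gen R h hC.gen') τ hne hτ 𝒟]
  have hle := ZJT_rank_le a τ
  have hGx := CJF_Gx a R τ T hne hTτ hT hTc
  have hmin : ∀ u ∈ raysIn a R τ, ∑ j, a t j * u.1 j = H22.wmin a u.1 := by
    intro u hu
    have h1 := mem_raysIn.1 hu
    exact (H22.wmin_eq h1 (hTτ ht)).symm
  have hvec : ∀ u ∈ raysIn a R τ, vR (vv a R) (some u) = ZJT_L a t (rv R u) :=
    fun u hu => ZJT_vec a R t u (hmin u hu)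
  have hcard : ∀ σ : Finset R, σ.card + (inB T : Finset (Fin r ⊕ Fin n)).card =
      Fintype.card (Unit ⊕ Fin n) ↔ σ.card = n + 1 - H22.faceRank a τ := by
    intro σ
    unfold inB
    rw [card_map, hTc, Fintype.card_sum, Fintype.card_fin, Fintype.card_unit]
    omega
  have hTT : TT (vv a R) (pf a) h (inB T) =
      (upT R (fun w => h (some w)) (raysIn a R τ) (n + 1 - H22.faceRank a τ)).map
        (mapEmbedding ZJT_e).toEmbedding := by
    ext σ'
    rw [mem_TT, mem_map, hGx]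
    constructor
    · rintro ⟨h1, h2⟩
      obtain ⟨σ, hσ, rfl⟩ := subset_map_iff.1 h1.1
      refine ⟨σ, ?_, rfl⟩
      rw [mem_upT]
      refine ⟨(ZJT_upper (rv R) (vR (vv a R)) _ (ZJT_L_inj a t) _ hvec h σ).1 h1, ?_⟩
      rw [card_map] at h2
      exact (hcard σ).1 h2
    · rintro ⟨σ, hσ, rfl⟩
      rw [mem_upT] at hσ
      refine ⟨(ZJT_upper (rv R) (vR (vv a R)) _ (ZJT_L_inj a t) _ hvec h σ).2 hσ.1, ?_⟩
      show (σ.map ZJT_e).card + _ = _
      rw [card_map]
      exact (hcard σ).2 hσ.2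
  rw [hTT, sum_map]
  refine sum_congr rfl fun σ hσ => ?_
  rw [mem_upT] at hσ
  show tm a σ = tmv AA BB (vv a R) (σ.map ZJT_e)
  unfold tm tmv
  rw [zjt_mul a R t σ fun u hu => hmin u (hσ.1.1 hu), prod_map]
  congr 1
  refine prod_congr rfl fun u _ => ?_
  rw [← VL_lf u.1]
  rfl

end Pool.Agent.H37.T6
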