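import Pool.Agent.H37.T6.TDefs
import Pool.Agent.H22.VolAdd
import Pool.Agent.H60.ConeExist
import Pool.Agent.H37.T5.ZNVOL

/-!
# CNV: normalised volumes through the upper simplices

`cnv_mul`: `mulv (pf a) (inB T)` and `faceVol a T` are `latIndex` of families with the same range (see `ZNVOL_mulv`, `znjt_latIndex`).
`cnv`: `UF a g' τ` is a `GoodFam a τ` (`Pool.Agent.H22.VolAdd`): `sub`, `card`, `indep` clear (`mem_UF`); `disj`: `disjoint_oCone` (`oCone = posCone`; the span condition because `T.card = faceRank a τ`, `T ⊆ τ` independent: the span of `T` is the span of `τ`, `H60.ConeExist.card_eq_finrank`, `Submodule.eq_of_le_of_finrank_eq`);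
`cover`: `exists_upper` (RegTri) with `ℓ` = the coordinate `inl ()` (`rowR_inl = 1`) gives `σ` upper with the point in `oCone σ`; if `σ.card < faceRank a τ` the point is in the span of the rows of `σ`, excluded; and `σ.card ≤ faceRank a τ` since `σ ⊆ τ` is independent.
`FaceTriang.goodFam hτ 𝒯` is a `GoodFam` for `𝒯.S`.  `UF` is not empty (`exists_interior` and `cover`, or `cover_upper` with the point `0`); `GoodFam.sum_eq`: `nvol 𝒯 = ∑ faceVol`.
-/

set_option autoImplicit false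

namespace Pool.Agent.H37.T6

open Finset H60.RegTri
open Pool.Agent.H37.T5
open Pool.Agent.H56.SMC

variable {n r : ℕ}

theorem cnv_mul (a : Fin r → (Fin n →₀ ℕ)) (T : Finset (Fin r)) :
    mulv (pf a) (inB T) = H22.faceVol a T := by
  classical
  unfold mulv H22.faceVol H22.latIndex
  have h : Set.range (fun i : (inB T : Finset (Fin r ⊕ Fin n)) => pf a i) =
      Set.range (fun i : (T : Finset (Fin r)) => H22.homRow a i) := by
    ext z
    simp only [Set.mem_range]
    constructor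
    · rintro ⟨⟨i, hi⟩, rfl⟩
      obtain ⟨t, ht, rfl⟩ := Finset.mem_map.1 hi
      exact ⟨⟨t, ht⟩, rfl⟩
    · rintro ⟨⟨i, hi⟩, rfl⟩
      exact ⟨⟨Sum.inl i, mem_inB.2 hi⟩, rfl⟩
  rw [h]

/-- The upper simplices of full rank triangulate the face. -/
theorem CNV_good (a : Fin r → (Fin n →₀ ℕ)) (g' : Fin r → ℝ)
    (hg : ∀ τ, GenericOn (H22.rowR a) g' τ) (τ : Finset (Fin r)) :
    H22.GoodFam a τ (UF a g' τ) := by
  classical
  have hfull : ∀ σ ∈ UF a g' τ, ∀ l ∈ τ,
      H22.rowR a l ∈ Submodule.span ℝ (H22.rowR a '' (σ : Set (Fin r))) := by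
    intro σ hσ l hl
    obtain ⟨h1, h2⟩ := mem_UF.mp hσ
    have hspan : Submodule.span ℝ (H22.rowR a '' (σ : Set (Fin r))) =
        Submodule.span ℝ (H22.rowR a '' (τ : Set (Fin r))) := by
      apply Submodule.eq_of_le_of_finrank_eq
      · exact Submodule.span_mono (Set.image_mono (by exact_mod_cast h1.1))
      · rw [← H60.ConeExist.card_eq_finrank (H22.rowR a) σ h1.2.1, h2]
        rfl
    rw [hspan]
    exact Submodule.subset_span ⟨l, hl, rfl⟩
  refine ⟨fun σ hσ => (mem_UF.mp hσ).1.1, fun σ hσ => (mem_UF.mp hσ).2,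
    fun σ hσ => (mem_UF.mp hσ).1.2.1, ?_, ?_⟩
  · intro σ hσ σ' hσ' hne
    exact disjoint_oCone (H22.rowR a) g' τ σ σ' (mem_UF.mp hσ).1 (hfull σ hσ)
      (mem_UF.mp hσ').1 (hfull σ' hσ') hne
  · intro x hx hy
    obtain ⟨σ, hσ, hyσ⟩ := exists_upper (H22.rowR a) g' τ (LinearMap.proj (Sum.inl ()))
      (fun i _ => by simp [H22.rowR]) (hg τ) (∑ i ∈ τ, x i • H22.rowR a i)
      ⟨x, hx, rfl⟩
    have hc : σ.card = H22.faceRank a τ := by
      have h1 : ¬ σ.card < H22.faceRank a τ := by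
        intro h2
        refine hy σ hσ.1 h2 ?_
        obtain ⟨x', -, hx'⟩ := hyσ
        exact (mem_span_iff _ σ _).mpr ⟨x', hx'⟩
      have h2 : σ.card ≤ H22.faceRank a τ := by
        rw [H60.ConeExist.card_eq_finrank (H22.rowR a) σ hσ.2.1]
        exact Submodule.finrank_mono (Submodule.span_mono (Set.image_mono
          (by exact_mod_cast hσ.1)))
      omega
    exact ⟨σ, mem_UF.mpr ⟨hσ, hc⟩, hyσ⟩

theorem cnv (a : Fin r → (Fin n →₀ ℕ)) (g' : Fin r → ℝ)
    (hg : ∀ τ, GenericOn (H22.rowR a) g' τ) (τ : Finset (Fin r)) (hτ : τ.Nonempty)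
    (𝒯 : H22.FaceTriang a τ) : H22.nvol 𝒯 = ∑ T ∈ UF a g' τ, mulv (pf a) (inB T) := by
  classical
  obtain ⟨l, hl⟩ := hτ
  obtain ⟨σ₀, hσ₀, -⟩ := 𝒯.cover (H22.pointR a l) (subset_convexHull ℝ _ ⟨l, hl, rfl⟩)
  have h := (𝒯.goodFam ⟨l, hl⟩).sum_eq (CNV_good a g' hg τ) hσ₀
  rw [show H22.nvol 𝒯 = ∑ σ ∈ 𝒯.S, H22.faceVol a σ from rfl, h]
  exact Finset.sum_congr rfl fun T _ => (cnv_mul a T).symm

end Pool.Agent.H37.T6
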