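import Pool.Agent.H37.T6.LDV

/-!
# LREL: the relations on the side of the formula of Lawrence

Let `Δ ∈ D'`, `Ξ ⊆ Δ`.  `lexp` for `f = phq q φ`, `σ = insertNone Δ` (`hL.ind`, `hL.card`, `card_insertNone`) and `Finset.sum_insertNone`: `VL A B z = LaR none * q(z) + ∑_{ω∈Δ} LaR (some ω) * φ_ω(z)`, where the terms with `ω ∈ Ξ` vanish (`hz`): the sum is over `Δ \ Ξ`.
Multiply by `LLt Δ Ξ`: `LaR (some ω) * LLt Δ Ξ = LLt Δ (insert ω Ξ)` for `ω ∈ Δ \ Ξ` (`Δ \ Ξ` is the disjoint union of `{ω}` and `Δ \ insert ω Ξ`; `hL.lnz`), `LaR none * LLt Δ Ξ = WWt Δ Ξ`.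
Sum over `Δ ∈ D'.filter (Ξ ⊆ Δ)` and exchange: `∑_{Δ ⊇ Ξ} ∑_{ω ∈ Δ \ Ξ} = ∑_{ω ∈ univ \ Ξ} ∑_{Δ ⊇ insert ω Ξ}` (`Finset.sum_comm'`; `insert ω Ξ ⊆ Δ` iff `Ξ ⊆ Δ` and `ω ∈ Δ`).
`lrelW`: the same with `WWt` (`LaR (some ω) * WWt Δ Ξ = WWt Δ (insert ω Ξ)`) and `q(z) = 0`.
-/

set_option autoImplicit false

namespace Pool.Agent.H37.T6

open Finset H60.RegTri
open Pool.Agent.H37.T5

variable {κ Ω : Type} [Fintype κ] [DecidableEq κ] [Fintype Ω] [DecidableEq Ω]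
  {φ : Ω → κ → ℤ} {A B q : κ → ℤ} {s0 : ℂ} {D : Finset (Finset Ω)}

/-- The expansion of `V(z)` in the basis `Δ + q` when `Ξ` vanishes at `z`. -/
theorem LREL_exp (hL : LS φ q A B s0 D) {Δ : Finset Ω} (hΔ : Δ ∈ D) (Ξ : Finset Ω)
    (z : κ → ℤ) (hz : ∀ ω ∈ Ξ, pr (φ ω) z = 0) :
    VL A B z = LaR φ q A B Δ none * (pr q z : RatFunc ℂ) +
      ∑ ω ∈ Δ \ Ξ, LaR φ q A B Δ (some ω) * (pr (φ ω) z : RatFunc ℂ) := by
  have hc : (insertNone Δ).card = Fintype.card κ := by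
    rw [card_insertNone]; exact hL.card Δ hΔ
  have h1 := lexp (phq q φ) (insertNone Δ) (hL.ind Δ hΔ) hc A B z
  rw [sum_insertNone] at h1
  rw [h1]
  congr 1
  symm
  apply Finset.sum_subset sdiff_subset
  intro ω hω hω2
  have h2 : ω ∈ Ξ := by
    by_contra h3
    exact hω2 (mem_sdiff.2 ⟨hω, h3⟩)
  rw [hz ω h2, Int.cast_zero, mul_zero]

omit [DecidableEq κ] [Fintype Ω] in
/-- The product over `Δ \ Ξ` with one factor removed. -/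
theorem LREL_prod (hL : LS φ q A B s0 D) {Δ : Finset Ω} (hΔ : Δ ∈ D) (Ξ : Finset Ω) (ω : Ω)
    (hω : ω ∈ Δ \ Ξ) :
    LaR φ q A B Δ (some ω) * ∏ ω' ∈ Δ \ Ξ, (LaR φ q A B Δ (some ω'))⁻¹ =
      ∏ ω' ∈ Δ \ insert ω Ξ, (LaR φ q A B Δ (some ω'))⁻¹ := by
  have h1 : Δ \ Ξ = insert ω (Δ \ insert ω Ξ) := by
    ext x
    simp only [mem_sdiff, mem_insert, not_or]
    rcases eq_or_ne x ω with rfl | hx
    · simp [mem_sdiff.1 hω]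
    · simp [hx]
  have h2 : ω ∉ Δ \ insert ω Ξ := by simp
  rw [h1, prod_insert h2, ← mul_assoc,
    mul_inv_cancel₀ ((hL.lnz Δ hΔ).2 ω (mem_sdiff.1 hω).1), one_mul]

/-- Exchange of the sums. -/
theorem LREL_comm (D' : Finset (Finset Ω)) (Ξ : Finset Ω) (F : Finset Ω → Ω → RatFunc ℂ) :
    ∑ Δ ∈ D'.filter (fun Δ => Ξ ⊆ Δ), ∑ ω ∈ Δ \ Ξ, F Δ ω =
      ∑ ω ∈ univ \ Ξ, ∑ Δ ∈ D'.filter (fun Δ => insert ω Ξ ⊆ Δ), F Δ ω := by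
  apply Finset.sum_comm'
  intro Δ ω
  simp only [mem_filter, mem_sdiff, mem_univ, true_and, insert_subset_iff]
  tauto

theorem lrel (hL : LS φ q A B s0 D) (D' : Finset (Finset Ω)) (hD : D' ⊆ D) (Ξ : Finset Ω)
    (z : κ → ℤ) (hz : ∀ ω ∈ Ξ, pr (φ ω) z = 0) :
    VL A B z * LLs φ q A B D' Ξ =
      ∑ ω ∈ univ \ Ξ, (pr (φ ω) z : RatFunc ℂ) * LLs φ q A B D' (insert ω Ξ) +
        (pr q z : RatFunc ℂ) * WWs φ q A B D' Ξ := by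
  have h1 : ∀ Δ ∈ D'.filter (fun Δ => Ξ ⊆ Δ), VL A B z * LLt φ q A B Δ Ξ =
      ∑ ω ∈ Δ \ Ξ, (pr (φ ω) z : RatFunc ℂ) * LLt φ q A B Δ (insert ω Ξ) +
        (pr q z : RatFunc ℂ) * WWt φ q A B Δ Ξ := by
    intro Δ hΔ
    have hΔD : Δ ∈ D := hD (mem_filter.1 hΔ).1
    rw [LREL_exp hL hΔD Ξ z hz, add_mul, add_comm, Finset.sum_mul]
    congr 1
    · apply Finset.sum_congr rfl
      intro ω hω
      rw [LLt, LLt, ← LREL_prod hL hΔD Ξ ω hω]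
      ring
    · rw [LLt, WWt]
      have := mul_inv_cancel₀ (hL.lnz Δ hΔD).1
      linear_combination (pr q z : RatFunc ℂ) * (mulv (phq q φ) (insertNone Δ) : RatFunc ℂ)⁻¹ *
        (∏ ω ∈ Δ \ Ξ, (LaR φ q A B Δ (some ω))⁻¹) * this
  rw [LLs, Finset.mul_sum, Finset.sum_congr rfl h1, Finset.sum_add_distrib, LREL_comm]
  congr 1
  · apply Finset.sum_congr rfl
    intro ω _
    rw [LLs, Finset.mul_sum]
  · rw [WWs, Finset.mul_sum]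

theorem lrelW (hL : LS φ q A B s0 D) (D' : Finset (Finset Ω)) (hD : D' ⊆ D) (Ξ : Finset Ω)
    (z : κ → ℤ) (hz : ∀ ω ∈ Ξ, pr (φ ω) z = 0) (hq : pr q z = 0) :
    VL A B z * WWs φ q A B D' Ξ =
      ∑ ω ∈ univ \ Ξ, (pr (φ ω) z : RatFunc ℂ) * WWs φ q A B D' (insert ω Ξ) := by
  have h1 : ∀ Δ ∈ D'.filter (fun Δ => Ξ ⊆ Δ), VL A B z * WWt φ q A B Δ Ξ =
      ∑ ω ∈ Δ \ Ξ, (pr (φ ω) z : RatFunc ℂ) * WWt φ q A B Δ (insert ω Ξ) := by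
    intro Δ hΔ
    have hΔD : Δ ∈ D := hD (mem_filter.1 hΔ).1
    rw [LREL_exp hL hΔD Ξ z hz, hq, Int.cast_zero, mul_zero, zero_add, Finset.sum_mul]
    apply Finset.sum_congr rfl
    intro ω hω
    rw [WWt, WWt, ← LREL_prod hL hΔD Ξ ω hω]
    ring
  rw [WWs, Finset.mul_sum, Finset.sum_congr rfl h1, LREL_comm]
  apply Finset.sum_congr rfl
  intro ω _
  rw [WWs, Finset.mul_sum]

end Pool.Agent.H37.T6
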