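import Pool.Agent.H37.T6.TSP
import Pool.Agent.H37.T5.ZLOCZ

/-!
# LDV: dual vectors and coordinates

`ldv`: `ZLOCZ_surj` (file ZLOCZ of T5) for the family `fun t : σ => f t` (independent by `hσ`) gives a rational `y` with `f_b(y) = 1`, `f_i(y) = 0` for the other `i ∈ σ`; `ZLOCZ_int` clears the denominators: `z = D y`, `D > 0`.
`lspan`: `rdim` (TDefs) with `Ξ = ∅` (`v := f`, `φ := f`).
`lexp`: by `lspan` and `cf_sum`: `A = ∑_{i∈σ} cf A i • f_i` (as real vectors) and the same for `B`; pair with `z`: `(pr A z : ℝ) = ∑ cf A i * (pr (f i) z)`; cast to `RatFunc ℂ` as in `TSP_pr` (there the roles in `pr` are exchanged: use `pr_cm`); `cE f σ A i = RatFunc.C (cf A i)`.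
`lexpC`: the same with values in `ℂ`.  `lexpP`: the expansion coordinatewise.
`luniq`: subtract `lexpP`: `∑ d_i (f i j : ℂ) = 0` for all `j`; real and imaginary parts: `∑ Re(d_i) f_i = 0`, `∑ Im(d_i) f_i = 0`, so all `d_i = 0` by `hσ`.
-/

set_option autoImplicit false

namespace Pool.Agent.H37.T6

open Finset H60.RegTri
open Pool.Agent.H37.T5

variable {κ : Type} [Fintype κ]

variable {α : Type} [Fintype α] [DecidableEq α]

theorem ldv (f : α → κ → ℤ) (σ : Finset α) (hσ : LinearIndepOn ℝ (vR f) (σ : Set α)) (b : α)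
    (hb : b ∈ σ) : ∃ z : κ → ℤ, 0 < pr (f b) z ∧ ∀ i ∈ σ, i ≠ b → pr (f i) z = 0 := by
  obtain ⟨y, hy⟩ := ZLOCZ_surj (Ω' := σ) (fun t => f t) hσ
    (fun t => if (t : α) = b then 1 else 0)
  obtain ⟨D, z, hD, hz⟩ := ZLOCZ_int y
  have hzω : ∀ i ∈ σ, pr (f i) z = if i = b then D else 0 := by
    intro i hi
    have h1 := hy ⟨i, hi⟩
    have h2 : (pr (f i) z : ℚ) = D * ∑ j, (f i j : ℚ) * y j := by
      rw [pr, Finset.mul_sum]
      push_cast
      refine Finset.sum_congr rfl fun j _ => ?_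
      rw [hz]
      ring
    have h3 : (pr (f i) z : ℚ) = ((if i = b then D else 0 : ℤ) : ℚ) := by
      rw [h2]
      simp only at h1
      rw [h1]
      split_ifs <;> simp
    exact_mod_cast h3
  refine ⟨z, ?_, fun i hi hib => ?_⟩
  · rw [hzω b hb, if_pos rfl]
    exact hD
  · rw [hzω i hi, if_neg hib]

theorem lspan (f : α → κ → ℤ) (σ : Finset α) (hσ : LinearIndepOn ℝ (vR f) (σ : Set α))
    (hc : σ.card = Fintype.card κ) (y : κ → ℝ) : ∃ β : α → ℝ, y = ∑ i ∈ σ, β i • vR f i := by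
  exact rdim f f (∅ : Finset α) σ (by simp) hσ (by simp) (by simpa using hc) y (by simp)

theorem lexp (f : α → κ → ℤ) (σ : Finset α) (hσ : LinearIndepOn ℝ (vR f) (σ : Set α))
    (hc : σ.card = Fintype.card κ) (A B z : κ → ℤ) :
    VL A B z = ∑ i ∈ σ, (cE f σ A i + cE f σ B i * RatFunc.X) * (pr (f i) z : RatFunc ℂ) := by
  have hA := cf_sum (lspan f σ hσ hc (fun j => (A j : ℝ)))
  have hB := cf_sum (lspan f σ hσ hc (fun j => (B j : ℝ)))
  rw [VL, pr_cm A z, pr_cm B z, TSP_pr z A σ _ hA, TSP_pr z B σ _ hB, Finset.sum_mul,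
    ← Finset.sum_add_distrib]
  refine sum_congr rfl fun i _ => ?_
  rw [cE, cE, pr_cm z (f i)]
  ring

theorem LDV_coord (f : α → κ → ℤ) (σ : Finset α) (hσ : LinearIndepOn ℝ (vR f) (σ : Set α))
    (hc : σ.card = Fintype.card κ) (A : κ → ℤ) (j : κ) :
    (A j : ℂ) = ∑ i ∈ σ, ((cf (vR f) σ (fun j => (A j : ℝ)) i : ℝ) : ℂ) * (f i j : ℂ) := by
  have hA := congrFun (cf_sum (lspan f σ hσ hc (fun j => (A j : ℝ)))) j
  simp only [Finset.sum_apply, Pi.smul_apply, vR, smul_eq_mul] at hA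
  have h1 : (((A j : ℤ) : ℝ) : ℂ) = ((A j : ℤ) : ℂ) := by push_cast; rfl
  rw [← h1, hA]
  push_cast
  rfl

theorem lexpC (f : α → κ → ℤ) (σ : Finset α) (hσ : LinearIndepOn ℝ (vR f) (σ : Set α))
    (hc : σ.card = Fintype.card κ) (A B z : κ → ℤ) (s0 : ℂ) :
    (pr A z : ℂ) + (pr B z : ℂ) * s0 = ∑ i ∈ σ,
      (((cf (vR f) σ (fun j => (A j : ℝ)) i : ℝ) : ℂ) +
        ((cf (vR f) σ (fun j => (B j : ℝ)) i : ℝ) : ℂ) * s0) * (pr (f i) z : ℂ) := by
  have h1 : ∀ C : κ → ℤ, (pr C z : ℂ) = ∑ i ∈ σ,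
      ((cf (vR f) σ (fun j => (C j : ℝ)) i : ℝ) : ℂ) * (pr (f i) z : ℂ) := by
    intro C
    simp only [pr, Int.cast_sum, Int.cast_mul, Finset.mul_sum]
    rw [Finset.sum_comm]
    refine sum_congr rfl fun j _ => ?_
    rw [LDV_coord f σ hσ hc C j, Finset.sum_mul]
    exact sum_congr rfl fun i _ => by ring
  rw [h1 A, h1 B, Finset.sum_mul, ← Finset.sum_add_distrib]
  exact sum_congr rfl fun i _ => by ring

theorem lexpP (f : α → κ → ℤ) (σ : Finset α) (hσ : LinearIndepOn ℝ (vR f) (σ : Set α))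
    (hc : σ.card = Fintype.card κ) (A B : κ → ℤ) (s0 : ℂ) (j : κ) :
    (A j : ℂ) + (B j : ℂ) * s0 = ∑ i ∈ σ,
      (((cf (vR f) σ (fun j => (A j : ℝ)) i : ℝ) : ℂ) +
        ((cf (vR f) σ (fun j => (B j : ℝ)) i : ℝ) : ℂ) * s0) * (f i j : ℂ) := by
  rw [LDV_coord f σ hσ hc A j, LDV_coord f σ hσ hc B j, Finset.sum_mul,
    ← Finset.sum_add_distrib]
  exact sum_congr rfl fun i _ => by ring

theorem luniq (f : α → κ → ℤ) (σ : Finset α) (hσ : LinearIndepOn ℝ (vR f) (σ : Set α))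
    (hc : σ.card = Fintype.card κ) (A B : κ → ℤ) (s0 : ℂ) (c : α → ℂ)
    (h : ∀ j, (A j : ℂ) + (B j : ℂ) * s0 = ∑ i ∈ σ, c i * (f i j : ℂ)) : ∀ i ∈ σ,
      c i = ((cf (vR f) σ (fun j => (A j : ℝ)) i : ℝ) : ℂ) +
        ((cf (vR f) σ (fun j => (B j : ℝ)) i : ℝ) : ℂ) * s0 := by
  set d : α → ℂ := fun i => c i - (((cf (vR f) σ (fun j => (A j : ℝ)) i : ℝ) : ℂ) +
        ((cf (vR f) σ (fun j => (B j : ℝ)) i : ℝ) : ℂ) * s0) with hd
  have h0 : ∀ j, ∑ i ∈ σ, d i * (f i j : ℂ) = 0 := by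
    intro j
    have h1 := h j
    rw [lexpP f σ hσ hc A B s0 j] at h1
    simp only [hd, sub_mul, Finset.sum_sub_distrib]
    rw [← h1, sub_self]
  have hre : ∀ i ∈ σ, (d i).re = 0 := by
    refine linearIndepOn_finset_iff.1 hσ (fun i => (d i).re) ?_
    funext j
    have h1 := congrArg Complex.re (h0 j)
    rw [Complex.re_sum] at h1
    simp only [Finset.sum_apply, Pi.smul_apply, vR, smul_eq_mul, Pi.zero_apply]
    rw [Complex.zero_re] at h1
    rw [← h1]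
    refine sum_congr rfl fun i _ => ?_
    simp
  have him : ∀ i ∈ σ, (d i).im = 0 := by
    refine linearIndepOn_finset_iff.1 hσ (fun i => (d i).im) ?_
    funext j
    have h1 := congrArg Complex.im (h0 j)
    rw [Complex.im_sum] at h1
    simp only [Finset.sum_apply, Pi.smul_apply, vR, smul_eq_mul, Pi.zero_apply]
    rw [Complex.zero_im] at h1
    rw [← h1]
    refine sum_congr rfl fun i _ => ?_
    simp
  intro i hi
  have h1 : d i = 0 := Complex.ext (hre i hi) (him i hi)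
  exact sub_eq_zero.1 h1

end Pool.Agent.H37.T6
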