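import Pool.Agent.H37.T6.RRAY
import Pool.Agent.H37.T6.LDV
import Pool.Agent.H37.T5.ZVOLB
import Pool.Agent.H37.T5.ZPYR

/-!
# RBA: the base case

`Δ.card + 1 = card κ`, `Δ` independent.  All `v_i`, `i ∈ Gx Δ`, are multiples of one of them: `K = {φ_Δ = 0}` has dimension `1` (`rdim` with `σ = {i0}`, `i0` from `rray`, `v_ne`): `vR v l = β vR v i`, and `q(v_l) = β q(v_i)`, so `β = q(v_l)/q(v_i) > 0`.
`TT v φ h Δ` = the `{i}`, `i ∈ Gx Δ`, with `h l < β h i` for the other `l ∈ Gx Δ`, i.e. `h l / q(v_l) < h i / q(v_i)`: by genericity (`hR.hgen`: the numbers `h i / q(v_i)` are pairwise different on `Gx Δ`) there is exactly one such `i` (the maximum); `TC univ Δ = TT Δ = {{i}}`.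
So `JJ ... Δ = ν(Δ)⁻¹ * mulv v {i} * (VL A B (v i))⁻¹`.  `lexp` for `f = phq q φ`, `σ = insertNone Δ`, `z = v i` (`sum_insertNone`, `φ_ω(v_i) = 0` on `Δ`): `VL A B (v i) = LaR none * q(v_i)`.
`zvol2 v f ∅ i ... (Δ.map some) none`: `mulv v {i} * mulv f (insert none (Δ.map some)) = q(v_i) * mulv v ∅ * mulv f (Δ.map some)`, where `insert none (Δ.map some) = insertNone Δ`, `mulv v ∅ = 1` (`mulv_empty`), `mulv f (Δ.map some) = mulv φ Δ` (the same set of vectors; e.g. `Pool.Agent.H56.SMC.znjt_latIndex`, which says that `latIndex` depends only on the range).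
Hence `JJ ... Δ = (mulv f (insertNone Δ))⁻¹ * (LaR none)⁻¹ = LLt Δ Δ` (`Δ \ Δ = ∅`; `mulv_ne`).
-/

set_option autoImplicit false

namespace Pool.Agent.H37.T6

open Finset H60.RegTri
open Pool.Agent.H37.T5

variable {ι κ Ω : Type} [Fintype ι] [DecidableEq ι] [Fintype κ] [DecidableEq κ] [Fintype Ω]
  [DecidableEq Ω] {v : ι → κ → ℤ} {φ : Ω → κ → ℤ} {A B q : κ → ℤ} {s0 : ℂ}
  {g : Option Ω → ℝ} {h : ι → ℝ}

omit [Fintype ι] [DecidableEq ι] [Fintype κ] [DecidableEq κ] [Fintype Ω] [DecidableEq Ω] in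
theorem RBA_single {i : ι} (hi : v i ≠ 0) : LinearIndepOn ℝ (vR v) (({i} : Finset ι) : Set ι) := by
  rw [coe_singleton]
  refine LinearIndepOn.singleton (R := ℝ) (v := vR v) (i := i) ?_
  intro h0
  apply hi
  funext j
  have h1 := congrFun h0 j
  have h2 : ((v i j : ℤ) : ℝ) = 0 := h1
  exact_mod_cast h2

omit [DecidableEq ι] [DecidableEq κ] [DecidableEq Ω] in
theorem RBA_prop (hR : RS v φ A B q g h) {Δ : Finset Ω} (hΔ : Δ ∈ DD φ q g) {i l : ι}
    (hi : i ∈ Gx v φ Δ) (hl : l ∈ Gx v φ Δ) :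
    vR v l = ((pr q (v l) : ℝ) / (pr q (v i) : ℝ)) • vR v i := by
  classical
  have hind : LinearIndepOn ℝ (vR φ) (Δ : Set Ω) := (rint ⟨Δ, hΔ, Subset.refl _⟩).1
  have hcard := (mem_DD.1 hΔ).2
  obtain ⟨β, hβ⟩ := rdim v φ Δ {i} hind (RBA_single (v_ne hR.zt i))
    (by
      intro i' hi' ω hω
      rw [mem_singleton] at hi'
      subst hi'
      exact mem_Gx.1 hi ω hω)
    (by rw [card_singleton]; omega) (vR v l)
    (by
      intro ω hω
      rw [prR_vR, mem_Gx.1 hl ω hω, Int.cast_zero])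
  rw [sum_singleton] at hβ
  have hq : (0 : ℝ) < (pr q (v i) : ℝ) := by exact_mod_cast hR.qpos i
  have h1 : (pr q (v l) : ℝ) = β i * (pr q (v i) : ℝ) := by
    rw [← prR_vR, ← prR_vR]
    conv_lhs => rw [hβ]
    exact ZLOC_prR_smul _ _ _
  rw [h1, mul_div_cancel_right₀ _ hq.ne']
  exact hβ

theorem rba (hR : RS v φ A B q g h) {Δ : Finset Ω} (hΔ : Δ ∈ DD φ q g) :
    JJ v φ A B h univ Δ = LLt φ q A B Δ Δ := by
  classical
  obtain ⟨⟨-, hindN, -⟩, hcard⟩ := mem_DD.1 hΔ
  have hindN' : LinearIndepOn ℝ (vR (phq q φ))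
      ((insertNone Δ : Finset (Option Ω)) : Set (Option Ω)) := hindN
  obtain ⟨i0, hi0⟩ := rray hR hΔ
  have hqR : ∀ i, (0 : ℝ) < (pr q (v i) : ℝ) := fun i => by exact_mod_cast hR.qpos i
  obtain ⟨m, hm, hmax⟩ := exists_max_image (Gx v φ Δ) (fun i => h i / (pr q (v i) : ℝ)) ⟨i0, hi0⟩
  have hgen := hR.hgen univ
  -- the unique maximum
  have hlt : ∀ l ∈ Gx v φ Δ, l ≠ m → h l < (pr q (v l) : ℝ) / (pr q (v m) : ℝ) * h m := by
    intro l hl hlm
    have h1 := hmax l hl
    have h2 := hgen {m} (subset_univ _) (RBA_single (v_ne hR.zt m)) l (mem_univ _)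
      (by rw [mem_singleton]; exact hlm) (fun _ => (pr q (v l) : ℝ) / (pr q (v m) : ℝ))
      (by rw [sum_singleton]; exact RBA_prop hR hΔ hm hl)
    rw [sum_singleton] at h2
    refine lt_of_le_of_ne ?_ h2
    rw [div_le_div_iff₀ (hqR l) (hqR m)] at h1
    rw [div_mul_eq_mul_div, le_div_iff₀ (hqR m)]
    linarith
  have hTC : TC v φ h univ Δ = {{m}} := by
    ext σ
    rw [mem_TC, mem_TT, mem_singleton]
    constructor
    · rintro ⟨⟨⟨hsub, hind, hup⟩, hc⟩, -⟩
      have hc1 : σ.card = 1 := by omega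
      obtain ⟨i, rfl⟩ := card_eq_one.1 hc1
      by_cases him : i = m
      · rw [him]
      · exfalso
        have hi : i ∈ Gx v φ Δ := hsub (mem_singleton_self i)
        have h1 := hup m hm (by rw [mem_singleton]; exact Ne.symm him)
          (fun _ => (pr q (v m) : ℝ) / (pr q (v i) : ℝ))
          (by rw [sum_singleton]; exact RBA_prop hR hΔ hi hm)
        rw [sum_singleton] at h1
        have h2 := hmax i hi
        rw [div_le_div_iff₀ (hqR i) (hqR m)] at h2
        rw [div_mul_eq_mul_div, lt_div_iff₀ (hqR i)] at h1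
        linarith
    · rintro rfl
      refine ⟨⟨⟨?_, RBA_single (v_ne hR.zt m), ?_⟩, ?_⟩, m, mem_singleton_self m, mem_univ m⟩
      · rw [singleton_subset_iff]; exact hm
      · intro l hl hlm β hβ
        rw [mem_singleton] at hlm
        rw [sum_singleton] at hβ ⊢
        have h1 := RBA_prop hR hΔ hm hl
        have hne : vR v m ≠ 0 := by
          intro h0
          apply v_ne hR.zt m
          funext j
          have h2 : ((v m j : ℤ) : ℝ) = 0 := congrFun h0 j
          exact_mod_cast h2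
        have h2 : β m = (pr q (v l) : ℝ) / (pr q (v m) : ℝ) := by
          rw [hβ] at h1
          exact smul_left_injective ℝ hne h1
        rw [h2]
        exact hlt l hl hlm
      · rw [card_singleton]; omega
  -- the value of `VL` at `v m`
  have hcN : (insertNone Δ).card = Fintype.card κ := by rw [card_insertNone]; exact hcard
  have hVL : VL A B (v m) = LaR φ q A B Δ none * (pr q (v m) : RatFunc ℂ) := by
    rw [lexp (phq q φ) (insertNone Δ) hindN' hcN A B (v m), sum_insertNone]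
    have h1 : ∑ x ∈ Δ, (cE (phq q φ) (insertNone Δ) A (some x) +
        cE (phq q φ) (insertNone Δ) B (some x) * RatFunc.X) *
        (pr (phq q φ (some x)) (v m) : RatFunc ℂ) = 0 := by
      refine sum_eq_zero fun ω hω => ?_
      rw [phq_some, mem_Gx.1 hm ω hω, Int.cast_zero, mul_zero]
    rw [h1, add_zero, phq_none]
    rfl
  -- the multiplicities
  have hinsN : insert none (Δ.map Function.Embedding.some) = insertNone Δ := by
    ext o
    cases o with
    | none => simp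
    | some ω => simp
  have hsubN : (((Δ.map Function.Embedding.some : Finset (Option Ω))) : Set (Option Ω)) ⊆
      ((insertNone Δ : Finset (Option Ω)) : Set (Option Ω)) := by
    rw [← hinsN]
    exact_mod_cast subset_insert _ _
  have hz := zvol2 v (phq q φ) ∅ m (notMem_empty m) (Δ.map Function.Embedding.some) none
    (by simp) (by
      rw [insert_empty_eq]
      exact RBA_single (v_ne hR.zt m)) (hindN'.mono hsubN)
    (by
      intro i hi o ho
      rw [insert_empty_eq, mem_singleton] at hi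
      subst hi
      rw [mem_map] at ho
      obtain ⟨ω, hω, rfl⟩ := ho
      exact mem_Gx.1 hm ω hω)
    (by
      rw [insert_empty_eq, card_singleton, card_map]
      omega)
    (by
      intro i hi
      exact absurd hi (notMem_empty i))
    (hR.qpos m)
  rw [hinsN, mulv_empty, insert_empty_eq, phq_none] at hz
  have hmul : mulv (phq q φ) (Δ.map Function.Embedding.some) = mulv φ Δ := by
    have hr : Set.range (fun i : (Δ.map Function.Embedding.some : Finset (Option Ω)) =>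
        phq q φ i) = Set.range (fun i : Δ => φ i) := by
      ext z
      simp only [Set.mem_range]
      constructor
      · rintro ⟨⟨o, ho⟩, rfl⟩
        obtain ⟨ω, hω, rfl⟩ := mem_map.1 ho
        exact ⟨⟨ω, hω⟩, rfl⟩
      · rintro ⟨⟨ω, hω⟩, rfl⟩
        exact ⟨⟨some ω, mem_map.2 ⟨ω, hω, rfl⟩⟩, rfl⟩
    unfold mulv H22.latIndex
    rw [hr]
  rw [hmul] at hz
  have hz2 : (mulv v {m} : RatFunc ℂ) * (mulv (phq q φ) (insertNone Δ) : RatFunc ℂ) =
      (pr q (v m) : RatFunc ℂ) * (mulv φ Δ : RatFunc ℂ) := by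
    have h1 := congrArg (fun z : ℤ => (z : RatFunc ℂ)) hz
    push_cast at h1
    rw [mul_one] at h1
    exact h1
  have hF : (mulv (phq q φ) (insertNone Δ) : RatFunc ℂ) ≠ 0 :=
    Nat.cast_ne_zero.2 (mulv_ne _ _)
  have hN : (mulv φ Δ : RatFunc ℂ) ≠ 0 := Nat.cast_ne_zero.2 (mulv_ne _ _)
  have hQ : (pr q (v m) : RatFunc ℂ) ≠ 0 := Int.cast_ne_zero.2 (hR.qpos m).ne'
  have hsd : Δ \ Δ = ∅ := Finset.sdiff_self Δ
  unfold JJ LLt tmv
  rw [hTC, sum_singleton, prod_singleton, hsd, prod_empty, mul_one, hVL, mul_inv,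
    eq_div_of_mul_eq hF hz2]
  obtain ⟨N, hN'⟩ : ∃ N, N = (mulv φ Δ : RatFunc ℂ) := ⟨_, rfl⟩
  obtain ⟨F, hF'⟩ : ∃ F, F = (mulv (phq q φ) (insertNone Δ) : RatFunc ℂ) := ⟨_, rfl⟩
  obtain ⟨Q, hQ'⟩ : ∃ Q, Q = (pr q (v m) : RatFunc ℂ) := ⟨_, rfl⟩
  rw [← hN'] at hN ⊢
  rw [← hF'] at hF ⊢
  rw [← hQ'] at hQ ⊢
  calc N⁻¹ * (Q * N / F * ((LaR φ q A B Δ none)⁻¹ * Q⁻¹))
      = (N⁻¹ * N) * (Q * Q⁻¹) * (F⁻¹ * (LaR φ q A B Δ none)⁻¹) := by ring
    _ = F⁻¹ * (LaR φ q A B Δ none)⁻¹ := by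
      rw [inv_mul_cancel₀ hN, mul_inv_cancel₀ hQ, one_mul, one_mul]

end Pool.Agent.H37.T6
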