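import Pool.Agent.H37.T6.RCOV

/-!
# RRAY: every maximal simplex lies in a facet

`ZLOC_surj` gives `y : κ → ℝ` with `q(y) = 1` and `φ_ω(y) = 0` for `ω ∈ Δ` (`insertNone Δ` is independent, `mem_DD`).  Claim: `φ_u(y) ≥ 0` for all `u`.  For `u ∈ Δ` clear.  Let `u ∉ Δ`, `vR φ u = γ none • q + ∑_{ω∈Δ} γ (some ω) • vR φ ω` (`rspan`, `sum_insertNone`), `c := γ none = φ_u(y)`; suppose `c < 0`.
Upperness (`mem_DD`, `l = some u`): `g (some u) < c g none + ∑_Δ γ_ω g (some ω)`.  On the other hand `q = (1/c) vR φ u - ∑_Δ (γ_ω/c) vR φ ω`, a combination of `σ = (insert u Δ).map some`, `none ∉ σ`, and `σ` is independent (a relation of `insert u Δ`: the coefficient of `u` is `0` by pairing with `y` (value `c ≠ 0` at `u`, `0` on `Δ`), the others by the independence of `Δ`):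
`hR.gtop`: `(1/c) g (some u) - ∑_Δ (γ_ω/c) g (some ω) < g none`; multiplying by `c < 0`: `g (some u) - ∑ γ_ω g (some ω) > c g none`: contradiction.
So `y` is in the cone; `tcone` (TDefs) with `Ξ = Δ`: `y = ∑ x_i v_i`, `x_i = 0` outside `Gx v φ Δ`; `y ≠ 0` (`q(y) = 1`), so some `i ∈ Gx v φ Δ`.
-/

set_option autoImplicit false

namespace Pool.Agent.H37.T6

open Finset H60.RegTri
open Pool.Agent.H37.T5

variable {ι κ Ω : Type} [Fintype ι] [DecidableEq ι] [Fintype κ] [DecidableEq κ] [Fintype Ω]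
  [DecidableEq Ω] {v : ι → κ → ℤ} {φ : Ω → κ → ℤ} {A B q : κ → ℤ} {s0 : ℂ}
  {g : Option Ω → ℝ} {h : ι → ℝ}

omit [Fintype Ω] [DecidableEq κ] [DecidableEq Ω] in
theorem RRAY_pair (f : Ω → κ → ℤ) (σ : Finset Ω) (c : Ω → ℝ) (y : κ → ℝ) :
    ∑ j, (∑ o ∈ σ, c o • vR f o) j * y j = ∑ o ∈ σ, c o * prR (f o) y := by
  simp only [Finset.sum_apply, Pi.smul_apply, smul_eq_mul, sum_mul]
  rw [sum_comm]
  refine sum_congr rfl fun o _ => ?_
  rw [prR, mul_sum]
  refine sum_congr rfl fun j _ => ?_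
  rw [mul_assoc]
  rfl

omit [Fintype Ω] [DecidableEq κ] in
theorem RRAY_sum {M : Type} [AddCommMonoid M] {Δ : Finset Ω} {u : Ω} (hu : u ∉ Δ)
    (F : Option Ω → M) : ∑ o ∈ (insert u Δ).map Function.Embedding.some, F o =
      F (some u) + ∑ ω ∈ Δ, F (some ω) := by
  rw [sum_map, sum_insert hu]
  rfl

omit [DecidableEq ι] [DecidableEq κ] in
theorem rray (hR : RS v φ A B q g h) {Δ : Finset Ω} (hΔ : Δ ∈ DD φ q g) :
    ∃ i, i ∈ Gx v φ Δ := by
  classical
  obtain ⟨-, hind, hup'⟩ := (mem_DD.1 hΔ).1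
  obtain ⟨y, hy⟩ := ZLOC_surj (fun t : (insertNone Δ : Finset (Option Ω)) => vR (phq q φ) (t : Option Ω)) hind
    (fun t => if (t : Option Ω) = none then 1 else 0)
  have hyq : prR q y = 1 := by
    have h1 := hy ⟨none, none_mem_insertNone⟩
    rw [if_pos rfl] at h1
    exact h1
  have hyΔ : ∀ ω ∈ Δ, prR (φ ω) y = 0 := by
    intro ω hω
    have h1 := hy ⟨some ω, by rw [some_mem_insertNone]; exact hω⟩
    rw [if_neg (by simp)] at h1
    exact h1
  have hindΔ : LinearIndepOn ℝ (vR φ) (Δ : Set Ω) := (rint ⟨Δ, hΔ, Subset.refl _⟩).1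
  have hpos : ∀ u, 0 ≤ prR (φ u) y := by
    intro u
    by_cases huΔ : u ∈ Δ
    · rw [hyΔ u huΔ]
    by_contra hneg
    push Not at hneg
    obtain ⟨γ, hγ⟩ := rspan hΔ (vR φ u)
    have hc : prR (φ u) y = γ none := by
      have h1 : prR (φ u) y = ∑ j, (vR φ u) j * y j := rfl
      rw [h1, hγ, RRAY_pair, sum_insertNone]
      have h2 : ∑ x ∈ Δ, γ (some x) * prR (phq q φ (some x)) y = 0 :=
        sum_eq_zero fun x hx => by rw [phq_some, hyΔ x hx, mul_zero]
      rw [h2, phq_none, hyq]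
      ring
    rw [hc] at hneg
    have hcne : γ none ≠ 0 := hneg.ne
    have hun : some u ∉ insertNone Δ := by rw [some_mem_insertNone]; exact huΔ
    have h1 := hup' (some u) (mem_univ _) hun γ hγ
    rw [sum_insertNone] at h1
    rw [sum_insertNone] at hγ
    have hγ' : vR φ u = γ none • vR (phq q φ) none + ∑ ω ∈ Δ, γ (some ω) • vR φ ω := hγ
    -- the combination
    have hnone : none ∉ (insert u Δ).map Function.Embedding.some := by
      simp
    have hne : ∀ ω ∈ Δ, ω ≠ u := fun ω hω h => huΔ (h ▸ hω)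
    have hindσ : LinearIndepOn ℝ (vR (phq q φ))
        (((insert u Δ).map Function.Embedding.some : Finset (Option Ω)) : Set (Option Ω)) := by
      rw [linearIndepOn_finset_iff]
      intro d hd
      rw [RRAY_sum huΔ] at hd
      have hd' : d (some u) • vR φ u + ∑ ω ∈ Δ, d (some ω) • vR φ ω = 0 := hd
      have hdu : d (some u) = 0 := by
        have h2 : ∑ j, (d (some u) • vR φ u + ∑ ω ∈ Δ, d (some ω) • vR φ ω) j * y j = 0 := by
          rw [hd']; simp
        simp only [Pi.add_apply, add_mul, sum_add_distrib] at h2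
        rw [RRAY_pair] at h2
        have h3 : ∑ j, (d (some u) • vR φ u) j * y j = d (some u) * γ none := by
          rw [← hc, prR, mul_sum]
          refine sum_congr rfl fun j _ => ?_
          rw [Pi.smul_apply, smul_eq_mul, mul_assoc]
          rfl
        have h4 : ∑ ω ∈ Δ, d (some ω) * prR (φ ω) y = 0 :=
          sum_eq_zero fun x hx => by rw [hyΔ x hx, mul_zero]
        rw [h3, h4, add_zero] at h2
        exact (mul_eq_zero.1 h2).resolve_right hcne
      rw [hdu, zero_smul, zero_add] at hd'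
      have h5 := (linearIndepOn_finset_iff.1 hindΔ) (fun ω => d (some ω)) hd'
      intro o ho
      rw [mem_map] at ho
      obtain ⟨ω, hω, rfl⟩ := ho
      rcases mem_insert.1 hω with h6 | h6
      · rw [h6]; exact hdu
      · exact h5 ω h6
    have hcomb : vR (phq q φ) none =
        ∑ o ∈ (insert u Δ).map Function.Embedding.some,
          (o.elim 0 (fun ω => if ω = u then 1 / γ none else -(γ (some ω) / γ none)) : ℝ) •
            vR (phq q φ) o := by
      rw [RRAY_sum huΔ]
      simp only [Option.elim_some, if_true]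
      have h2 : ∑ ω ∈ Δ, (if ω = u then 1 / γ none else -(γ (some ω) / γ none)) •
          vR (phq q φ) (some ω) = -((1 / γ none) • ∑ ω ∈ Δ, γ (some ω) • vR φ ω) := by
        rw [smul_sum, ← sum_neg_distrib]
        refine sum_congr rfl fun ω hω => ?_
        rw [if_neg (hne ω hω), smul_smul, ← neg_smul]
        congr 1
        ring
      rw [h2]
      have h3 : vR (phq q φ) (some u) = vR φ u := rfl
      rw [h3, hγ', smul_add, smul_smul, one_div, inv_mul_cancel₀ hcne, one_smul]
      abel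
    have h2 := hR.gtop _ hnone hindσ _ hcomb
    rw [RRAY_sum huΔ] at h2
    simp only [Option.elim_some, if_true] at h2
    have h3 : ∑ ω ∈ Δ, (if ω = u then 1 / γ none else -(γ (some ω) / γ none)) * g (some ω) =
        -((1 / γ none) * ∑ ω ∈ Δ, γ (some ω) * g (some ω)) := by
      rw [mul_sum, ← sum_neg_distrib]
      refine sum_congr rfl fun ω hω => ?_
      rw [if_neg (hne ω hω)]
      ring
    rw [h3] at h2
    have h4 := mul_lt_mul_of_neg_left h2 hneg
    have h5 : γ none * (1 / γ none * g (some u) +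
        -((1 / γ none) * ∑ ω ∈ Δ, γ (some ω) * g (some ω))) =
        g (some u) - ∑ ω ∈ Δ, γ (some ω) * g (some ω) := by
      field_simp
      ring
    rw [h5] at h4
    linarith
  obtain ⟨x, hx, hx0, hxy⟩ := tcone hR.zt Δ y hpos hyΔ
  by_contra hno
  push Not at hno
  have hy0 : y = 0 := by
    rw [hxy]
    exact sum_eq_zero fun i _ => by rw [hx0 i (hno i), zero_smul]
  rw [hy0] at hyq
  simp [prR] at hyq

end Pool.Agent.H37.T6
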