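import Pool.Agent.H37.T6.RPM
import Pool.Agent.H37.T6.RRAY
import Pool.Agent.H37.T6.LDV

/-!
# RLS: the family `DD` satisfies `LS`

`card`, `ind`: `mem_DD`.  `wall`: `rpm`.  Let `i` be from `rray`: `φ_ω(v_i) = 0` for `ω ∈ Δ`.
`lnz`: `lexp` for `f = phq q φ`, `σ = insertNone Δ`, `z = v i` (`sum_insertNone`): `VL A B (v i) = LaR none * q(v_i)`, and `VL A B (v i) ≠ 0` (`VL_neT`): `LaR none ≠ 0`.  For `ω ∈ Δ`: `Ξ = Δ.erase ω` is independent (`rint`), `Ξ.card + 2 = card κ`, `z = v i` satisfies the hypothesis of `hQ.na`: there is `z` with `φ_Ξ(z) = 0`, `q(z) = 0`, `VL A B z ≠ 0`; `lexp`: `VL A B z = LaR (some ω) * φ_ω(z)`, so `LaR (some ω) ≠ 0`.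
`lnc`: `lexpC` with `z = v i`: the value of `V(v_i)` at `s0` is `laC none * q(v_i) ≠ 0`, so `¬ IsCr A B s0 (v i)`; `hQ.nb` for `Ξ = Δ.erase ω`; `lexpC` again: `laC (some ω) * φ_ω(z) ≠ 0`.
-/

set_option autoImplicit false

namespace Pool.Agent.H37.T6

open Finset H60.RegTri
open Pool.Agent.H37.T5

variable {ι κ Ω : Type} [Fintype ι] [DecidableEq ι] [Fintype κ] [DecidableEq κ] [Fintype Ω]
  [DecidableEq Ω] {v : ι → κ → ℤ} {φ : Ω → κ → ℤ} {A B q : κ → ℤ} {s0 : ℂ}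
  {g : Option Ω → ℝ} {h : ι → ℝ}

omit [DecidableEq κ] in
theorem RLS_one {Δ : Finset Ω} (hΔ : Δ ∈ DD φ q g) (A B z : κ → ℤ) (s0 : ℂ) {o0 : Option Ω}
    (ho : o0 ∈ insertNone Δ) (hz : ∀ o ∈ insertNone Δ, o ≠ o0 → pr (phq q φ o) z = 0) :
    VL A B z = LaR φ q A B Δ o0 * (pr (phq q φ o0) z : RatFunc ℂ) ∧
      (pr A z : ℂ) + (pr B z : ℂ) * s0 = laC φ q A B s0 Δ o0 * (pr (phq q φ o0) z : ℂ) := by
  obtain ⟨⟨-, hind, -⟩, hc⟩ := mem_DD.1 hΔ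
  have hcard : (insertNone Δ).card = Fintype.card κ := by rw [card_insertNone, hc]
  constructor
  · rw [lexp (phq q φ) (insertNone Δ) hind hcard A B z, sum_eq_single o0]
    · rfl
    · intro i hi hne
      rw [hz i hi hne, Int.cast_zero, mul_zero]
    · intro h
      exact absurd ho h
  · rw [lexpC (phq q φ) (insertNone Δ) hind hcard A B z s0, sum_eq_single o0]
    · rfl
    · intro i hi hne
      rw [hz i hi hne, Int.cast_zero, mul_zero]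
    · intro h
      exact absurd ho h

omit [DecidableEq κ] in
theorem RLS_er {Δ : Finset Ω} (hΔ : Δ ∈ DD φ q g) {ω : Ω} (hω : ω ∈ Δ) :
    LinearIndepOn ℝ (vR φ) ((Δ.erase ω : Finset Ω) : Set Ω) ∧
      (Δ.erase ω).card + 2 = Fintype.card κ := by
  refine ⟨(rint ⟨Δ, hΔ, erase_subset ω Δ⟩).1, ?_⟩
  have h1 := (mem_DD.1 hΔ).2
  have h2 := card_erase_add_one hω
  omega

theorem rls (hR : RS v φ A B q g h) (hQ : QG v φ A B s0 q) : LS φ q A B s0 (DD φ q g) := by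
  have hray : ∀ Δ ∈ DD φ q g, ∃ i, (∀ ω ∈ Δ, pr (φ ω) (v i) = 0) ∧
      VL A B (v i) = LaR φ q A B Δ none * (pr q (v i) : RatFunc ℂ) ∧
      (pr A (v i) : ℂ) + (pr B (v i) : ℂ) * s0 = laC φ q A B s0 Δ none * (pr q (v i) : ℂ) := by
    intro Δ hΔ
    obtain ⟨i, hi⟩ := rray hR hΔ
    have h0 : ∀ ω ∈ Δ, pr (φ ω) (v i) = 0 := mem_Gx.1 hi
    refine ⟨i, h0, RLS_one hΔ A B (v i) s0 none_mem_insertNone ?_⟩
    intro o ho hne
    cases o with
    | none => exact absurd rfl hne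
    | some ω => exact h0 ω (by rwa [some_mem_insertNone] at ho)
  have hone : ∀ Δ ∈ DD φ q g, ∀ ω ∈ Δ, ∀ z : κ → ℤ, (∀ ω' ∈ Δ.erase ω, pr (φ ω') z = 0) →
      pr q z = 0 →
      VL A B z = LaR φ q A B Δ (some ω) * (pr (φ ω) z : RatFunc ℂ) ∧
      (pr A z : ℂ) + (pr B z : ℂ) * s0 = laC φ q A B s0 Δ (some ω) * (pr (φ ω) z : ℂ) := by
    intro Δ hΔ ω hω z hz hq
    refine RLS_one hΔ A B z s0 (by rw [some_mem_insertNone]; exact hω) ?_
    intro o ho hne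
    cases o with
    | none => exact hq
    | some ω' =>
      refine hz ω' (mem_erase.2 ⟨fun h => hne (by rw [h]), ?_⟩)
      rwa [some_mem_insertNone] at ho
  refine ⟨?_, ?_, ?_, ?_, ?_⟩
  · exact fun Δ hΔ => (mem_DD.1 hΔ).2
  · exact fun Δ hΔ => (mem_DD.1 hΔ).1.2.1
  · exact fun Δ hΔ ω hω => rpm hR hΔ hω
  · intro Δ hΔ
    obtain ⟨i, h0, hV, -⟩ := hray Δ hΔ
    refine ⟨fun h => ?_, fun ω hω h => ?_⟩
    · rw [h, zero_mul] at hV
      exact VL_neT hR.zt i hV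
    · obtain ⟨hi, hc⟩ := RLS_er hΔ hω
      obtain ⟨z, hz, hq, hn⟩ := hQ.na (Δ.erase ω) hi hc
        ⟨v i, fun ω' hω' => h0 ω' (mem_of_mem_erase hω'), VL_neT hR.zt i⟩
      have h1 := (hone Δ hΔ ω hω z hz hq).1
      rw [h, zero_mul] at h1
      exact hn h1
  · intro Δ hΔ hne ω hω h
    obtain ⟨i, h0, -, hV⟩ := hray Δ hΔ
    obtain ⟨hi, hc⟩ := RLS_er hΔ hω
    have hncr : ¬ IsCr A B s0 (v i) := by
      intro hcr
      unfold IsCr at hcr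
      rw [hV] at hcr
      have hq := hR.qpos i
      rcases mul_eq_zero.1 hcr with h1 | h1
      · exact hne h1
      · exact hq.ne' (by exact_mod_cast h1)
    obtain ⟨z, hz, hq, hn⟩ := hQ.nb (Δ.erase ω) hi hc
      ⟨v i, fun ω' hω' => h0 ω' (mem_of_mem_erase hω'), hncr⟩
    have h1 := (hone Δ hΔ ω hω z hz hq).2
    rw [h, zero_mul] at h1
    exact hn h1

end Pool.Agent.H37.T6
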