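import Pool.Agent.H37.T6.RREL
import Pool.Agent.H37.T6.RBA
import Pool.Agent.H37.T6.RLS
import Pool.Agent.H37.T6.LREL

/-!
# RJL: the sums over rays are the sums over simplices

`D = DD φ q g`, `hL = rls hR hQ`.  Strong induction on `card κ - Ξ.card` for all `Ξ` with `InT φ q g Ξ`; `Δ ∈ D`, `Ξ ⊆ Δ`, `Δ.card + 1 = card κ`.
If `Ξ.card + 1 = card κ`: `Ξ = Δ`, `Δ` is the only element of `D` containing `Δ` (cardinality), `LLs D Δ = LLt Δ Δ`: `rba`.
If `Ξ.card + 2 ≤ card κ`: choose `ω0 ∈ Δ`, `ω0 ∉ Ξ`, and `z` from `ldv` for `f = phq q φ`, `σ = insertNone Δ`, `b = some ω0`: `φ_ω0(z) > 0`, `q(z) = 0`, `φ_ω(z) = 0` on `Ξ`.  `lexp`: `VL A B z = LaR Δ (some ω0) * φ_ω0(z) ≠ 0` (`hL.lnz`).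
`rrel`: `VL z * JJ Ξ = ∑_{ω ∉ Ξ, InT (insert ω Ξ)} φ_ω(z) JJ (insert ω Ξ) = ∑_{ω ∉ Ξ, InT} φ_ω(z) LLs D (insert ω Ξ)` by induction `= ∑_{ω ∉ Ξ} φ_ω(z) LLs D (insert ω Ξ)` (if not `InT (insert ω Ξ)` then `LLs` is an empty sum) `= VL z * LLs D Ξ` by `lrel` with `D' = D` (`q(z) = 0`).  Cancel `VL z`.
-/

set_option autoImplicit false

namespace Pool.Agent.H37.T6

open Finset H60.RegTri
open Pool.Agent.H37.T5

variable {ι κ Ω : Type} [Fintype ι] [DecidableEq ι] [Fintype κ] [DecidableEq κ] [Fintype Ω]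
  [DecidableEq Ω] {v : ι → κ → ℤ} {φ : Ω → κ → ℤ} {A B q : κ → ℤ} {s0 : ℂ}
  {g : Option Ω → ℝ} {h : ι → ℝ}

theorem rjl (hR : RS v φ A B q g h) (hQ : QG v φ A B s0 q) (Ξ : Finset Ω)
    (hΞ : InT φ q g Ξ) : JJ v φ A B h univ Ξ = LLs φ q A B (DD φ q g) Ξ := by
  classical
  have hL := rls hR hQ
  generalize hn : Fintype.card κ - Ξ.card = n
  induction n using Nat.strong_induction_on generalizing Ξ with
  | _ n ih =>
    obtain ⟨Δ, hΔ, hsub⟩ := hΞ
    have hcΔ := hL.card Δ hΔ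
    rcases Nat.lt_or_ge Ξ.card Δ.card with h3 | h3
    · obtain ⟨ω0, hω0, hω0n⟩ := exists_mem_notMem_of_card_lt_card h3
      have hω0' : some ω0 ∈ insertNone Δ := by rw [some_mem_insertNone]; exact hω0
      obtain ⟨z, hz1, hz2⟩ := ldv (phq q φ) (insertNone Δ) (hL.ind Δ hΔ) (some ω0) hω0'
      have hq : pr q z = 0 := hz2 none (none_mem_insertNone) (fun h => by cases h)
      have hzΞ : ∀ ω ∈ Ξ, pr (φ ω) z = 0 := fun ω hω =>
        hz2 (some ω) (by rw [some_mem_insertNone]; exact hsub hω)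
          (fun h => hω0n (by rw [← Option.some_inj.1 h]; exact hω))
      have hV : VL A B z = LaR φ q A B Δ (some ω0) * (pr (φ ω0) z : RatFunc ℂ) := by
        rw [lexp (phq q φ) (insertNone Δ) (hL.ind Δ hΔ) (by rw [card_insertNone, hcΔ]) A B z]
        rw [sum_eq_single (some ω0)]
        · rfl
        · intro i hi hne
          rw [hz2 i hi hne, Int.cast_zero, mul_zero]
        · intro h
          exact absurd hω0' h
      have hz1' : 0 < pr (φ ω0) z := hz1
      have hV0 : VL A B z ≠ 0 := by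
        rw [hV]
        refine mul_ne_zero ((hL.lnz Δ hΔ).2 ω0 hω0) ?_
        exact_mod_cast hz1'.ne'
      have h1 := rrel hR Ξ ⟨Δ, hΔ, hsub⟩ (by omega) z hzΞ
      have h2 := lrel hL (DD φ q g) (Subset.refl _) Ξ z hzΞ
      rw [hq, Int.cast_zero, zero_mul, add_zero] at h2
      have h4 : ∑ ω ∈ (univ \ Ξ).filter (fun ω => InT φ q g (insert ω Ξ)),
          (pr (φ ω) z : RatFunc ℂ) * JJ v φ A B h univ (insert ω Ξ) =
          ∑ ω ∈ univ \ Ξ, (pr (φ ω) z : RatFunc ℂ) * LLs φ q A B (DD φ q g) (insert ω Ξ) := by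
        rw [sum_filter]
        refine sum_congr rfl fun ω hω => ?_
        have hωn : ω ∉ Ξ := (mem_sdiff.1 hω).2
        have hc1 : (insert ω Ξ).card = Ξ.card + 1 := card_insert_of_notMem hωn
        by_cases hI : InT φ q g (insert ω Ξ)
        · rw [if_pos hI, ih (Fintype.card κ - (insert ω Ξ).card) (by omega) (insert ω Ξ) hI rfl]
        · rw [if_neg hI]
          have h5 : LLs φ q A B (DD φ q g) (insert ω Ξ) = 0 := by
            unfold LLs
            have h6 : (DD φ q g).filter (fun Δ => insert ω Ξ ⊆ Δ) = ∅ := by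
              rw [filter_eq_empty_iff]
              exact fun Δ' hΔ' h7 => hI ⟨Δ', hΔ', h7⟩
            rw [h6, sum_empty]
          rw [h5, mul_zero]
      rw [h4, ← h2] at h1
      exact mul_left_cancel₀ hV0 h1
    · have he : Ξ = Δ := eq_of_subset_of_card_le hsub h3
      subst he
      rw [rba hR hΔ]
      unfold LLs
      have h4 : (DD φ q g).filter (fun Δ' => Ξ ⊆ Δ') = {Ξ} := by
        ext Δ'
        rw [mem_filter, mem_singleton]
        constructor
        · rintro ⟨h5, h6⟩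
          have h7 := hL.card Δ' h5
          exact (eq_of_subset_of_card_le h6 (by omega)).symm
        · rintro rfl
          exact ⟨hΔ, Subset.refl _⟩
      rw [h4, sum_singleton]

end Pool.Agent.H37.T6
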