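import Pool.Agent.H37.T6.CUF
import Pool.Agent.H37.T6.CNV
import Pool.Agent.H37.T6.CJF
import Pool.Agent.H37.T6.RJL

/-!
# CSA: the sum over the faces of a given rank

`g' i = g (some (inl i))`, `D = DD (pf a) q g`, `ν T = mulv (pf a) (inB T)`, `m = n + 1`.
(1) For `T` nonempty with `T.card ≤ n` and `τ` a face with `T ∈ UF a g' τ`: `∑_{σ ∈ TT (inB T)} tmv σ = ν T * LLs D (inB T)`.  If `TT (inB T) ≠ ∅`: `InT (inB T)` by `cuf_c`; `rjl`: `JJ ... univ (inB T) = LLs D (inB T)`, and `JJ = (ν T)⁻¹ * ∑_{σ ∈ TC univ} tmv σ`, `TC univ (inB T) = TT (inB T)` since `σ.card = n + 1 - T.card ≥ 1`; `mulv_ne`.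
If `TT (inB T) = ∅` the left side is `0`; if `InT (inB T)` then `LLs D (inB T) = JJ = 0` (`rjl`), otherwise `LLs D (inB T)` is an empty sum.
(2) For `τ` with `IsFace a τ`, `faceRank a τ = d` (so `τ` nonempty): `nvol (𝒯 τ) * JfunG a τ (𝒟 τ) = ∑_{T ∈ UF a g' τ} ν T * JfunG a τ (𝒟 τ)` (`cnv`, `cuf_gen`) `= ∑_{T ∈ UF a g' τ} ν T * (ν T * LLs D (inB T))` (`cjf`, (1); `T.card = d`).
(3) Sum over `τ`: the sets `UF a g' τ` are disjoint for different faces (`cuf_b`; `T.card = d ≥ 1`), so the sum is over the `T` with `T.card = d` which lie in some `UF a g' τ`, `τ` a face with `faceRank a τ = d`.  A `T` with `T.card = d` and `LLs D (inB T) ≠ 0`: then `InT (inB T)` (otherwise the sum is empty) and `TT (inB T) ≠ ∅` (otherwise `LLs D (inB T) = JJ = 0`), and `cuf_a` gives the face.  So the sum may be extended to all `T` with `T.card = d`.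
-/

set_option autoImplicit false

namespace Pool.Agent.H37.T6

open Finset H60.RegTri
open Pool.Agent.H37.T5
open Pool.Agent.H56.SMC

variable {n r : ℕ} {a : Fin r → (Fin n →₀ ℕ)} {R : Finset (Fin n → ℕ)} {s0 : ℂ}
  {q : Unit ⊕ Fin n → ℤ} {g : Option (Fin r ⊕ Fin n) → ℝ} {h : Option R → ℝ}

theorem CSA_card (n : ℕ) : Fintype.card (Unit ⊕ Fin n) = n + 1 := by
  rw [Fintype.card_sum, Fintype.card_unit, Fintype.card_fin, add_comm]

theorem CSA_cardB {n r : ℕ} (T : Finset (Fin r)) :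
    (inB T : Finset (Fin r ⊕ Fin n)).card = T.card := card_map _

theorem CSA_sumTT (a : Fin r → (Fin n →₀ ℕ)) (R : Finset (Fin n → ℕ)) (h : Option R → ℝ)
    (T : Finset (Fin r)) (hT : T.card ≤ n) :
    ∑ σ ∈ TT (vv a R) (pf a) h (inB T), tmv AA BB (vv a R) σ =
      (mulv (pf a) (inB T) : RatFunc ℂ) * JJ (vv a R) (pf a) AA BB h univ (inB T) := by
  have hm : (mulv (pf a) (inB T) : RatFunc ℂ) ≠ 0 := Nat.cast_ne_zero.mpr (mulv_ne (pf a) _)
  unfold JJ
  rw [← mul_assoc, mul_inv_cancel₀ hm, one_mul]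
  refine sum_congr ?_ fun _ _ => rfl
  ext σ
  rw [mem_TC]
  constructor
  · intro hσ
    have h1 := (mem_TT.1 hσ).2
    rw [CSA_card, CSA_cardB] at h1
    have h2 : 0 < σ.card := by omega
    obtain ⟨c, hc⟩ := card_pos.1 h2
    exact ⟨hσ, c, hc, mem_univ _⟩
  · exact fun hσ => hσ.1

theorem CSA_zero (hC : CS a R s0 q g h) (T : Finset (Fin r)) (hT : T.card ≤ n)
    (hne : LLs (pf a) q AA BB (DD (pf a) q g) (inB T) ≠ 0) :
    InT (pf a) q g (inB T) ∧ (TT (vv a R) (pf a) h (inB T)).Nonempty := by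
  classical
  have hI : InT (pf a) q g (inB T) := by
    by_contra hcon
    apply hne
    unfold LLs
    have h6 : (DD (pf a) q g).filter (fun Δ => inB T ⊆ Δ) = ∅ := by
      rw [filter_eq_empty_iff]
      exact fun Δ' hΔ' h7 => hcon ⟨Δ', hΔ', h7⟩
    rw [h6, sum_empty]
  refine ⟨hI, ?_⟩
  by_contra hcon
  rw [not_nonempty_iff_eq_empty] at hcon
  apply hne
  rw [← rjl hC.rs hC.qg (inB T) hI]
  have h1 := CSA_sumTT a R h T hT
  rw [hcon, sum_empty] at h1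
  have hm : (mulv (pf a) (inB T) : RatFunc ℂ) ≠ 0 := Nat.cast_ne_zero.mpr (mulv_ne (pf a) _)
  exact (mul_eq_zero.1 h1.symm).resolve_left hm

theorem CSA_one (hC : CS a R s0 q g h) (τ : Finset (Fin r)) (hτ : H22.IsFace a τ)
    (T : Finset (Fin r)) (hTne : T.Nonempty) (hT : T.card ≤ n)
    (h1 : T ∈ UF a (fun i => g (some (Sum.inl i))) τ) :
    ∑ σ ∈ TT (vv a R) (pf a) h (inB T), tmv AA BB (vv a R) σ =
      (mulv (pf a) (inB T) : RatFunc ℂ) * LLs (pf a) q AA BB (DD (pf a) q g) (inB T) := by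
  rcases (TT (vv a R) (pf a) h (inB T)).eq_empty_or_nonempty with h2 | h2
  · by_cases h3 : LLs (pf a) q AA BB (DD (pf a) q g) (inB T) = 0
    · rw [h3, mul_zero, h2, sum_empty]
    · exact absurd h2 (CSA_zero hC T hT h3).2.ne_empty
  · rw [CSA_sumTT a R h T hT, rjl hC.rs hC.qg (inB T) (cuf_c hC τ hτ T hTne hT h1 h2)]

theorem csa (hC : CS a R s0 q g h) (𝒟 : ∀ τ, H22.FaceCones a τ) (𝒯 : ∀ τ, H22.FaceTriang a τ)
    (F : Finset (Finset (Fin r))) (d : ℕ) (hd : 1 ≤ d) (hdn : d ≤ n)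
    (hF : ∀ τ, τ ∈ F ↔ H22.IsFace a τ ∧ H22.faceRank a τ = d) :
    ∑ τ ∈ F, (H22.nvol (𝒯 τ) : RatFunc ℂ) * H22.JfunG a τ (𝒟 τ) =
      ∑ T ∈ univ.filter (fun T : Finset (Fin r) => T.card = d),
        (((mulv (pf a) (inB T)) ^ 2 : ℕ) : RatFunc ℂ) *
          LLs (pf a) q AA BB (DD (pf a) q g) (inB T) := by
  classical
  have hUFd : ∀ τ ∈ F, ∀ T ∈ UF a (fun i => g (some (Sum.inl i))) τ, T.card = d := by
    intro τ hτ T hT
    rw [(mem_UF.1 hT).2, ((hF τ).1 hτ).2]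
  have hne : ∀ T : Finset (Fin r), T.card = d → T.Nonempty := by
    intro T hT
    rw [← card_pos]
    omega
  have h2 : ∀ τ ∈ F, (H22.nvol (𝒯 τ) : RatFunc ℂ) * H22.JfunG a τ (𝒟 τ) =
      ∑ T ∈ UF a (fun i => g (some (Sum.inl i))) τ, (((mulv (pf a) (inB T)) ^ 2 : ℕ) : RatFunc ℂ) *
          LLs (pf a) q AA BB (DD (pf a) q g) (inB T) := by
    intro τ hτ
    obtain ⟨hface, hrk⟩ := (hF τ).1 hτ
    have hτne : τ.Nonempty := by
      rw [nonempty_iff_ne_empty]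
      rintro rfl
      have h3 : H22.faceRank a ∅ = 0 := by
        unfold H22.faceRank
        rw [coe_empty, Set.image_empty, Submodule.span_empty, finrank_bot]
      omega
    rw [cnv a (fun i => g (some (Sum.inl i))) (cuf_gen hC) τ hτne (𝒯 τ), Nat.cast_sum, sum_mul]
    refine sum_congr rfl fun T hT => ?_
    obtain ⟨hup, hc⟩ := mem_UF.1 hT
    rw [cjf hC τ hface hτne T hup.1 hup.2.1 hc (𝒟 τ),
      CSA_one hC τ hface T (hne T (hUFd τ hτ T hT)) (by rw [hUFd τ hτ T hT]; exact hdn) hT,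
      Nat.cast_pow, pow_two, mul_assoc]
  rw [sum_congr rfl h2, ← sum_biUnion]
  · apply sum_subset
    · intro T hT
      obtain ⟨τ, hτ, hT'⟩ := mem_biUnion.1 hT
      exact mem_filter.2 ⟨mem_univ _, hUFd τ hτ T hT'⟩
    · intro T hT hT2
      have hTd : T.card = d := (mem_filter.1 hT).2
      by_cases h3 : LLs (pf a) q AA BB (DD (pf a) q g) (inB T) = 0
      · rw [h3, mul_zero]
      · exfalso
        obtain ⟨hI, hN⟩ := CSA_zero hC T (by omega) h3
        obtain ⟨τ, hτ, hrk, hmem⟩ := cuf_a hC T (hne T hTd) hI hN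
        exact hT2 (mem_biUnion.2 ⟨τ, (hF τ).2 ⟨hτ, hrk.trans hTd⟩, hmem⟩)
  · intro τ hτ τ' hτ' hne'
    rw [Function.onFun, disjoint_left]
    intro T hT hT'
    exact hne' (cuf_b (fun i => g (some (Sum.inl i))) τ τ' ((hF τ).1 hτ).1 ((hF τ').1 hτ').1 T
      (hne T (hUFd τ hτ T hT)) hT hT')

end Pool.Agent.H37.T6
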