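import Pool.Agent.H37.T6.TDefs
import Pool.Agent.H37.T5.ZGN

/-!
# CZT: the concrete setting satisfies `ZT`

`ne`: as in `zzs` (T5, file ZZS): `pr AA (lf a w) = wsum w ≠ 0` (`w ≠ 0` by `hR.facet`), `pr BB rho = -1`.  `nn`: `pf_inl_lf` (`N(w)` is a lower bound), `pf_inr`, `lf`, `rho`.
`gen`: `zgn` (T5, file ZGN): the functionals `ph a ω` are among the `pf a ω` (`ph a (inl i) = pf a (inl i.1)`, `ph a (inr j) = pf a (inr j)`).
`sp`: `pfR_inr`: all `y (inr j) = 0`; `pfR_inl` for one exponent (`0 < r`): `y (inl ()) = 0`.  `pt`: `y = (1; 1, ..., 1)`: `pf_inl`: `1 + ∑ a_ij > 0`, `pf_inr`: `1 > 0`.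
-/

set_option autoImplicit false

namespace Pool.Agent.H37.T6

open Finset H60.RegTri
open Pool.Agent.H37.T5
open Pool.Agent.H56.SMC

theorem czt {n r : ℕ} (a : Fin r → (Fin n →₀ ℕ)) (ha : Function.Injective a) (hr : 0 < r)
    (R : Finset (Fin n → ℕ)) (hR : RaySet a R) : ZT (vv a R) (pf a) AA BB := by
  classical
  have hwmin : ∀ (w : Fin n → ℕ) (i : Fin r), H22.wmin a w ≤ ∑ j, a i j * w j := fun w i =>
    ciInf_le (OrderBot.bddBelow _) i
  refine ⟨?_, ?_, ?_, ?_, ?_⟩
  · intro i
    cases i with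
    | none =>
      right
      show pr BB rho ≠ 0
      rw [pr_BB_rho]
      norm_num
    | some w =>
      left
      show pr AA (lf a w.1) ≠ 0
      rw [pr_AA_lf]
      intro h
      apply (hR.facet w.1 w.2).1
      funext j
      have h1 : ∑ j, w.1 j = 0 := by exact_mod_cast h
      exact (Finset.sum_eq_zero_iff.1 h1) j (mem_univ j)
  · intro i ω
    cases i with
    | none =>
      rcases ω with q | j
      · show 0 ≤ pr (pf a (Sum.inl q)) rho
        rw [pf_inl]
        simp [rho]
      · show 0 ≤ pr (pf a (Sum.inr j)) rho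
        rw [pf_inr]
        simp [rho]
    | some w =>
      rcases ω with q | j
      · show 0 ≤ pr (pf a (Sum.inl q)) (lf a w.1)
        rw [pf_inl_lf]
        have := hwmin w.1 q
        omega
      · show 0 ≤ pr (pf a (Sum.inr j)) (lf a w.1)
        rw [pf_inr]
        simp [lf]
  · intro y hy
    refine zgn a ha hr R hR y fun ω => ?_
    rcases ω with q | j
    · exact hy (Sum.inl q.1)
    · exact hy (Sum.inr j)
  · intro y hy
    have h1 : ∀ j, y (Sum.inr j) = 0 := fun j => by
      rw [← pfR_inr a j y]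
      exact hy (Sum.inr j)
    have h2 : y (Sum.inl ()) = 0 := by
      have h3 := hy (Sum.inl (⟨0, hr⟩ : Fin r))
      rw [pfR_inl] at h3
      simpa [h1] using h3
    funext t
    rcases t with t | t
    · exact h2
    · exact h1 t
  · refine ⟨fun _ => 1, fun ω => ?_⟩
    rcases ω with q | j
    · rw [pf_inl]
      have : (0 : ℤ) ≤ ∑ j, (a q j : ℤ) * 1 := Finset.sum_nonneg fun j _ => by positivity
      linarith
    · rw [pf_inr]
      norm_num

end Pool.Agent.H37.T6
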