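import Pool.Agent.H37.T6.REXT
import Pool.Agent.H37.T6.CZT

/-!
# CUF: full simplices and faces

`g' i = g (some (inl i))`.  `cuf_gen`: a relation between the `rowR a i` is a relation between the `vR (phq q (pf a)) (some (inl i))` (`vR_pf_inl`): `hC.rs.ggen`.
`cuf_ind`: `inB T` independent for `vR (pf a)` iff `T` independent for `rowR a` (`vR_pf_inl`, `Finset.map`).
`cuf_a`: let `σ ∈ TT (inB T)`: independent rays in `Gx (inB T)`, `σ.card + T.card = n + 1`.  `T` is independent (`rint hT`, `cuf_ind`).  `x0 = ∑_{i∈σ} v_i ∈ ℤ^{1+n}`, `τ = {i : φ_{inl i}(x0) = 0} = {i : φ_{inl i} = 0 on σ}` (`nn`), `T ⊆ τ`.  `IsFace a τ` with the weight `k_j = x0 (inr j) ≥ 0` (`pf_inr`, `nn`): `φ_{inl i}(x0) = x0 (inl ()) + a_i·k ≥ 0` with equality exactly on `τ ≠ ∅`, so `τ` is the set of minimisers of `a_i·k`.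
`faceRank a τ = T.card`: the rows of `τ` are functionals vanishing on `σ`, so combinations of the rows of `T` (`rdim` with exchanged roles: `v := pf a`, `φ := vv a R`, `Ξ := σ`, `σ := inB T`; `card (Unit ⊕ Fin n) = n + 1`); `T` is independent.  `T ∈ UF a g' τ`: `(rint hT).2.2 (inB τ)` and `cuf_ind`.
`cuf_b`: `faceRank a τ = T.card = faceRank a τ'`, `T ⊆ τ ∩ τ'`, so the rows of `τ`, `T` and `τ'` have the same span (`H60.ConeExist.card_eq_finrank`, finrank).  `τ` = minimisers of `a_i·k`, with minimal value `m`: the functional `(-m; k)` vanishes on the rows of `τ`, hence on those of `τ'`: `τ' ⊆ τ` (value `a_i·k = m`).  Symmetric.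
`cuf_c`: let `σ ∈ TT (inB T)`, `σ.card = n + 1 - T.card ≥ 1`.  `rext` for `Ξ = inB T`, `σ`: `UpperOn (vR (pf a)) (fun ω => g (some ω)) (Gx (pf a) (vv a R) σ) (inB T)`: for `l = inl i` in this set, `i ∉ T`, with `rowR a i = ∑_T β rowR`: `i ∈ τ`, since `τ` is a face (the functional `(-m; k)` as above vanishes on the rows of `T ⊆ τ`, so `a_i·k = m`), so upperness of `T` in `τ` applies; for `l = inr j`: `hC.bot` (`T` independent).
-/

set_option autoImplicit false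

namespace Pool.Agent.H37.T6

open Finset H60.RegTri
open Pool.Agent.H37.T5
open Pool.Agent.H56.SMC

variable {n r : ℕ} {a : Fin r → (Fin n →₀ ℕ)} {R : Finset (Fin n → ℕ)} {s0 : ℂ}
  {q : Unit ⊕ Fin n → ℤ} {g : Option (Fin r ⊕ Fin n) → ℝ} {h : Option R → ℝ}

theorem CUF_map {α β κ : Type} (e : α ↪ β) (v : β → κ → ℝ) (w : α → κ → ℝ)
    (hw : ∀ i, v (e i) = w i) (T : Finset α) :
    LinearIndepOn ℝ v ((T.map e : Finset β) : Set β) ↔ LinearIndepOn ℝ w (T : Set α) := by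
  rw [linearIndepOn_finset_iff, linearIndepOn_finset_iff]
  constructor
  · intro h c hc i hi
    have h1 := h (Function.extend e c 0) (by
      rw [sum_map]
      rw [← hc]
      refine sum_congr rfl fun j _ => ?_
      rw [e.injective.extend_apply, hw]) (e i) (mem_map_of_mem e hi)
    rwa [e.injective.extend_apply] at h1
  · intro h c hc b hb
    obtain ⟨i, hi, rfl⟩ := mem_map.1 hb
    refine h (fun j => c (e j)) ?_ i hi
    rw [sum_map] at hc
    rw [← hc]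
    refine sum_congr rfl fun j _ => ?_
    rw [hw]

theorem CUF_sum {M : Type} [AddCommMonoid M] (T : Finset (Fin r)) (F : Fin r ⊕ Fin n → M) :
    ∑ o ∈ inB T, F o = ∑ i ∈ T, F (Sum.inl i) := by
  rw [inB, sum_map]
  rfl

theorem CUF_inB_card (T : Finset (Fin r)) : (inB T : Finset (Fin r ⊕ Fin n)).card = T.card := by
  rw [inB, card_map]

theorem cuf_gen (hC : CS a R s0 q g h) (τ : Finset (Fin r)) :
    GenericOn (H22.rowR a) (fun i => g (some (Sum.inl i))) τ := by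
  intro σ _ hσ l _ hlσ β hβ
  let e : Fin r ↪ Option (Fin r ⊕ Fin n) :=
    ⟨fun i => some (Sum.inl i), fun i j hij => Sum.inl_injective (Option.some_injective _ hij)⟩
  have he : ∀ i, vR (phq q (pf a)) (e i) = H22.rowR a i := fun i => vR_pf_inl a i
  have h1 := hC.rs.ggen univ (σ.map e) (subset_univ _) ((CUF_map e _ _ he σ).2 hσ) (e l)
    (mem_univ _) (by
      intro hmem
      obtain ⟨i, hi, hil⟩ := mem_map.1 hmem
      exact hlσ (e.injective hil ▸ hi)) (Function.extend e β 0) (by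
      rw [sum_map, he, hβ]
      refine sum_congr rfl fun j _ => ?_
      rw [e.injective.extend_apply, he])
  rw [sum_map] at h1
  intro h2
  apply h1
  refine h2.trans (sum_congr rfl fun j _ => ?_)
  rw [e.injective.extend_apply]
  rfl

theorem cuf_ind (a : Fin r → (Fin n →₀ ℕ)) (T : Finset (Fin r)) :
    LinearIndepOn ℝ (vR (pf a)) ((inB T : Finset (Fin r ⊕ Fin n)) : Set (Fin r ⊕ Fin n)) ↔
      LinearIndepOn ℝ (H22.rowR a) (T : Set (Fin r)) :=
  CUF_map ⟨Sum.inl, Sum.inl_injective⟩ (vR (pf a)) (H22.rowR a) (fun i => vR_pf_inl a i) T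

/-- The value of a weight on an affine combination. -/
theorem CUF_hull (a : Fin r → (Fin n →₀ ℕ)) (k : Fin n → ℝ) (T : Finset (Fin r)) (l : Fin r)
    (β : Fin r → ℝ) (h : H22.rowR a l = ∑ i ∈ T, β i • H22.rowR a i) (m : ℝ)
    (hT : ∀ i ∈ T, ∑ j, (a i j : ℝ) * k j = m) : ∑ j, (a l j : ℝ) * k j = m := by
  have h1 : (1 : ℝ) = ∑ i ∈ T, β i := by
    have h2 := congrFun h (Sum.inl ())
    rw [Finset.sum_apply] at h2
    simp only [H22.rowR, Pi.smul_apply, Sum.elim_inl, smul_eq_mul, mul_one] at h2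
    exact h2
  have h3 : ∀ j, (a l j : ℝ) = ∑ i ∈ T, β i * (a i j : ℝ) := by
    intro j
    have h2 := congrFun h (Sum.inr j)
    rw [Finset.sum_apply] at h2
    simp only [H22.rowR, Pi.smul_apply, Sum.elim_inr, smul_eq_mul] at h2
    exact h2
  calc ∑ j, (a l j : ℝ) * k j = ∑ j, ∑ i ∈ T, β i * ((a i j : ℝ) * k j) := by
        refine sum_congr rfl fun j _ => ?_
        rw [h3 j, sum_mul]
        exact sum_congr rfl fun i _ => mul_assoc _ _ _
    _ = ∑ i ∈ T, β i * ∑ j, (a i j : ℝ) * k j := by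
        rw [sum_comm]
        exact sum_congr rfl fun i _ => (mul_sum _ _ _).symm
    _ = ∑ i ∈ T, β i * m := sum_congr rfl fun i hi => by rw [hT i hi]
    _ = m := by rw [← sum_mul, ← h1, one_mul]

/-- A face contains the exponents in the affine hull of a nonempty subset. -/
theorem CUF_aff {τ : Finset (Fin r)} (hτ : H22.IsFace a τ) {T : Finset (Fin r)}
    (hTne : T.Nonempty) (hT : T ⊆ τ) (l : Fin r)
    (hl : ∃ β : Fin r → ℝ, H22.rowR a l = ∑ i ∈ T, β i • H22.rowR a i) : l ∈ τ := by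
  obtain ⟨k, _, hk⟩ := hτ
  obtain ⟨i0, hi0⟩ := hTne
  obtain ⟨β, hβ⟩ := hl
  have h1 := CUF_hull a k T l β hβ (∑ j, (a i0 j : ℝ) * k j) (fun i hi =>
    le_antisymm ((hk i).1 (hT hi) i0) ((hk i0).1 (hT hi0) i))
  rw [hk]
  intro l'
  rw [h1]
  exact (hk i0).1 (hT hi0) l'

/-- The rows of a face are combinations of the rows of a full upper simplex. -/
theorem CUF_full {g' : Fin r → ℝ} {τ T : Finset (Fin r)} (h1 : T ∈ UF a g' τ) (l : Fin r)
    (hl : l ∈ τ) : ∃ β : Fin r → ℝ, H22.rowR a l = ∑ i ∈ T, β i • H22.rowR a i := by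
  obtain ⟨⟨hsub, hind, -⟩, hcard⟩ := mem_UF.1 h1
  rw [← mem_span_iff]
  have h2 : Submodule.span ℝ (H22.rowR a '' (T : Set (Fin r))) =
      Submodule.span ℝ (H22.rowR a '' (τ : Set (Fin r))) := by
    apply Submodule.eq_of_le_of_finrank_eq
    · exact Submodule.span_mono (Set.image_mono (by exact_mod_cast hsub))
    · rw [← H60.ConeExist.card_eq_finrank (H22.rowR a) T hind, hcard]
      rfl
  rw [h2]
  exact Submodule.subset_span ⟨l, by exact_mod_cast hl, rfl⟩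

theorem CUF_prx {ι κ : Type} [Fintype κ] (v : ι → κ → ℤ) (z : κ → ℤ) (σ : Finset ι) :
    prR z (∑ i ∈ σ, vR v i) = ∑ i ∈ σ, (pr z (v i) : ℝ) := by
  classical
  induction σ using Finset.induction_on with
  | empty => simp [prR]
  | insert a s ha ih => rw [sum_insert ha, sum_insert ha, ZLOC_prR_add, ih, prR_vR]

/-- Upper simplices of exponents. -/
theorem CUF_up {G : Finset (Fin r ⊕ Fin n)} {τ T : Finset (Fin r)} (hG : inB τ ⊆ G)
    (hT : T ⊆ τ)
    (hU : UpperOn (vR (pf a)) (fun ω => g (some ω)) G (inB T)) :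
    UpperOn (H22.rowR a) (fun i => g (some (Sum.inl i))) τ T := by
  obtain ⟨-, h2, h3⟩ := hU
  refine ⟨hT, (cuf_ind a T).1 h2, fun l hl hlT β hβ => ?_⟩
  have h4 := h3 (Sum.inl l) (hG (mem_inB.2 hl)) (fun hmem => hlT (mem_inB.1 hmem))
    (Sum.elim β (fun _ => 0)) (by
      rw [vR_pf_inl, hβ, CUF_sum]
      refine sum_congr rfl fun i _ => ?_
      rw [vR_pf_inl]
      rfl)
  rw [CUF_sum] at h4
  exact h4

theorem cuf_a (hC : CS a R s0 q g h) (T : Finset (Fin r)) (hTne : T.Nonempty)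
    (hT : InT (pf a) q g (inB T)) (hF : (TT (vv a R) (pf a) h (inB T)).Nonempty) :
    ∃ τ, H22.IsFace a τ ∧ H22.faceRank a τ = T.card ∧
      T ∈ UF a (fun i => g (some (Sum.inl i))) τ := by
  classical
  obtain ⟨σ, hσ⟩ := hF
  obtain ⟨⟨hσG, hσi, -⟩, hcard⟩ := mem_TT.1 hσ
  obtain ⟨hTi, -, hTU⟩ := rint hT
  have hTG : inB T ⊆ Gx (pf a) (vv a R) σ := sub_Gxs.1 hσG
  obtain ⟨x0, hx0⟩ : ∃ x0 : Unit ⊕ Fin n → ℝ, x0 = ∑ i ∈ σ, vR (vv a R) i := ⟨_, rfl⟩
  have hprx : ∀ z : Unit ⊕ Fin n → ℤ, prR z x0 = ∑ i ∈ σ, (pr z (vv a R i) : ℝ) := by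
    intro z
    rw [hx0, CUF_prx]
  have hnn : ∀ ω, ∀ i ∈ σ, (0 : ℝ) ≤ (pr (pf a ω) (vv a R i) : ℝ) := fun ω i _ => by
    exact_mod_cast hC.rs.zt.nn i ω
  have hpos : ∀ ω, 0 ≤ prR (pf a ω) x0 := by
    intro ω
    rw [hprx]
    exact sum_nonneg (hnn ω)
  have hzero : ∀ ω, prR (pf a ω) x0 = 0 ↔ ω ∈ Gx (pf a) (vv a R) σ := by
    intro ω
    rw [hprx, sum_eq_zero_iff_of_nonneg (hnn ω), mem_Gxs]
    exact ⟨fun h1 i hi => by exact_mod_cast h1 i hi, fun h1 i hi => by exact_mod_cast h1 i hi⟩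
  obtain ⟨τ, hτd⟩ : ∃ τ : Finset (Fin r),
      τ = univ.filter (fun l => (Sum.inl l : Fin r ⊕ Fin n) ∈ Gx (pf a) (vv a R) σ) := ⟨_, rfl⟩
  have hmτ : ∀ l, l ∈ τ ↔ (Sum.inl l : Fin r ⊕ Fin n) ∈ Gx (pf a) (vv a R) σ := by
    intro l
    rw [hτd, mem_filter]
    exact ⟨fun h => h.2, fun h => ⟨mem_univ _, h⟩⟩
  have hTτ : T ⊆ τ := fun l hl => (hmτ l).2 (hTG (mem_inB.2 hl))
  have hP : ∀ l, prR (pf a (Sum.inl l)) x0 =
      x0 (Sum.inl ()) + ∑ j, (a l j : ℝ) * x0 (Sum.inr j) := fun l => pfR_inl a l x0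
  have hface : H22.IsFace a τ := by
    refine ⟨fun j => x0 (Sum.inr j), fun j => ?_, fun l => ⟨fun hl l' => ?_, fun hl => ?_⟩⟩
    · have h1 := hpos (Sum.inr j)
      rwa [pfR_inr] at h1
    · have h1 := (hzero (Sum.inl l)).2 ((hmτ l).1 hl)
      have h2 := hpos (Sum.inl l')
      rw [hP] at h1 h2
      linarith
    · obtain ⟨i0, hi0⟩ := hTne
      have h1 := (hzero (Sum.inl i0)).2 ((hmτ i0).1 (hTτ hi0))
      have h2 := hpos (Sum.inl l)
      have h3 := hl i0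
      rw [hmτ, ← hzero]
      rw [hP] at h1 h2 ⊢
      linarith
  have hTi' : LinearIndepOn ℝ (H22.rowR a) (T : Set (Fin r)) := (cuf_ind a T).1 hTi
  have hspan : Submodule.span ℝ (H22.rowR a '' (τ : Set (Fin r))) =
      Submodule.span ℝ (H22.rowR a '' (T : Set (Fin r))) := by
    apply le_antisymm
    · rw [Submodule.span_le]
      rintro _ ⟨l, hl, rfl⟩
      rw [SetLike.mem_coe, mem_span_iff]
      have hl' : (Sum.inl l : Fin r ⊕ Fin n) ∈ Gx (pf a) (vv a R) σ :=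
        (hmτ l).1 (by exact_mod_cast hl)
      obtain ⟨β, hβ⟩ := rdim (pf a) (vv a R) σ (inB T) hσi hTi (fun ω hω i hi => by
          rw [pr_cm]
          exact mem_Gxs.1 (hTG hω) i hi) (by rw [add_comm]; exact hcard)
        (vR (pf a) (Sum.inl l)) (fun i hi => by
          rw [prR_vR, pr_cm, mem_Gxs.1 hl' i hi, Int.cast_zero])
      refine ⟨fun i => β (Sum.inl i), ?_⟩
      rw [vR_pf_inl, CUF_sum] at hβ
      rw [hβ]
      refine sum_congr rfl fun i _ => ?_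
      rw [vR_pf_inl]
    · exact Submodule.span_mono (Set.image_mono (by exact_mod_cast hTτ))
  have hrank : H22.faceRank a τ = T.card := by
    rw [H60.ConeExist.card_eq_finrank (H22.rowR a) T hTi', ← hspan]
    rfl
  refine ⟨τ, hface, hrank, mem_UF.2 ⟨?_, hrank.symm⟩⟩
  have hsub : (inB T : Finset (Fin r ⊕ Fin n)) ⊆ inB τ := by
    intro ω hω
    rcases ω with i | j
    · exact mem_inB.2 (hTτ (mem_inB.1 hω))
    · exact absurd hω inr_inB
  exact CUF_up (subset_refl _) hTτ (hTU (inB τ) hsub)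

theorem cuf_b (g' : Fin r → ℝ) (τ τ' : Finset (Fin r)) (hτ : H22.IsFace a τ)
    (hτ' : H22.IsFace a τ') (T : Finset (Fin r)) (hTne : T.Nonempty) (h1 : T ∈ UF a g' τ)
    (h2 : T ∈ UF a g' τ') : τ = τ' := by
  apply Finset.Subset.antisymm
  · intro l hl
    exact CUF_aff hτ' hTne (mem_UF.1 h2).1.1 l (CUF_full h1 l hl)
  · intro l hl
    exact CUF_aff hτ hTne (mem_UF.1 h1).1.1 l (CUF_full h2 l hl)

theorem cuf_c (hC : CS a R s0 q g h) (τ : Finset (Fin r)) (hτ : H22.IsFace a τ)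
    (T : Finset (Fin r)) (hTne : T.Nonempty) (hTn : T.card ≤ n)
    (h1 : T ∈ UF a (fun i => g (some (Sum.inl i))) τ)
    (hF : (TT (vv a R) (pf a) h (inB T)).Nonempty) : InT (pf a) q g (inB T) := by
  classical
  obtain ⟨σ, hσ⟩ := hF
  obtain ⟨⟨hσG, hσi, -⟩, hcard⟩ := mem_TT.1 hσ
  obtain ⟨⟨hTτ, hTi, hTU⟩, -⟩ := mem_UF.1 h1
  have hΞ := (cuf_ind a T).2 hTi
  have hne : σ.Nonempty := by
    rw [← Finset.card_pos]
    have h2 : Fintype.card (Unit ⊕ Fin n) = n + 1 := by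
      rw [Fintype.card_sum, Fintype.card_unit, Fintype.card_fin, add_comm]
    rw [h2, CUF_inB_card] at hcard
    omega
  refine rext hC.rs (inB T) σ hΞ hσi hσG hcard hne ⟨sub_Gxs.1 hσG, hΞ, ?_⟩
  intro l _ hlT β hβ
  rcases l with i | j
  · rw [vR_pf_inl, CUF_sum] at hβ
    have hβ' : H22.rowR a i = ∑ i ∈ T, β (Sum.inl i) • H22.rowR a i := by
      rw [hβ]
      refine sum_congr rfl fun i _ => ?_
      rw [vR_pf_inl]
    have h2 := hTU i (CUF_aff hτ hTne hTτ i ⟨_, hβ'⟩) (fun hmem => hlT (mem_inB.2 hmem))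
      (fun i => β (Sum.inl i)) hβ'
    rw [CUF_sum]
    exact h2
  · rw [CUF_sum] at hβ
    have h2 := hC.bot T (by
      have h3 : (fun i => vR (pf a) (Sum.inl i)) = H22.rowR a := funext fun i => vR_pf_inl a i
      rw [h3]
      exact hTi) j (fun i => β (Sum.inl i)) hβ
    rw [CUF_sum]
    exact h2

end Pool.Agent.H37.T6
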