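import Pool.Agent.H37.T6.LDV
import Pool.Agent.H37.T5.ZVOLC
import Pool.Agent.H37.T5.ZIN

/-!
# LADJ: `W` of a wall vanishes

`ω'` from `hL.wall Δ hΔ ω hω`, `Δ2 = insert ω' (Δ.erase ω)`.  The elements of `D` containing `Δ.erase ω` are `Δ` and `Δ2` (different, since `ω' ∉ Δ`): `WWs D (Δ.erase ω) = WWt Δ (Δ.erase ω) + WWt Δ2 (Δ.erase ω)`, and `Δ \ Δ.erase ω = {ω}`, `Δ2 \ Δ.erase ω = {ω'}`: this is `(M * LaR Δ (some ω))⁻¹ + (M2 * LaR Δ2 (some ω'))⁻¹`, `M = mulv (phq q φ) (insertNone Δ)`, `M2` for `Δ2`.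
Let `f = phq q φ`, `σ = insertNone Δ`, `β = cf (vR f) σ (vR φ ω') (some ω) < 0`.  `insertNone Δ2 = insert (some ω') (σ.erase (some ω))`.  (1) `M2 = |β| M = -β M`: `zvol3 f f τ (some ω) (some ω') ... ∅` with `τ = σ.erase (some ω)` (`insert (some ω) τ = σ`, `cf_sum` with `lspan`, the set `Ξ = ∅`, `hL.card`).
(2) for every `y` (here `y = A`, `y = B`): the coordinate of `y` at `some ω'` in `Δ2` is the coordinate at `some ω` in `Δ` divided by `β`: `ZIN_cf` (T5, file ZIN).  So `LaR Δ2 (some ω') = C(1/β) * LaR Δ (some ω)`, and `M2 * LaR Δ2 (some ω') = - M * LaR Δ (some ω)`.  The two terms add up to `0`.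
-/

set_option autoImplicit false

namespace Pool.Agent.H37.T6

open Finset H60.RegTri
open Pool.Agent.H37.T5

variable {κ Ω : Type} [Fintype κ] [DecidableEq κ] [Fintype Ω] [DecidableEq Ω]
  {φ : Ω → κ → ℤ} {A B q : κ → ℤ} {s0 : ℂ} {D : Finset (Finset Ω)}

theorem ladj (hL : LS φ q A B s0 D) {Δ : Finset Ω} (hΔ : Δ ∈ D) {ω : Ω} (hω : ω ∈ Δ) :
    WWs φ q A B D (Δ.erase ω) = 0 := by
  obtain ⟨ω', hω', hΔ2, hneg, huniq⟩ := hL.wall Δ hΔ ω hω
  obtain ⟨Δ2, hΔ2def⟩ : ∃ Δ2, Δ2 = insert ω' (Δ.erase ω) := ⟨_, rfl⟩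
  rw [← hΔ2def] at hΔ2
  have hω'2 : ω' ∈ Δ2 := by rw [hΔ2def]; exact mem_insert_self _ _
  have hne : Δ ≠ Δ2 := fun h => hω' (h ▸ hω'2)
  have hfil : D.filter (fun Δ' => Δ.erase ω ⊆ Δ') = {Δ, Δ2} := by
    ext Δ'
    rw [mem_filter, mem_insert, mem_singleton]
    constructor
    · rintro ⟨h1, h2⟩
      rw [hΔ2def]
      exact huniq Δ' h1 h2
    · rintro (rfl | rfl)
      · exact ⟨hΔ, erase_subset _ _⟩
      · refine ⟨hΔ2, ?_⟩
        rw [hΔ2def]
        exact subset_insert _ _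
  have hd1 : Δ \ Δ.erase ω = {ω} := by
    ext x
    rw [mem_sdiff, mem_erase, mem_singleton]
    constructor
    · rintro ⟨h1, h2⟩
      by_contra h3
      exact h2 ⟨h3, h1⟩
    · rintro rfl
      exact ⟨hω, fun h => h.1 rfl⟩
  have hd2 : Δ2 \ Δ.erase ω = {ω'} := by
    rw [hΔ2def]
    ext x
    rw [mem_sdiff, mem_insert, mem_singleton]
    constructor
    · rintro ⟨h1 | h1, h2⟩
      · exact h1
      · exact absurd h1 h2
    · rintro rfl
      exact ⟨Or.inl rfl, fun h => hω' (mem_of_mem_erase h)⟩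
  have hins : insertNone Δ2 = insert (some ω') ((insertNone Δ).erase (some ω)) := by
    rw [hΔ2def]
    ext o
    cases o with
    | none => simp
    | some x => simp
  have hb : (some ω : Option Ω) ∈ insertNone Δ := some_mem_insertNone.2 hω
  have hb' : (some ω' : Option Ω) ∉ insertNone Δ := fun h => hω' (some_mem_insertNone.1 h)
  have hcard : (insertNone Δ).card = Fintype.card κ := by
    rw [card_insertNone]
    exact hL.card Δ hΔ
  have hind := hL.ind Δ hΔ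
  have hind2 := hL.ind Δ2 hΔ2
  rw [hins] at hind2
  obtain ⟨β, hβdef⟩ : ∃ β : Option Ω → ℝ,
      β = cf (vR (phq q φ)) (insertNone Δ) (vR φ ω') := ⟨_, rfl⟩
  have hβ : vR (phq q φ) (some ω') = ∑ i ∈ insertNone Δ, β i • vR (phq q φ) i := by
    rw [hβdef]
    exact cf_sum (lspan (phq q φ) (insertNone Δ) hind hcard (vR φ ω'))
  have hβneg : β (some ω) < 0 := by
    rw [hβdef]
    exact hneg
  -- the multiplicities
  have hvol := zvol3 (phq q φ) φ ((insertNone Δ).erase (some ω)) (some ω) (some ω')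
    (notMem_erase _ _) (fun h => hb' (mem_of_mem_erase h)) ∅
    (by rw [insert_erase hb]; exact hind) hind2
    (by rw [coe_empty]; exact linearIndepOn_empty ℝ _)
    (fun i _ ω hω => absurd hω (notMem_empty _)) (fun i _ ω hω => absurd hω (notMem_empty _))
    (by rw [insert_erase hb, card_empty, add_zero]; exact hcard) β
    (by rw [insert_erase hb]; exact hβ)
  rw [insert_erase hb, ← hins, abs_of_neg hβneg] at hvol
  -- the coordinates
  have hcoord : ∀ y : κ → ℤ, cE (phq q φ) (insertNone Δ2) y (some ω') =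
      RatFunc.C ((β (some ω) : ℂ)⁻¹) * cE (phq q φ) (insertNone Δ) y (some ω) := by
    intro y
    have h1 := ZIN_cf (w := vR (phq q φ)) hb hb' hind2 hβ hβneg.ne
      (y := fun j => (y j : ℝ)) (c := cf (vR (phq q φ)) (insertNone Δ) (fun j => (y j : ℝ)))
      (cf_sum (lspan (phq q φ) (insertNone Δ) hind hcard _))
    rw [cE, cE, ← map_mul, hins, h1]
    congr 1
    push_cast
    rw [div_eq_mul_inv, mul_comm]
  have hLa : LaR φ q A B Δ2 (some ω') = RatFunc.C ((β (some ω) : ℂ)⁻¹) * LaR φ q A B Δ (some ω) := by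
    rw [LaR, LaR, hcoord A, hcoord B]
    ring
  have hM : ((mulv (phq q φ) (insertNone Δ2) : ℕ) : RatFunc ℂ) =
      -(RatFunc.C (β (some ω) : ℂ)) * ((mulv (phq q φ) (insertNone Δ) : ℕ) : RatFunc ℂ) := by
    have h1 : ((mulv (phq q φ) (insertNone Δ2) : ℕ) : ℂ) =
        -(β (some ω) : ℂ) * ((mulv (phq q φ) (insertNone Δ) : ℕ) : ℂ) := by
      exact_mod_cast congrArg (fun x : ℝ => (x : ℂ)) hvol
    rw [← map_natCast (RatFunc.C (K := ℂ)) (mulv (phq q φ) (insertNone Δ2)),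
      ← map_natCast (RatFunc.C (K := ℂ)) (mulv (phq q φ) (insertNone Δ)), h1, map_mul, map_neg]
  have hβC : RatFunc.C (β (some ω) : ℂ) * RatFunc.C ((β (some ω) : ℂ)⁻¹) = 1 := by
    rw [← map_mul, mul_inv_cancel₀ (by exact_mod_cast hβneg.ne), map_one]
  rw [WWs, hfil, sum_pair hne, WWt, WWt, hd1, hd2, prod_singleton, prod_singleton, ← mul_inv,
    ← mul_inv]
  have hprod : ((mulv (phq q φ) (insertNone Δ2) : ℕ) : RatFunc ℂ) * LaR φ q A B Δ2 (some ω') =
      -(((mulv (phq q φ) (insertNone Δ) : ℕ) : RatFunc ℂ) * LaR φ q A B Δ (some ω)) := by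
    rw [hM, hLa]
    linear_combination (-((mulv (phq q φ) (insertNone Δ) : ℕ) : RatFunc ℂ) *
      LaR φ q A B Δ (some ω)) * hβC
  have hfin : ∀ x y : RatFunc ℂ, y = -x → x⁻¹ + y⁻¹ = 0 := by
    intro x y hxy
    by_cases hx : x = 0
    · rw [hx, neg_zero] at hxy
      rw [hx, hxy, inv_zero, add_zero]
    · have hy : y ≠ 0 := by
        rw [hxy]
        exact neg_ne_zero.2 hx
      have h1 : (x⁻¹ + y⁻¹) * (x * y) = 0 := by
        have h2 : (x⁻¹ + y⁻¹) * (x * y) = (x⁻¹ * x) * y + (y⁻¹ * y) * x := by ring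
        rw [h2, inv_mul_cancel₀ hx, inv_mul_cancel₀ hy, hxy]
        ring
      exact (mul_eq_zero.1 h1).resolve_right (mul_ne_zero hx hy)
  exact hfin _ _ hprod

end Pool.Agent.H37.T6
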