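import Pool.Agent.H37.T6.LWR
import Pool.Agent.H37.T5.ZCOM
import Pool.Agent.H37.T5.ZPYR

/-!
# LCL: one cluster

`zcom` (T5, file ZCOM) with `J = LLs φ q A B (DL D Λ)`, `S = univ.filter (Λ ω ≠ 0)`, `x ω k = pr (φ ω) (e k)`, `𝓕 Y = ∃ Δ ∈ DL D Λ, Y ⊆ Δ`, `μ T = (mulv φ T) ^ 2`.
`hmono`: clear.  `hS`: `S ⊆ Δ` for `Δ ∈ DL D Λ` (`mem_DL`).  `hJ`: the sum is empty.
`hrel`: `lrel` with `D' = DL D Λ`, `z = e k`: `VL A B (e k) = 1` (`heA`, `heB`), so the difference is `q(e_k) * WWs (DL D Λ) X`, regular by `lwr`, `reg_intCast`.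
`hapS`: let `Ap x Vt Y b k`, `S ⊆ Y`, and suppose `b ∉ S`.  `zlam_pair` (T5, file ZLAM) with `x = e k`: `1 = ∑_ω Λ ω * φ_ω(e_k)`; for `ω ∈ S`: `ω ∈ Y`, `ω ≠ b`, so `φ_ω(e_k) = 0`; for `ω ∉ S`: `Λ ω = 0`: `1 = 0`, contradiction.
`H`: from the hypothesis `H` (`𝓕 Y` gives `Δ ∈ D`).  `hμ`: `mulv_pyr` (T5, file ZPYR) with `e := e k`.
-/

set_option autoImplicit false

namespace Pool.Agent.H37.T6

open Finset H60.RegTri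
open Pool.Agent.H37.T5

variable {κ Ω : Type} [Fintype κ] [DecidableEq κ] [Fintype Ω] [DecidableEq Ω]
  {φ : Ω → κ → ℤ} {A B q : κ → ℤ} {s0 : ℂ} {D : Finset (Finset Ω)}

theorem lcl (hL : LS φ q A B s0 D) (Vt : Finset Ω) {E : Type} (e : E → κ → ℤ)
    (heA : ∀ k, pr A (e k) = 1) (heB : ∀ k, pr B (e k) = 0) (Λ : Ω → ℂ)
    (hΛ : IsLam φ A B s0 Λ)
    (H : ∀ Y : Finset Ω, (∃ Δ ∈ D, Y ⊆ Δ) → (∀ ω, Λ ω ≠ 0 → ω ∈ Y) →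
      ∃ b k, Ap (fun ω k => pr (φ ω) (e k)) Vt Y b k ∧
        ∀ k', Ap (fun ω k => pr (φ ω) (e k)) Vt Y b k' → k' = k) :
    H37.SM.Reg s0 (∑ T ∈ Vt.powerset, (-1) ^ T.card * (((mulv φ T) ^ 2 : ℕ) : RatFunc ℂ) *
      LLs φ q A B (DL D Λ) T) := by
  classical
  refine zcom (s0 := s0) (J := LLs φ q A B (DL D Λ)) (S := univ.filter fun ω => Λ ω ≠ 0)
    (Vt := Vt) (x := fun ω k => pr (φ ω) (e k)) (𝓕 := fun Y => ∃ Δ ∈ DL D Λ, Y ⊆ Δ)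
    ?_ ?_ ?_ ?_ ?_ ?_ (fun T => (mulv φ T) ^ 2) ?_
  · rintro X Y hXY ⟨Δ, hΔ, hY⟩
    exact ⟨Δ, hΔ, hXY.trans hY⟩
  · rintro X ⟨Δ, hΔ, hX⟩
    refine ⟨Δ, hΔ, union_subset hX fun ω hω => ?_⟩
    exact (mem_DL.1 hΔ).2 ω (mem_filter.1 hω).2
  · intro X hX
    unfold LLs
    have he : (DL D Λ).filter (fun Δ => X ⊆ Δ) = ∅ := by
      rw [filter_eq_empty_iff]
      exact fun Δ hΔ h => hX ⟨Δ, hΔ, h⟩
    rw [he, sum_empty]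
  · intro X k hX
    have h1 := lrel hL (DL D Λ) (fun Δ hΔ => (mem_DL.1 hΔ).1) X (e k) hX
    have hV : VL A B (e k) = 1 := by
      unfold VL
      rw [heA, heB]
      simp
    rw [hV, one_mul] at h1
    rw [h1, add_sub_cancel_left]
    exact H37.SM.Reg.mul (H37.SM.reg_intCast _) (lwr hL Λ hΛ X)
  · rintro Y hSY - b k hap
    by_contra hb
    have h1 := zlam_pair Λ hΛ (e k)
    rw [heA, heB] at h1
    have h2 : ∑ ω, Λ ω * (pr (φ ω) (e k) : ℂ) = 0 := by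
      refine sum_eq_zero fun ω _ => ?_
      by_cases hω : Λ ω = 0
      · rw [hω, zero_mul]
      · have hωS : ω ∈ univ.filter fun ω => Λ ω ≠ 0 := mem_filter.2 ⟨mem_univ _, hω⟩
        have hne : ω ≠ b := fun h => hb (h ▸ hωS)
        have h3 : pr (φ ω) (e k) = 0 := hap.2.2.2 ω (hSY hωS) hne
        rw [h3, Int.cast_zero, mul_zero]
    rw [h2] at h1
    simp at h1
  · rintro Y hSY ⟨Δ, hΔ, hY⟩
    exact H Y ⟨Δ, (mem_DL.1 hΔ).1, hY⟩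
      fun ω hω => hSY (mem_filter.2 ⟨mem_univ _, hω⟩)
  · intro T b k hb h1 h0
    rw [mulv_pyr φ T b hb (e k) h0 h1]

end Pool.Agent.H37.T6
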