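import Pool.Agent.H37.T6.LCL

/-!
# LFIN: the sum over all sets of vertices is regular

For `Δ ∈ D` with `laC Δ none = 0` (critical) let `Λ^Δ` be the function of `lcr1`; `𝓛` = the finite set of these functions (image of the critical elements of `D`; classical decidability).  All `Λ ∈ 𝓛` satisfy `IsLam` (`lcr1`).
(1) For every `T`: `LLs D T = ∑_{Δ ∈ D, T ⊆ Δ, laC Δ none ≠ 0} LLt Δ T + ∑_{Λ ∈ 𝓛} LLs (DL D Λ) T`: a critical `Δ` is in `DL D (Λ^Δ)`; if `Δ ∈ DL D Λ` with `Λ ∈ 𝓛` then by `lcr2` `Δ` is critical and `Λ = Λ^Δ`.  So the `DL D Λ`, `Λ ∈ 𝓛`, are disjoint and their union is the set of critical elements (`Finset.sum_biUnion` or `sum_fiberwise`).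
(2) The first sum is regular (`lnc_reg`, `Reg.sum`).  (3) Sum over `T ∈ Vt.powerset` with the coefficients `(-1)^|T| * mulv^2` (regular: `reg_natCast`, `reg_intCast`), exchange the sums over `T` and `Λ`; for every `Λ ∈ 𝓛` the sum is regular by `lcl` (with `H Λ`).
-/

set_option autoImplicit false

namespace Pool.Agent.H37.T6

open Finset H60.RegTri
open Pool.Agent.H37.T5

variable {κ Ω : Type} [Fintype κ] [DecidableEq κ] [Fintype Ω] [DecidableEq Ω]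
  {φ : Ω → κ → ℤ} {A B q : κ → ℤ} {s0 : ℂ} {D : Finset (Finset Ω)}

/-- the function of a simplex -/
noncomputable def LFIN_lam (φ : Ω → κ → ℤ) (q A B : κ → ℤ) (s0 : ℂ) (Δ : Finset Ω) : Ω → ℂ :=
  fun ω => if ω ∈ Δ then laC φ q A B s0 Δ (some ω) else 0

open Classical in
/-- the functions of the critical simplices -/
noncomputable def LFIN_L (φ : Ω → κ → ℤ) (q A B : κ → ℤ) (s0 : ℂ) (D : Finset (Finset Ω)) :
    Finset (Ω → ℂ) :=
  (D.filter fun Δ => laC φ q A B s0 Δ none = 0).image (LFIN_lam φ q A B s0)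

theorem LFIN_isLam (hL : LS φ q A B s0 D) {Λ : Ω → ℂ} (h : Λ ∈ LFIN_L φ q A B s0 D) :
    IsLam φ A B s0 Λ := by
  unfold LFIN_L at h
  rw [mem_image] at h
  obtain ⟨Δ, hΔ, rfl⟩ := h
  rw [mem_filter] at hΔ
  exact lcr1 hL hΔ.1 hΔ.2

open Classical in
theorem LFIN_split (hL : LS φ q A B s0 D) (T : Finset Ω) :
    LLs φ q A B D T =
      (∑ Δ ∈ (D.filter fun Δ => T ⊆ Δ).filter (fun Δ => ¬ laC φ q A B s0 Δ none = 0),
        LLt φ q A B Δ T) +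
      ∑ Λ ∈ LFIN_L φ q A B s0 D, LLs φ q A B (DL D Λ) T := by
  have h1 : LLs φ q A B D T =
      ∑ Δ ∈ D.filter (fun Δ => T ⊆ Δ), LLt φ q A B Δ T := by
    unfold LLs
    refine sum_congr ?_ fun _ _ => rfl
    ext Δ
    simp only [mem_filter]
  rw [h1, ← sum_filter_add_sum_filter_not (D.filter fun Δ => T ⊆ Δ)
    (fun Δ => laC φ q A B s0 Δ none = 0), add_comm]
  congr 1
  rw [← sum_fiberwise_of_maps_to (t := LFIN_L φ q A B s0 D) (g := LFIN_lam φ q A B s0)]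
  · refine sum_congr rfl fun Λ hΛ => ?_
    unfold LLs
    refine sum_congr ?_ fun _ _ => rfl
    ext Δ
    simp only [mem_filter, mem_DL]
    constructor
    · rintro ⟨⟨⟨hD, hT⟩, hc⟩, rfl⟩
      refine ⟨⟨hD, fun ω hω => ?_⟩, hT⟩
      by_contra hn
      exact hω (if_neg hn)
    · rintro ⟨⟨hD, hs⟩, hT⟩
      obtain ⟨h2, h3⟩ := lcr2 hL hD Λ (LFIN_isLam hL hΛ) hs
      exact ⟨⟨⟨hD, hT⟩, h2⟩, h3.symm⟩
  · intro Δ hΔ
    simp only [mem_filter] at hΔ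
    unfold LFIN_L
    rw [mem_image]
    exact ⟨Δ, mem_filter.2 ⟨hΔ.1.1, hΔ.2⟩, rfl⟩

theorem LFIN_pow (k : ℕ) : H37.SM.Reg s0 ((-1 : RatFunc ℂ) ^ k) := by
  have h := H37.SM.reg_intCast (s0 := s0) ((-1 : ℤ) ^ k)
  push_cast at h
  exact h

theorem lfin (hL : LS φ q A B s0 D) (Vt : Finset Ω) {E : Type} (e : E → κ → ℤ)
    (heA : ∀ k, pr A (e k) = 1) (heB : ∀ k, pr B (e k) = 0)
    (H : ∀ Λ : Ω → ℂ, IsLam φ A B s0 Λ → ∀ Y : Finset Ω, (∃ Δ ∈ D, Y ⊆ Δ) →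
      (∀ ω, Λ ω ≠ 0 → ω ∈ Y) →
      ∃ b k, Ap (fun ω k => pr (φ ω) (e k)) Vt Y b k ∧
        ∀ k', Ap (fun ω k => pr (φ ω) (e k)) Vt Y b k' → k' = k) :
    H37.SM.Reg s0 (∑ T ∈ Vt.powerset, (-1) ^ T.card * (((mulv φ T) ^ 2 : ℕ) : RatFunc ℂ) *
      LLs φ q A B D T) := by
  classical
  have e1 : ∑ T ∈ Vt.powerset, (-1) ^ T.card * (((mulv φ T) ^ 2 : ℕ) : RatFunc ℂ) *
      LLs φ q A B D T =
      (∑ T ∈ Vt.powerset, (-1) ^ T.card * (((mulv φ T) ^ 2 : ℕ) : RatFunc ℂ) *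
        ∑ Δ ∈ (D.filter fun Δ => T ⊆ Δ).filter (fun Δ => ¬ laC φ q A B s0 Δ none = 0),
          LLt φ q A B Δ T) +
      ∑ Λ ∈ LFIN_L φ q A B s0 D, ∑ T ∈ Vt.powerset,
        (-1) ^ T.card * (((mulv φ T) ^ 2 : ℕ) : RatFunc ℂ) * LLs φ q A B (DL D Λ) T := by
    rw [sum_comm, ← sum_add_distrib]
    refine sum_congr rfl fun T _ => ?_
    rw [LFIN_split hL T, mul_add, mul_sum (s := LFIN_L φ q A B s0 D)]
  rw [e1]
  refine H37.SM.Reg.add ?_ ?_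
  · refine H37.SM.Reg.sum _ _ fun T _ => ?_
    refine H37.SM.Reg.mul (H37.SM.Reg.mul (LFIN_pow _) (H37.SM.reg_natCast _)) ?_
    refine H37.SM.Reg.sum _ _ fun Δ hΔ => ?_
    rw [mem_filter, mem_filter] at hΔ
    exact lnc_reg hL hΔ.1.1 hΔ.2 T
  · refine H37.SM.Reg.sum _ _ fun Λ hΛ => ?_
    exact lcl hL Vt e heA heB Λ (LFIN_isLam hL hΛ) (H Λ (LFIN_isLam hL hΛ))

end Pool.Agent.H37.T6
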