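import Pool.Agent.H37.T6.LDV
import Pool.Agent.H37.SM.ZRG

/-!
# LNC: regular terms; the expansion at `s0`

`lreg_inv`: `LaR φ q A B Δ o = C α + C β * X` with `α + β s0 = laC ≠ 0`: `H37.SM.reg_iff` with numerator `1` and denominator `C α + C β * X`.
`lreg_VL`: the same for `VL A B z`, whose value at `s0` is not zero (`TSP_VL`).
`lnc_reg`: `LLt` is the product of `M⁻¹` (a constant: `ZID_regInv` of T5, file ZID, or `reg_iff`), and inverses of `LaR Δ none`, `LaR Δ (some ω)`, `ω ∈ Δ \ Ξ ⊆ Δ`, not vanishing at `s0` by `hL.lnc`.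
`lcr1`: `lexpP` for `f = phq q φ`, `σ = insertNone Δ` with `Finset.sum_insertNone`; the coefficient at `none` is `laC none = 0`; the other terms are `∑_{ω∈Δ} laC (some ω) φ_ω = ∑_ω (if ω ∈ Δ ...) φ_ω`.
`lcr2`: `IsLam` and the support condition: `A + B s0 = 0 • q + ∑_{ω∈Δ} Λ ω φ_ω`, so by `luniq` (`c none = 0`, `c (some ω) = Λ ω`): `laC none = 0` and `Λ ω = laC (some ω)` for `ω ∈ Δ`; `Λ ω = 0` for `ω ∉ Δ`.
-/

set_option autoImplicit false

namespace Pool.Agent.H37.T6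

open Finset H60.RegTri
open Pool.Agent.H37.T5

variable {κ Ω : Type} [Fintype κ] [DecidableEq κ] [Fintype Ω] [DecidableEq Ω]
  {φ : Ω → κ → ℤ} {A B q : κ → ℤ} {s0 : ℂ} {D : Finset (Finset Ω)}

theorem LNC_lin {a b : ℂ} (h : a + b * s0 ≠ 0) :
    H37.SM.Reg s0 (RatFunc.C a + RatFunc.C b * RatFunc.X)⁻¹ := by
  rw [H37.SM.reg_iff]
  refine ⟨1, Polynomial.C a + Polynomial.C b * Polynomial.X, ?_, ?_⟩
  · rw [Polynomial.eval_add, Polynomial.eval_mul, Polynomial.eval_C, Polynomial.eval_C,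
      Polynomial.eval_X]
    exact h
  · rw [map_one, map_add, map_mul, RatFunc.algebraMap_C, RatFunc.algebraMap_C,
      RatFunc.algebraMap_X, one_div]

theorem LNC_one : H37.SM.Reg s0 1 := by
  have h := H37.SM.reg_natCast (s0 := s0) 1
  rwa [Nat.cast_one] at h

theorem LNC_prod {α : Type} [DecidableEq α] (T : Finset α) (f : α → RatFunc ℂ)
    (h : ∀ i ∈ T, H37.SM.Reg s0 (f i)) : H37.SM.Reg s0 (∏ i ∈ T, f i) := by
  induction T using Finset.induction_on with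
  | empty =>
    rw [Finset.prod_empty]
    exact LNC_one
  | insert i T hi ih =>
    rw [Finset.prod_insert hi]
    exact (h i (Finset.mem_insert_self i T)).mul
      (ih fun j hj => h j (Finset.mem_insert_of_mem hj))

theorem lreg_inv {Δ : Finset Ω} {o : Option Ω} (hn : laC φ q A B s0 Δ o ≠ 0) :
    H37.SM.Reg s0 (LaR φ q A B Δ o)⁻¹ := by
  unfold laC at hn
  unfold LaR cE
  exact LNC_lin hn

theorem lreg_VL {z : κ → ℤ} (hn : ¬ IsCr A B s0 z) : H37.SM.Reg s0 (VL A B z)⁻¹ := by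
  have h1 : VL A B z = RatFunc.C ((pr A z : ℤ) : ℂ) + RatFunc.C ((pr B z : ℤ) : ℂ) * RatFunc.X := by
    rw [VL, map_intCast, map_intCast]
  rw [h1]
  exact LNC_lin hn

theorem lreg_natinv (m : ℕ) : H37.SM.Reg s0 ((m : RatFunc ℂ)⁻¹) := by
  rw [H37.SM.reg_iff]
  refine ⟨Polynomial.C ((m : ℂ)⁻¹), 1, by simp, ?_⟩
  rw [map_one, div_one, RatFunc.algebraMap_C, map_inv₀, map_natCast]

theorem lnc_reg (hL : LS φ q A B s0 D) {Δ : Finset Ω} (hΔ : Δ ∈ D)
    (hn : laC φ q A B s0 Δ none ≠ 0) (Ξ : Finset Ω) : H37.SM.Reg s0 (LLt φ q A B Δ Ξ) := by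
  unfold LLt
  refine ((lreg_natinv _).mul (lreg_inv hn)).mul (LNC_prod _ _ ?_)
  intro ω hω
  exact lreg_inv (hL.lnc Δ hΔ hn ω (Finset.mem_sdiff.1 hω).1)

theorem LNC_card (hL : LS φ q A B s0 D) {Δ : Finset Ω} (hΔ : Δ ∈ D) :
    (insertNone Δ).card = Fintype.card κ := by
  rw [Finset.card_insertNone]
  exact hL.card Δ hΔ

theorem LNC_exp (hL : LS φ q A B s0 D) {Δ : Finset Ω} (hΔ : Δ ∈ D) (j : κ) :
    (A j : ℂ) + (B j : ℂ) * s0 = laC φ q A B s0 Δ none * (q j : ℂ) +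
      ∑ ω ∈ Δ, laC φ q A B s0 Δ (some ω) * (φ ω j : ℂ) := by
  have h := lexpP (phq q φ) (insertNone Δ) (hL.ind Δ hΔ) (LNC_card hL hΔ) A B s0 j
  rw [Finset.sum_insertNone] at h
  exact h

theorem lcr1 (hL : LS φ q A B s0 D) {Δ : Finset Ω} (hΔ : Δ ∈ D)
    (h0 : laC φ q A B s0 Δ none = 0) :
    IsLam φ A B s0 (fun ω => if ω ∈ Δ then laC φ q A B s0 Δ (some ω) else 0) := by
  intro j
  rw [LNC_exp hL hΔ j, h0, zero_mul, zero_add]
  simp only [ite_mul, zero_mul]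
  rw [Finset.sum_ite_mem, Finset.univ_inter]

theorem lcr2 (hL : LS φ q A B s0 D) {Δ : Finset Ω} (hΔ : Δ ∈ D) (Λ : Ω → ℂ)
    (hΛ : IsLam φ A B s0 Λ) (hs : ∀ ω, Λ ω ≠ 0 → ω ∈ Δ) :
    laC φ q A B s0 Δ none = 0 ∧
      Λ = fun ω => if ω ∈ Δ then laC φ q A B s0 Δ (some ω) else 0 := by
  have h := luniq (phq q φ) (insertNone Δ) (hL.ind Δ hΔ) (LNC_card hL hΔ) A B s0
    (fun o => o.elim 0 Λ) (by
      intro j
      rw [Finset.sum_insertNone]
      simp only [Option.elim_none, Option.elim_some, zero_mul, zero_add, phq_some]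
      rw [hΛ j]
      symm
      refine Finset.sum_subset (Finset.subset_univ Δ) ?_
      intro ω _ hω
      have : Λ ω = 0 := by
        by_contra h1
        exact hω (hs ω h1)
      rw [this, zero_mul])
  constructor
  · have h1 := h none Finset.none_mem_insertNone
    simp only [Option.elim_none] at h1
    exact h1.symm
  · funext ω
    by_cases hω : ω ∈ Δ
    · rw [if_pos hω]
      have h1 := h (some ω) (Finset.some_mem_insertNone.2 hω)
      simp only [Option.elim_some] at h1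
      exact h1
    · rw [if_neg hω]
      by_contra h1
      exact hω (hs ω h1)

end Pool.Agent.H37.T6
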