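import Pool.Agent.H37.T6.LWZ
import Pool.Agent.H37.T6.LNC

/-!
# LWR: `W` of a cluster is regular

`D' = DL D Λ`, `S = {ω : Λ ω ≠ 0}` (contained in every `Δ ∈ D'`).  Induction on `card κ - Ξ.card` (strong, for all `Ξ`).  If no `Δ ∈ D'` contains `Ξ`: the sum is empty, `reg_zero`.
Case 1: `S ⊆ Ξ`.  The elements of `D` containing `Ξ` are in `D'`, so `WWs D' Ξ = WWs D Ξ`.  If `Ξ.card + 2 ≤ card κ` this is `0` (`lwz`).  Otherwise `Ξ = Δ` (`Δ.card + 1 = card κ`), `Δ` is the only element of `D` containing it (cardinality), and `WWt Δ Δ = M⁻¹` is regular (`lreg_natinv`).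
Case 2: there is `ω0 ∈ S`, `ω0 ∉ Ξ`.  Let `Δ ∈ D'`, `Ξ ⊆ Δ`; `ω0 ∈ Δ`.  `z` from `ldv` (`f = phq q φ`, `σ = insertNone Δ`, `b = some ω0`): `φ_ω0(z) > 0`, `q(z) = 0`, `φ_ω(z) = 0` on `Ξ`.  `lexpC`: the value of `V(z)` at `s0` is `laC Δ (some ω0) * φ_ω0(z)`, and `laC Δ (some ω0) = Λ ω0 ≠ 0` (`lcr2`): `¬ IsCr A B s0 z`.
`lrelW` (`D' ⊆ D`): `VL A B z * WWs D' Ξ = ∑_{ω ∉ Ξ} φ_ω(z) * WWs D' (insert ω Ξ)`, regular by induction (`Ξ.card < card κ`); multiply by `(VL A B z)⁻¹` (`lreg_VL`; `VL A B z ≠ 0` since its value at `s0` is not `0`: e.g. `VL_eq_zero`).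
-/

set_option autoImplicit false

namespace Pool.Agent.H37.T6

open Finset H60.RegTri
open Pool.Agent.H37.T5

variable {κ Ω : Type} [Fintype κ] [DecidableEq κ] [Fintype Ω] [DecidableEq Ω]
  {φ : Ω → κ → ℤ} {A B q : κ → ℤ} {s0 : ℂ} {D : Finset (Finset Ω)}

omit [DecidableEq κ] in
theorem LWR_VL_ne {z : κ → ℤ} (hn : ¬ IsCr A B s0 z) : VL A B z ≠ 0 := by
  intro h
  apply hn
  have h0 : VL A B z = algebraMap (Polynomial ℂ) (RatFunc ℂ)
      (Polynomial.C (pr A z : ℂ) + Polynomial.C (pr B z : ℂ) * Polynomial.X) := by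
    rw [VL, map_add, map_mul, RatFunc.algebraMap_X, map_intCast, map_intCast, map_intCast,
      map_intCast]
  rw [h0] at h
  have h1 : (Polynomial.C (pr A z : ℂ) + Polynomial.C (pr B z : ℂ) * Polynomial.X) = 0 :=
    RatFunc.algebraMap_injective ℂ (by rw [h, map_zero])
  have h2 := congrArg (Polynomial.eval s0) h1
  simpa [IsCr] using h2

theorem lwr (hL : LS φ q A B s0 D) (Λ : Ω → ℂ) (hΛ : IsLam φ A B s0 Λ) (Ξ : Finset Ω) :
    H37.SM.Reg s0 (WWs φ q A B (DL D Λ) Ξ) := by
  classical
  have main : ∀ n : ℕ, ∀ Ξ : Finset Ω, Fintype.card κ - Ξ.card = n →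
      H37.SM.Reg s0 (WWs φ q A B (DL D Λ) Ξ) := by
    intro n
    induction n using Nat.strong_induction_on with
    | _ n ih =>
      intro Ξ hn
      by_cases hex : ∃ Δ ∈ DL D Λ, Ξ ⊆ Δ
      swap
      · have he : (DL D Λ).filter (fun Δ => Ξ ⊆ Δ) = ∅ := by
          apply filter_eq_empty_iff.mpr
          intro Δ hΔ hs
          exact hex ⟨Δ, hΔ, hs⟩
        rw [WWs, he, sum_empty]
        exact H37.SM.reg_zero
      obtain ⟨Δ, hΔ', hsub⟩ := hex
      have hΔ := (mem_DL.1 hΔ').1
      have hS := (mem_DL.1 hΔ').2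
      have hcard := hL.card Δ hΔ
      have hle := card_le_card hsub
      by_cases hc : ∀ ω, Λ ω ≠ 0 → ω ∈ Ξ
      · have hf : (DL D Λ).filter (fun Δ => Ξ ⊆ Δ) = D.filter (fun Δ => Ξ ⊆ Δ) := by
          ext Δ2
          rw [mem_filter, mem_filter, mem_DL]
          constructor
          · rintro ⟨⟨h1, _⟩, h3⟩
            exact ⟨h1, h3⟩
          · rintro ⟨h1, h3⟩
            exact ⟨⟨h1, fun ω hω => h3 (hc ω hω)⟩, h3⟩
        have hW : WWs φ q A B (DL D Λ) Ξ = WWs φ q A B D Ξ := by rw [WWs, WWs, hf]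
        by_cases h2 : Ξ.card + 2 ≤ Fintype.card κ
        · rw [hW, lwz hL Ξ h2]
          exact H37.SM.reg_zero
        · have heq : Ξ = Δ := eq_of_subset_of_card_le hsub (by omega)
          have hf2 : D.filter (fun Δ2 => Ξ ⊆ Δ2) = {Δ} := by
            ext Δ2
            rw [mem_filter, mem_singleton]
            constructor
            · rintro ⟨h1, h3⟩
              rw [heq] at h3
              exact (eq_of_subset_of_card_le h3 (by have := hL.card Δ2 h1; omega)).symm
            · intro h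
              rw [h]
              exact ⟨hΔ, hsub⟩
          rw [hW, WWs, hf2, sum_singleton, WWt, heq, Finset.sdiff_self, prod_empty, mul_one]
          exact lreg_natinv _
      · push Not at hc
        obtain ⟨ω0, hω0, hn0⟩ := hc
        have hω0Δ := hS ω0 hω0
        have hind := hL.ind Δ hΔ
        obtain ⟨z, hz1, hz2⟩ := ldv (phq q φ) (insertNone Δ) hind (some ω0)
          (by rw [some_mem_insertNone]; exact hω0Δ)
        have hq0 : pr q z = 0 := hz2 none none_mem_insertNone (by simp)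
        have hφ0 : ∀ ω ∈ Ξ, pr (φ ω) z = 0 := fun ω hω =>
          hz2 (some ω) (by rw [some_mem_insertNone]; exact hsub hω) (by
            intro h
            rw [Option.some.injEq] at h
            exact hn0 (h ▸ hω))
        have hncr : ¬ IsCr A B s0 z := by
          intro hcr
          have hcd : (insertNone Δ).card = Fintype.card κ := by rw [card_insertNone]; omega
          have h1 := lexpC (phq q φ) (insertNone Δ) hind hcd A B z s0
          rw [sum_eq_single (some ω0)] at h1
          · have h3 := (lcr2 hL hΔ Λ hΛ hS).2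
            have h4 : Λ ω0 = laC φ q A B s0 Δ (some ω0) := by
              have h5 := congrFun h3 ω0
              rw [h5]
              exact if_pos hω0Δ
            have h6 : (0 : ℂ) = laC φ q A B s0 Δ (some ω0) *
                ((pr (phq q φ (some ω0)) z : ℤ) : ℂ) := by
              rw [← hcr]
              exact h1
            rcases mul_eq_zero.1 h6.symm with h7 | h7
            · exact hω0 (h4.trans h7)
            · have h8 : pr (phq q φ (some ω0)) z = 0 := by exact_mod_cast h7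
              omega
          · intro o ho hne
            rw [hz2 o ho hne]
            simp
          · intro h
            exact absurd (by rw [some_mem_insertNone]; exact hω0Δ) h
        have hVne : VL A B z ≠ 0 := LWR_VL_ne hncr
        have hrel := lrelW hL (DL D Λ) (fun Δ2 h => (mem_DL.1 h).1) Ξ z hφ0 hq0
        have he : WWs φ q A B (DL D Λ) Ξ = (VL A B z)⁻¹ * ∑ ω ∈ univ \ Ξ,
            (pr (φ ω) z : RatFunc ℂ) * WWs φ q A B (DL D Λ) (insert ω Ξ) := by
          rw [← hrel, inv_mul_cancel_left₀ hVne]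
        rw [he]
        refine (lreg_VL hncr).mul (H37.SM.Reg.sum _ _ fun ω hω => ?_)
        refine (H37.SM.reg_intCast _).mul (ih _ ?_ (insert ω Ξ) rfl)
        have hω2 : ω ∉ Ξ := (mem_sdiff.1 hω).2
        rw [card_insert_of_notMem hω2]
        omega
  exact main _ Ξ rfl

end Pool.Agent.H37.T6
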