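import Pool.Agent.H37.T6.LREL
import Pool.Agent.H37.T6.LADJ

/-!
# LWZ: `W(Ξ) = 0`

Induction on `card κ - Ξ.card` (strong, for all `Ξ`).  If no `Δ ∈ D` contains `Ξ` the sum is empty.  Let `Δ ∈ D`, `Ξ ⊆ Δ` (`Δ.card + 1 = card κ`).  If `Ξ.card + 2 = card κ`: `Δ \ Ξ = {ω}`, `Ξ = Δ.erase ω`: `ladj`.
If `Ξ.card + 3 ≤ card κ`: choose `ω0 ∈ Δ \ Ξ` and `z` from `ldv` for `f = phq q φ`, `σ = insertNone Δ`, `b = some ω0`: `φ_ω0(z) > 0`, `q(z) = 0`, `φ_ω(z) = 0` for `ω ∈ Δ`, `ω ≠ ω0`, in particular on `Ξ`.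
By `lexp` `VL A B z = LaR Δ (some ω0) * φ_ω0(z) ≠ 0` (`hL.lnz`).  `lrelW` with `D' = D`: `VL A B z * WWs D Ξ = ∑_{ω ∉ Ξ} φ_ω(z) * WWs D (insert ω Ξ) = 0` by induction.
-/

set_option autoImplicit false

namespace Pool.Agent.H37.T6

open Finset H60.RegTri
open Pool.Agent.H37.T5

variable {κ Ω : Type} [Fintype κ] [DecidableEq κ] [Fintype Ω] [DecidableEq Ω]
  {φ : Ω → κ → ℤ} {A B q : κ → ℤ} {s0 : ℂ} {D : Finset (Finset Ω)}

theorem lwz (hL : LS φ q A B s0 D) (Ξ : Finset Ω) (hΞ : Ξ.card + 2 ≤ Fintype.card κ) :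
    WWs φ q A B D Ξ = 0 := by
  generalize hn : Fintype.card κ - Ξ.card = n
  induction n using Nat.strong_induction_on generalizing Ξ with
  | _ n ih =>
    by_cases hex : ∃ Δ ∈ D, Ξ ⊆ Δ
    · obtain ⟨Δ, hΔ, hsub⟩ := hex
      have hcΔ := hL.card Δ hΔ
      rcases Nat.lt_or_ge (Ξ.card + 2) (Fintype.card κ) with h3 | h3
      · have hss : ∃ ω0 ∈ Δ, ω0 ∉ Ξ := by
          have : Ξ.card < Δ.card := by omega
          exact exists_mem_notMem_of_card_lt_card this
        obtain ⟨ω0, hω0, hω0n⟩ := hss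
        have hω0' : some ω0 ∈ insertNone Δ := by rw [some_mem_insertNone]; exact hω0
        obtain ⟨z, hz1, hz2⟩ := ldv (phq q φ) (insertNone Δ) (hL.ind Δ hΔ) (some ω0) hω0'
        have hq : pr q z = 0 := hz2 none (none_mem_insertNone) (fun h => by cases h)
        have hzΞ : ∀ ω ∈ Ξ, pr (φ ω) z = 0 := fun ω hω =>
          hz2 (some ω) (by rw [some_mem_insertNone]; exact hsub hω)
            (fun h => hω0n (by rw [← Option.some_inj.1 h]; exact hω))
        have hV : VL A B z = LaR φ q A B Δ (some ω0) * (pr (φ ω0) z : RatFunc ℂ) := by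
          rw [lexp (phq q φ) (insertNone Δ) (hL.ind Δ hΔ) (by rw [card_insertNone, hcΔ]) A B z]
          rw [sum_eq_single (some ω0)]
          · rfl
          · intro i hi hne
            rw [hz2 i hi hne, Int.cast_zero, mul_zero]
          · intro h
            exact absurd hω0' h
        have hz1' : 0 < pr (φ ω0) z := hz1
        have hV0 : VL A B z ≠ 0 := by
          rw [hV]
          refine mul_ne_zero ((hL.lnz Δ hΔ).2 ω0 hω0) ?_
          exact_mod_cast hz1'.ne'
        have hrel := lrelW hL D (Subset.refl _) Ξ z hzΞ hq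
        rw [sum_eq_zero] at hrel
        · exact (mul_eq_zero.1 hrel).resolve_left hV0
        · intro ω hω
          have hωn : ω ∉ Ξ := (mem_sdiff.1 hω).2
          have hc1 : (insert ω Ξ).card = Ξ.card + 1 := card_insert_of_notMem hωn
          rw [ih (Fintype.card κ - (insert ω Ξ).card) (by omega) (insert ω Ξ) (by omega) rfl,
            mul_zero]
      · have hone : (Δ \ Ξ).card = 1 := by
          rw [card_sdiff_of_subset hsub]; omega
        obtain ⟨ω, hω⟩ := card_eq_one.1 hone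
        have hωm : ω ∈ Δ \ Ξ := by rw [hω]; exact mem_singleton_self ω
        have he : Ξ = Δ.erase ω := by
          ext x
          rw [mem_erase]
          constructor
          · intro hx
            exact ⟨fun h => (mem_sdiff.1 hωm).2 (h ▸ hx), hsub hx⟩
          · rintro ⟨hx1, hx2⟩
            by_contra hx3
            have : x ∈ Δ \ Ξ := mem_sdiff.2 ⟨hx2, hx3⟩
            rw [hω, mem_singleton] at this
            exact hx1 this
        rw [he]
        exact ladj hL hΔ (mem_sdiff.1 hωm).1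
    · unfold WWs
      have he : D.filter (fun Δ => Ξ ⊆ Δ) = ∅ := by
        rw [filter_eq_empty_iff]
        exact fun Δ hΔ h => hex ⟨Δ, hΔ, h⟩
      rw [he, sum_empty]

end Pool.Agent.H37.T6
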