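import Pool.Agent.H37.T6.TDefs
import Pool.Agent.H60.ConeExist

/-!
# RCOV: the primal triangulation covers the cone

Let `f = phq q φ`.  `rform`: `y` from `hR.zt.pt` (`φ_ω·y > 0`); the real vector `y` is in the cone, `y = ∑ x_i v_i`, `x ≥ 0` (`gen`); not all `x_i` are `0`: otherwise `y = 0`, impossible if there is an `ω`; and there is an `ω`, because otherwise `hR.zt.sp` says that all `y` are `0`, contradicting `hR.kp`.  So `q·y = ∑ x_i (q·v_i) > 0` (`qpos`).  The form is `x ↦ ∑ x_j y_j`.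
`rspan`: `insertNone Δ` is independent with `card κ` elements (`mem_DD`): `rdim` with `Ξ = ∅`.
`rfull`: the `vR f o` span `κ → ℝ` (an `y` orthogonal to all of them is `0` by `sp`; e.g. the orthogonal complement, or `LinearIndependent` of a maximal subfamily and `ZLOC_surj`; or `Module.finrank`), so `σ` (independent, spanning) has `card κ` elements (`H60.ConeExist.card_eq_finrank`) and spans everything; if `none ∉ σ` then `vR f none = ∑ β vR f` and `hσ.2.2 none` contradicts `hR.gtop`.  `insertNone (eraseNone σ) = insert none σ = σ`; `mem_DD`.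
`rcov`: `cover_upper` for `f`, `g`, `τ = univ`, the form, and `y` (in `cCone (vR f) univ`: coefficients `x` on `some ω`, `0` at `none`); then `rfull`; the coefficients on `insertNone Δ` are `≥ 0`; put `c = 0` elsewhere.  `rdd_ne`: `rcov` for `y = 0`.
-/

set_option autoImplicit false

namespace Pool.Agent.H37.T6

open Finset H60.RegTri
open Pool.Agent.H37.T5

variable {ι κ Ω : Type} [Fintype ι] [DecidableEq ι] [Fintype κ] [DecidableEq κ] [Fintype Ω]
  [DecidableEq Ω] {v : ι → κ → ℤ} {φ : Ω → κ → ℤ} {A B q : κ → ℤ} {s0 : ℂ}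
  {g : Option Ω → ℝ} {h : ι → ℝ}

omit [DecidableEq ι] [DecidableEq κ] [DecidableEq Ω] in
theorem rform (hR : RS v φ A B q g h) :
    ∃ ℓ : (κ → ℝ) →ₗ[ℝ] ℝ, ∀ o : Option Ω, 0 < ℓ (vR (phq q φ) o) := by
  obtain ⟨y, hy⟩ := hR.zt.pt
  obtain ⟨y', hy'⟩ : ∃ y' : κ → ℝ, y' = fun j => (y j : ℝ) := ⟨_, rfl⟩
  have hpr : ∀ x : κ → ℤ, prR x y' = (pr x y : ℝ) := by
    intro x
    rw [hy']
    simp only [prR, pr]
    push_cast
    rfl
  have hφy : ∀ ω, 0 < prR (φ ω) y' := by
    intro ω
    rw [hpr]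
    exact_mod_cast hy ω
  -- there is a functional
  have hne : Nonempty Ω := by
    by_contra hcon
    rw [not_nonempty_iff] at hcon
    have h1 := hR.zt.sp (fun _ => 1) (fun ω => (hcon.false ω).elim)
    have h2 : 0 < Fintype.card κ := hR.kp
    obtain ⟨j⟩ := Fintype.card_pos_iff.1 h2
    have h3 := congrFun h1 j
    simp at h3
  obtain ⟨ω₀⟩ := hne
  obtain ⟨x, hx, hxy⟩ := hR.zt.gen y' (fun ω => (hφy ω).le)
  have hqy : 0 < prR q y' := by
    rw [hxy, ZLOC_prR_sum]
    have hex : ∃ i, 0 < x i := by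
      by_contra hcon
      push Not at hcon
      have hx0 : ∀ i, x i = 0 := fun i => le_antisymm (hcon i) (hx i)
      have h1 : y' = 0 := by
        rw [hxy]
        exact sum_eq_zero fun i _ => by rw [hx0 i, zero_smul]
      have h2 := hφy ω₀
      rw [h1] at h2
      simp [prR] at h2
    obtain ⟨i₀, hi₀⟩ := hex
    refine sum_pos' (fun i _ => mul_nonneg (hx i) ?_) ⟨i₀, mem_univ _, mul_pos hi₀ ?_⟩
    · exact_mod_cast (hR.qpos i).le
    · exact_mod_cast hR.qpos i₀
  refine ⟨{ toFun := fun z => ∑ j, z j * y' j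
            map_add' := fun a b => by
              simp only [Pi.add_apply, add_mul, sum_add_distrib]
            map_smul' := fun a b => by
              simp only [Pi.smul_apply, smul_eq_mul, mul_sum, RingHom.id_apply, mul_assoc] }, ?_⟩
  intro o
  cases o with
  | none => exact hqy
  | some ω => exact hφy ω

omit [DecidableEq κ] [DecidableEq Ω] in
theorem rspan {Δ : Finset Ω} (hΔ : Δ ∈ DD φ q g) (y : κ → ℝ) :
    ∃ β : Option Ω → ℝ, y = ∑ o ∈ insertNone Δ, β o • vR (phq q φ) o := by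
  obtain ⟨⟨-, hind, -⟩, hc⟩ := mem_DD.1 hΔ
  refine rdim (phq q φ) φ (∅ : Finset Ω) (insertNone Δ) ?_ hind ?_ ?_ y ?_
  · rw [coe_empty]
    exact linearIndepOn_empty ℝ _
  · intro _ _ ω hω
    exact absurd hω (notMem_empty ω)
  · rw [card_insertNone, card_empty, add_zero]
    exact hc
  · intro ω hω
    exact absurd hω (notMem_empty ω)

omit [DecidableEq ι] [DecidableEq κ] [DecidableEq Ω] in
theorem rfull (hR : RS v φ A B q g h) {σ : Finset (Option Ω)}
    (hσ : UpperOn (vR (phq q φ)) g univ σ)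
    (hf : ∀ l, vR (phq q φ) l ∈ Submodule.span ℝ (vR (phq q φ) '' (σ : Set (Option Ω)))) :
    ∃ Δ ∈ DD φ q g, σ = insertNone Δ := by
  classical
  have htop : Submodule.span ℝ (vR (phq q φ) '' (σ : Set (Option Ω))) = ⊤ := by
    by_contra hne
    obtain ⟨f, hf0, hfk⟩ := Submodule.exists_le_ker_of_lt_top _ (lt_top_iff_ne_top.2 hne)
    have hfe : ∀ z : κ → ℝ, f z = ∑ j, z j * f (Pi.single j 1) := by
      intro z
      conv_lhs => rw [pi_eq_sum_univ' z, map_sum]
      refine sum_congr rfl fun j _ => ?_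
      rw [map_smul, smul_eq_mul]
    have h1 : (fun j => f (Pi.single j 1)) = 0 := by
      refine hR.zt.sp _ fun ω => ?_
      have h2 : f (vR (phq q φ) (some ω)) = 0 := hfk (hf (some ω))
      rw [hfe] at h2
      exact h2
    apply hf0
    ext j
    have h2 := congrFun h1 j
    simpa using h2
  have hcard : σ.card = Fintype.card κ := by
    rw [Pool.Agent.H60.ConeExist.card_eq_finrank _ σ hσ.2.1, htop, finrank_top,
      Module.finrank_fintype_fun_eq_card]
  have hnone : none ∈ σ := by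
    by_contra hn
    obtain ⟨β, hβ⟩ := (mem_span_iff _ σ _).1 (hf none)
    have h1 := hσ.2.2 none (mem_univ _) hn β hβ
    have h2 := hR.gtop σ hn hσ.2.1 β hβ
    linarith
  have hins : insertNone (eraseNone σ) = σ := by
    rw [insertNone_eraseNone, insert_eq_of_mem hnone]
  refine ⟨eraseNone σ, mem_DD.2 ⟨?_, ?_⟩, hins.symm⟩
  · rw [hins]
    exact hσ
  · rw [← card_insertNone, hins, hcard]

omit [DecidableEq ι] [DecidableEq κ] [DecidableEq Ω] in
theorem rcov (hR : RS v φ A B q g h) (y : κ → ℝ) (x : Ω → ℝ) (hx : ∀ ω, 0 ≤ x ω)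
    (hy : y = ∑ ω, x ω • vR φ ω) :
    ∃ Δ ∈ DD φ q g, ∃ c : Option Ω → ℝ, (∀ o, 0 ≤ c o) ∧
      y = ∑ o ∈ insertNone Δ, c o • vR (phq q φ) o := by
  classical
  obtain ⟨ℓ, hℓ⟩ := rform hR
  have hyc : y ∈ cCone (vR (phq q φ)) univ := by
    refine ⟨fun o => o.elim 0 x, fun o _ => ?_, ?_⟩
    · cases o with
      | none => exact le_refl _
      | some ω => exact hx ω
    · rw [hy, Fintype.sum_option]
      simp only [Option.elim_none, Option.elim_some, zero_smul, zero_add]
      rfl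
  obtain ⟨σ, hσ, hf, c, hc, hyc⟩ := cover_upper (vR (phq q φ)) g univ ℓ (fun o _ => hℓ o)
    (hR.ggen univ) y hyc
  obtain ⟨Δ, hΔ, rfl⟩ := rfull hR hσ (fun l => hf l (mem_univ l))
  refine ⟨Δ, hΔ, fun o => if o ∈ insertNone Δ then c o else 0, fun o => ?_, ?_⟩
  · show 0 ≤ (if o ∈ insertNone Δ then c o else 0)
    split_ifs with h1
    · exact hc o h1
    · exact le_refl _
  · rw [hyc]
    refine sum_congr rfl fun o ho => ?_
    show _ = (if o ∈ insertNone Δ then c o else 0) • vR (phq q φ) o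
    rw [if_pos ho]

omit [DecidableEq ι] [DecidableEq κ] [DecidableEq Ω] in
theorem rdd_ne (hR : RS v φ A B q g h) : (DD φ q g).Nonempty := by
  obtain ⟨Δ, hΔ, -⟩ := rcov hR 0 (fun _ => 0) (fun _ => le_refl _) (by simp)
  exact ⟨Δ, hΔ⟩

end Pool.Agent.H37.T6
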