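import Pool.Agent.H37.T6.RCOV

/-!
# REXT: extension of a full upper simplex of a face

`G = Gx φ v σ` = the functionals vanishing on `σ` (`mem_Gxs`); `x0 = ∑_{i∈σ} v_i`: `φ_ω(x0) = 0` for `ω ∈ G` and `φ_ω(x0) > 0` for `ω ∉ G` (`nn`), `q(x0) > 0` (`qpos`, `hne`).  `g' ω = g (some ω)`.
`y0 = ∑_{ω∈Ξ} φ_ω`.  `rcov` gives `Δ ∈ DD`, `c ≥ 0`, `y0 = ∑_{o ∈ insertNone Δ} c_o f_o` (`f = phq q φ`).  Pair with `x0`: `0 = c none * q(x0) + ∑_{ω∈Δ} c (some ω) φ_ω(x0)` with nonnegative terms: `c none = 0` and `c (some ω) = 0` for `ω ∈ Δ`, `ω ∉ G`.  Let `σ' = {ω ∈ Δ : 0 < c (some ω)} ⊆ G`, so `y0 = ∑_{ω∈σ'} c (some ω) φ_ω`.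
`Ξ` spans `G`: for `l ∈ G` `vR φ l` is a combination of `Ξ`: `rdim` with the roles exchanged (`v := φ`, `φ := v`, `Ξ := σ`, `σ := Ξ`, `pr_cm`).
`height_le (vR φ) g' G Ξ σ'` (`hup`): `∑_{σ'} c g' ≤ ∑_Ξ g'`.  `height_le (vR f) g univ (insertNone Δ) (Ξ.map some)` (`mem_DD`, `rspan`): `∑_Ξ g' ≤ ∑_{insertNone Δ} c g = ∑_{σ'} c g'` and, since equality holds by the first inequality, `Ξ.map some ⊆ insertNone Δ`, i.e. `Ξ ⊆ Δ`.
-/

set_option autoImplicit false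

namespace Pool.Agent.H37.T6

open Finset H60.RegTri
open Pool.Agent.H37.T5

variable {ι κ Ω : Type} [Fintype ι] [DecidableEq ι] [Fintype κ] [DecidableEq κ] [Fintype Ω]
  [DecidableEq Ω] {v : ι → κ → ℤ} {φ : Ω → κ → ℤ} {A B q : κ → ℤ} {s0 : ℂ}
  {g : Option Ω → ℝ} {h : ι → ℝ}

theorem rext (hR : RS v φ A B q g h) (Ξ : Finset Ω) (σ : Finset ι)
    (hΞ : LinearIndepOn ℝ (vR φ) (Ξ : Set Ω)) (hσ : LinearIndepOn ℝ (vR v) (σ : Set ι))
    (hσΞ : σ ⊆ Gx v φ Ξ) (hc : σ.card + Ξ.card = Fintype.card κ) (hne : σ.Nonempty)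
    (hup : UpperOn (vR φ) (fun ω => g (some ω)) (Gx φ v σ) Ξ) : InT φ q g Ξ := by
  classical
  -- the point `x0` and the pairing with it
  obtain ⟨x0, hx0⟩ : ∃ x0 : κ → ℝ, x0 = ∑ i ∈ σ, (1 : ℝ) • vR v i := ⟨_, rfl⟩
  have hprx : ∀ z : κ → ℤ, prR z x0 = ∑ i ∈ σ, (pr z (v i) : ℝ) := by
    intro z
    rw [hx0]
    simp only [one_smul]
    have h1 : ∀ s : Finset ι, prR z (∑ i ∈ s, vR v i) = ∑ i ∈ s, (pr z (v i) : ℝ) := by
      intro s
      induction s using Finset.induction_on with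
      | empty => simp [prR]
      | insert a s ha ih => rw [sum_insert ha, sum_insert ha, ZLOC_prR_add, ih, prR_vR]
    exact h1 σ
  have hG0 : ∀ ω, ω ∈ Gx φ v σ → prR (φ ω) x0 = 0 := by
    intro ω hω
    rw [hprx]
    exact sum_eq_zero fun i hi => by rw [mem_Gxs.1 hω i hi, Int.cast_zero]
  have hG1 : ∀ ω, ω ∉ Gx φ v σ → 0 < prR (φ ω) x0 := by
    intro ω hω
    rw [hprx]
    rw [mem_Gxs] at hω
    push Not at hω
    obtain ⟨i, hi, hne'⟩ := hω
    refine sum_pos' (fun i _ => by exact_mod_cast hR.zt.nn i ω) ⟨i, hi, ?_⟩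
    have h1 := hR.zt.nn i ω
    have h2 : 0 < pr (φ ω) (v i) := lt_of_le_of_ne h1 (Ne.symm hne')
    exact_mod_cast h2
  have hq0 : 0 < prR q x0 := by
    rw [hprx]
    exact sum_pos (fun i _ => by exact_mod_cast hR.qpos i) hne
  have hΞG : Ξ ⊆ Gx φ v σ := sub_Gxs.1 hσΞ
  let P : (κ → ℝ) →ₗ[ℝ] ℝ :=
    { toFun := fun z => ∑ j, z j * x0 j
      map_add' := fun a b => by
        simp only [Pi.add_apply, add_mul, sum_add_distrib]
      map_smul' := fun a b => by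
        simp only [Pi.smul_apply, smul_eq_mul, mul_sum, RingHom.id_apply, mul_assoc] }
  have hPn : P (vR (phq q φ) none) = prR q x0 := rfl
  have hPs : ∀ ω, P (vR (phq q φ) (some ω)) = prR (φ ω) x0 := fun ω => rfl
  have hPφ : ∀ ω, P (vR φ ω) = prR (φ ω) x0 := fun ω => rfl
  -- the vector `y0` and its coefficients
  obtain ⟨y0, hy0⟩ : ∃ y0 : κ → ℝ, y0 = ∑ ω ∈ Ξ, (1 : ℝ) • vR φ ω := ⟨_, rfl⟩
  obtain ⟨Δ, hΔ, c, hc0, hyc⟩ := rcov hR y0 (fun ω => if ω ∈ Ξ then 1 else 0)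
    (fun ω => by
      show (0 : ℝ) ≤ (if ω ∈ Ξ then 1 else 0)
      split_ifs
      · exact zero_le_one
      · exact le_refl _)
    (by
      rw [hy0]
      simp only [ite_smul, zero_smul, one_smul]
      rw [sum_ite_mem, univ_inter])
  have hsum0 : ∑ o ∈ insertNone Δ, c o * P (vR (phq q φ) o) = 0 := by
    have h1 : P y0 = ∑ o ∈ insertNone Δ, c o * P (vR (phq q φ) o) := by
      rw [hyc, map_sum]
      exact sum_congr rfl fun o _ => by rw [map_smul, smul_eq_mul]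
    rw [← h1, hy0, map_sum]
    exact sum_eq_zero fun ω hω => by rw [map_smul, hPφ, hG0 ω (hΞG hω), smul_zero]
  have hPnn : ∀ o, 0 ≤ P (vR (phq q φ) o) := by
    intro o
    cases o with
    | none => rw [hPn]; exact hq0.le
    | some ω =>
      rw [hPs]
      by_cases h1 : ω ∈ Gx φ v σ
      · exact (hG0 ω h1).ge
      · exact (hG1 ω h1).le
  have hzero := (sum_eq_zero_iff_of_nonneg
    (fun o _ => mul_nonneg (hc0 o) (hPnn o))).1 hsum0
  have hcn : c none = 0 := by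
    have h1 := hzero none none_mem_insertNone
    rcases mul_eq_zero.1 h1 with h2 | h2
    · exact h2
    · rw [hPn] at h2
      exact absurd h2 hq0.ne'
  have hcG : ∀ ω ∈ Δ, ω ∉ Gx φ v σ → c (some ω) = 0 := by
    intro ω hω hG
    have h1 := hzero (some ω) (some_mem_insertNone.2 hω)
    rcases mul_eq_zero.1 h1 with h2 | h2
    · exact h2
    · rw [hPs] at h2
      exact absurd h2 (hG1 ω hG).ne'
  obtain ⟨σ', hσ'⟩ : ∃ σ' : Finset Ω, σ' = Δ.filter (fun ω => 0 < c (some ω)) := ⟨_, rfl⟩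
  have hσ'G : σ' ⊆ Gx φ v σ := by
    intro ω hω
    rw [hσ', mem_filter] at hω
    by_contra hG
    have := hcG ω hω.1 hG
    linarith [hω.2]
  -- sums over `insertNone Δ` with coefficients `c`
  have key : ∀ (M : Type) [AddCommGroup M] [Module ℝ M] (F : Option Ω → M),
      ∑ o ∈ insertNone Δ, c o • F o = ∑ ω ∈ σ', c (some ω) • F (some ω) := by
    intro M _ _ F
    rw [sum_insertNone, hcn, zero_smul, zero_add, hσ', sum_filter]
    refine sum_congr rfl fun ω _ => ?_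
    by_cases h1 : 0 < c (some ω)
    · rw [if_pos h1]
    · rw [if_neg h1]
      have h2 : c (some ω) = 0 := le_antisymm (not_lt.1 h1) (hc0 _)
      rw [h2, zero_smul]
  have hy' : y0 = ∑ ω ∈ σ', c (some ω) • vR φ ω := by
    rw [hyc, key (κ → ℝ) (fun o => vR (phq q φ) o)]
    rfl
  -- the first comparison
  have h1 := (height_le (vR φ) (fun ω => g (some ω)) (Gx φ v σ) Ξ σ' hup ?_ hσ'G
    (fun _ => 1) (fun ω => c (some ω)) ?_ (hy0.symm.trans hy')).1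
  rotate_left
  · intro l hl
    rw [mem_span_iff]
    refine rdim φ v σ Ξ hσ hΞ ?_ (by rw [add_comm]; exact hc) (vR φ l) ?_
    · intro ω hω i hi
      rw [pr_cm]
      exact mem_Gxs.1 (hΞG hω) i hi
    · intro i hi
      rw [prR_vR, pr_cm, mem_Gxs.1 hl i hi, Int.cast_zero]
  · intro ω hω
    rw [hσ', mem_filter] at hω
    exact hω.2
  -- the second comparison
  have hΔ' := mem_DD.1 hΔ
  have h2 := (height_le (vR (phq q φ)) g univ (insertNone Δ) (Ξ.map Function.Embedding.some)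
    hΔ'.1 ?_ (subset_univ _) c (fun _ => 1) ?_ ?_).2
  rotate_left
  · intro l _
    rw [mem_span_iff]
    exact rspan hΔ (vR (phq q φ) l)
  · intro i _
    exact zero_lt_one
  · rw [← hyc, hy0, sum_map]
    rfl
  have h3 : ∑ o ∈ insertNone Δ, c o * g o = ∑ ω ∈ σ', c (some ω) * g (some ω) :=
    key ℝ (fun o => g o)
  have h4 : ∑ i ∈ Ξ.map Function.Embedding.some, (1 : ℝ) * g i =
      ∑ ω ∈ Ξ, (1 : ℝ) * g (some ω) := by
    rw [sum_map]
    rfl
  rw [h3, h4] at h2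
  refine ⟨Δ, hΔ, fun ω hω => ?_⟩
  have h5 := h2 h1 (mem_map_of_mem Function.Embedding.some hω)
  exact some_mem_insertNone.1 h5

end Pool.Agent.H37.T6
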