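import Pool.Agent.H37.T6.TDefs
import Pool.Agent.H22.G11

/-!
# RFA: the functional of a boundary wall (Farkas)

`σ` is independent with `card κ - Ξ.card` elements in `Gx v φ Ξ` (`mem_TT`).  `L : (κ → ℝ) →ₗ ℝ` with `L (vR v b) = 1` and `L (vR v t) = 0` for the other `t ∈ σ` (extend a linear map from the independent family, see `zfac_ext` in T5, file ZFAC).
Claim: `L y ≥ 0` for all `y` with `φ_ω(y) ≥ 0` for all `ω` and `φ_ω(y) = 0` for `ω ∈ Ξ`: by `tcone` `y = ∑ x_i v_i`, `x_i ≥ 0`, `x_i = 0` outside `Gx v φ Ξ`; for `i ∈ Gx v φ Ξ` `vR v i` is a combination of `σ` (`rdim`, `prR_vR`) with coefficient `L (vR v i) = cf (vR v) σ (vR v i) b ≥ 0` at `b` (`hno`).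
Farkas (`H22.farkas`) for the functionals `prR (φ ω)`, `ω : Ω`, and `-prR (φ ω)`, `ω ∈ Ξ` (index type `Ω ⊕ Ω`, or two copies), which are `≥ 0` exactly at these `y`: `L = ∑_ω c_ω prR (φ ω) - ∑_{ω∈Ξ} c'_ω prR (φ ω)` with `c, c' ≥ 0`.
At `v_b`: `1 = ∑_ω c_ω φ_ω(v_b)` (`φ_ω(v_b) = 0` for `ω ∈ Ξ`), so there is `ω` with `c_ω > 0`, `φ_ω(v_b) > 0`.  At `v_t`, `t ∈ σ.erase b`: `0 = ∑_ω' c_ω' φ_ω'(v_t)` with nonnegative terms, so `φ_ω(v_t) = 0`.
-/

set_option autoImplicit false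

namespace Pool.Agent.H37.T6

open Finset H60.RegTri
open Pool.Agent.H37.T5

variable {ι κ Ω : Type} [Fintype ι] [DecidableEq ι] [Fintype κ] [DecidableEq κ] [Fintype Ω]
  [DecidableEq Ω] {v : ι → κ → ℤ} {φ : Ω → κ → ℤ} {A B q : κ → ℤ} {s0 : ℂ}
  {g : Option Ω → ℝ} {h : ι → ℝ}

/-- the pairing as a linear map -/
noncomputable def RFA_lin (x : κ → ℤ) : (κ → ℝ) →ₗ[ℝ] ℝ where
  toFun y := prR x y
  map_add' y z := by
    simp only [prR, Pi.add_apply, mul_add, sum_add_distrib]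
  map_smul' k y := by
    simp only [prR, Pi.smul_apply, smul_eq_mul, RingHom.id_apply, mul_sum]
    exact sum_congr rfl fun j _ => by ring

omit [Fintype ι] [DecidableEq ι] [Fintype κ] [DecidableEq κ] in
/-- linear functionals with prescribed values on independent vectors -/
theorem RFA_ext (w : ι → κ → ℝ) (σ : Finset ι) (hσ : LinearIndepOn ℝ w (σ : Set ι))
    (f : ι → ℝ) : ∃ L : (κ → ℝ) →ₗ[ℝ] ℝ, ∀ i ∈ σ, L (w i) = f i := by
  have hli : LinearIndependent ℝ (fun i : (σ : Set ι) => w i) := hσ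
  let F : Submodule.span ℝ (Set.range (fun i : (σ : Set ι) => w i)) →ₗ[ℝ] ℝ :=
    (Finsupp.linearCombination ℝ (fun i : (σ : Set ι) => f i)).comp hli.repr
  obtain ⟨L, hL⟩ := LinearMap.exists_extend F
  refine ⟨L, fun i hi => ?_⟩
  have hmem : w i ∈ Submodule.span ℝ (Set.range (fun i : (σ : Set ι) => w i)) :=
    Submodule.subset_span ⟨⟨i, hi⟩, rfl⟩
  have h1 : L (w i) = F ⟨w i, hmem⟩ := by
    rw [← hL]; rfl
  have h2 : hli.repr ⟨w i, hmem⟩ = Finsupp.single (⟨i, hi⟩ : (σ : Set ι)) 1 :=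
    hli.repr_eq_single ⟨i, hi⟩ ⟨w i, hmem⟩ rfl
  rw [h1]
  show Finsupp.linearCombination ℝ (fun i : (σ : Set ι) => f i) (hli.repr ⟨w i, hmem⟩) = f i
  rw [h2, Finsupp.linearCombination_single, one_smul]

omit [DecidableEq κ] in
theorem rfa (hZ : ZT v φ A B) (Ξ : Finset Ω) (hΞ : LinearIndepOn ℝ (vR φ) (Ξ : Set Ω))
    (σ : Finset ι) (hσ : σ ∈ TT v φ h Ξ) (b : ι) (hb : b ∈ σ)
    (hno : ∀ u ∈ Gx v φ Ξ, 0 ≤ cf (vR v) σ (vR v u) b) :
    ∃ ω, 0 < pr (φ ω) (v b) ∧ ∀ t ∈ σ.erase b, pr (φ ω) (v t) = 0 := by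
  classical
  obtain ⟨⟨hσG, hσi, hσu⟩, hcard⟩ := mem_TT.1 hσ
  have hG : ∀ i ∈ σ, ∀ ω ∈ Ξ, pr (φ ω) (v i) = 0 := fun i hi ω hω => mem_Gx.1 (hσG hi) ω hω
  have hspan := rdim v φ Ξ σ hΞ hσi hG hcard
  obtain ⟨L, hL⟩ := RFA_ext (vR v) σ hσi (fun i => if i = b then 1 else 0)
  have hLb : L (vR v b) = 1 := by rw [hL b hb, if_pos rfl]
  have hLt : ∀ t ∈ σ.erase b, L (vR v t) = 0 := by
    intro t ht
    rw [hL t (Finset.mem_erase.1 ht).2, if_neg (Finset.mem_erase.1 ht).1]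
  -- `L` is the coefficient
  have hLcf : ∀ y : κ → ℝ, (∀ ω ∈ Ξ, prR (φ ω) y = 0) → L y = cf (vR v) σ y b := by
    intro y hy
    have h1 := cf_sum (hspan y hy)
    conv_lhs => rw [h1]
    rw [map_sum]
    have h2 : ∀ i ∈ σ, L (cf (vR v) σ y i • vR v i) = if i = b then cf (vR v) σ y b else 0 := by
      intro i hi
      rw [map_smul, hL i hi]
      split_ifs with h3
      · rw [h3]; simp
      · simp
    rw [Finset.sum_congr rfl h2, Finset.sum_ite_eq' σ b, if_pos hb]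
  have hG0 : ∀ u ∈ Gx v φ Ξ, ∀ ω ∈ Ξ, prR (φ ω) (vR v u) = 0 := by
    intro u hu ω hω
    rw [prR_vR, mem_Gx.1 hu ω hω]
    simp
  have hLG : ∀ u ∈ Gx v φ Ξ, 0 ≤ L (vR v u) := by
    intro u hu
    rw [hLcf _ (hG0 u hu)]
    exact hno u hu
  have hL0 : ∀ y : κ → ℝ, (∀ ω, 0 ≤ prR (φ ω) y) → (∀ ω ∈ Ξ, prR (φ ω) y = 0) → 0 ≤ L y := by
    intro y hy hyΞ
    obtain ⟨x, hx0, hxG, hxy⟩ := tcone hZ Ξ y hy hyΞ
    rw [hxy, map_sum]
    refine Finset.sum_nonneg fun i _ => ?_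
    rw [map_smul, smul_eq_mul]
    by_cases hi : i ∈ Gx v φ Ξ
    · exact mul_nonneg (hx0 i) (hLG i hi)
    · rw [hxG i hi, zero_mul]
  -- Farkas
  obtain ⟨c, hc, hv⟩ := H22.farkas ((univ : Finset Ω).disjSum Ξ)
    (Sum.elim (fun ω => RFA_lin (φ ω)) (fun ω => -RFA_lin (φ ω))) L (by
      intro w hw
      have h1 : ∀ ω, 0 ≤ prR (φ ω) w := fun ω =>
        hw (Sum.inl ω) (Finset.inl_mem_disjSum.2 (mem_univ ω))
      have h2 : ∀ ω ∈ Ξ, 0 ≤ -prR (φ ω) w := fun ω hω =>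
        hw (Sum.inr ω) (Finset.inr_mem_disjSum.2 hω)
      exact hL0 w h1 fun ω hω => le_antisymm (by linarith [h2 ω hω]) (h1 ω))
  have hexp : ∀ y : κ → ℝ, (∀ ω ∈ Ξ, prR (φ ω) y = 0) →
      L y = ∑ ω, c (Sum.inl ω) * prR (φ ω) y := by
    intro y hy
    have h1 := congrArg (fun f : (κ → ℝ) →ₗ[ℝ] ℝ => f y) hv
    simp only [Finset.sum_disjSum, Sum.elim_inl, Sum.elim_inr, LinearMap.add_apply,
      LinearMap.coe_sum, Finset.sum_apply, LinearMap.smul_apply, LinearMap.neg_apply,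
      smul_eq_mul] at h1
    rw [h1]
    have h2 : ∑ ω ∈ Ξ, c (Sum.inr ω) * -RFA_lin (φ ω) y = 0 := by
      refine Finset.sum_eq_zero fun ω hω => ?_
      have h3 : RFA_lin (φ ω) y = 0 := hy ω hω
      rw [h3, neg_zero, mul_zero]
    rw [h2, add_zero]
    rfl
  have hc0 : ∀ ω, 0 ≤ c (Sum.inl ω) := fun ω =>
    hc (Sum.inl ω) (Finset.inl_mem_disjSum.2 (mem_univ ω))
  have hprn : ∀ ω t, 0 ≤ prR (φ ω) (vR v t) := by
    intro ω t
    rw [prR_vR]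
    exact_mod_cast hZ.nn t ω
  obtain ⟨ω, -, hωpos⟩ : ∃ ω ∈ (univ : Finset Ω), 0 < c (Sum.inl ω) * prR (φ ω) (vR v b) := by
    have h1 := hexp (vR v b) (hG0 b (hσG hb))
    rw [hLb] at h1
    by_contra hcon
    push Not at hcon
    have h2 := Finset.sum_nonpos hcon
    linarith
  have hcpos : 0 < c (Sum.inl ω) := by
    rcases (hc0 ω).lt_or_eq with h1 | h1
    · exact h1
    · rw [← h1, zero_mul] at hωpos
      exact absurd hωpos (lt_irrefl _)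
  refine ⟨ω, ?_, fun t ht => ?_⟩
  · have h1 : 0 < prR (φ ω) (vR v b) := by
      rcases (hprn ω b).lt_or_eq with h1 | h1
      · exact h1
      · rw [← h1, mul_zero] at hωpos
        exact absurd hωpos (lt_irrefl _)
    rw [prR_vR] at h1
    exact_mod_cast h1
  · have h1 := hexp (vR v t) (hG0 t (hσG (Finset.mem_erase.1 ht).2))
    rw [hLt t ht] at h1
    have h2 := (Finset.sum_eq_zero_iff_of_nonneg (fun ω' _ =>
      mul_nonneg (hc0 ω') (hprn ω' t))).1 h1.symm ω (mem_univ ω)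
    rcases mul_eq_zero.1 h2 with h3 | h3
    · exact absurd h3 hcpos.ne'
    · rw [prR_vR] at h3
      exact_mod_cast h3

end Pool.Agent.H37.T6
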