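import Pool.Agent.H37.T6.RFA
import Pool.Agent.H37.T6.REXT
import Pool.Agent.H37.T5.ZEXT

/-!
# RFB: the unique functional of a boundary wall in the primal triangulation

`Ξ` is independent (`rint hΞ`), `σ` is a basis of `K = {y : φ_Ξ(y) = 0}` (`rdim`, `mem_TT`), `σ.card ≥ 2` (`hc`).  Put `τ = σ.erase b` (not empty), `G' = Gx φ v τ` = the functionals vanishing on `τ`, `ψ = prR`-pairing with `v b`: for functionals `ψ (vR φ ω) = pr (φ ω) (v b) ≥ 0` (as a linear map on `κ → ℝ`: `x ↦ ∑ j, x j * v b j`).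
`zext` (T5, file ZEXT) with `v := vR φ`, `h := fun ω => g (some ω)` (generic: `hR.ggen`, a relation between the `vR φ ω` is a relation between the `vR (phq q φ) (some ω)`), `G := G'`, `τ := Ξ`:
`hpos`: `rfa`; `hτG`: `Ξ ⊆ G'` and `φ_ω(v_b) = 0` on `Ξ` (`σ ⊆ Gx v φ Ξ`); the upperness: `(rint hΞ).2.2`; `hspan`: for `u ∈ G'` with `ψ > 0`: `insert u Ξ` is independent (`ψ` vanishes on `Ξ`), vanishes on `τ` and `τ.card + (Ξ.card + 1) = card κ`: every `l ∈ G'` is a combination of `insert u Ξ` by `rdim` with exchanged roles (`v := φ`, `φ := v`, `Ξ := τ`, `σ := insert u Ξ`).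
So there is `ω ∈ G'`, `φ_ω(v_b) > 0`, `UpperOn G' (insert ω Ξ)`, unique.  `ω ∉ Ξ` since `φ_ω(v_b) ≠ 0`.  `rext` for `insert ω Ξ` and `τ`: `InT (insert ω Ξ)`.
`τ ∈ TT (insert ω Ξ)`: `τ ⊆ Gx v φ (insert ω Ξ)`, the cardinality; upperness: a relation of `l ∈ Gx v φ (insert ω Ξ) ⊆ Gx v φ Ξ`, `l ∉ τ`, with `τ` is a relation with `σ` with coefficient `0` at `b` (and `l ≠ b` as `φ_ω(v_b) ≠ 0`).
Uniqueness: `ω' ∉ Ξ` vanishing on `τ`, `InT (insert ω' Ξ)`: `insert ω' Ξ` is independent (`rint`); `φ_ω'(v_b) > 0`: otherwise `φ_ω'` vanishes on `σ`, so on `K` (`rdim`), but there is `y` with `φ_Ξ(y) = 0`, `φ_ω'(y) = 1` (`ZLOC_surj`).  `(rint _).2.2 G'` gives `UpperOn G' (insert ω' Ξ)`, so `ω' = ω` by the uniqueness in `zext`.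
-/

set_option autoImplicit false

namespace Pool.Agent.H37.T6

open Finset H60.RegTri
open Pool.Agent.H37.T5

variable {ι κ Ω : Type} [Fintype ι] [DecidableEq ι] [Fintype κ] [DecidableEq κ] [Fintype Ω]
  [DecidableEq Ω] {v : ι → κ → ℤ} {φ : Ω → κ → ℤ} {A B q : κ → ℤ} {s0 : ℂ}
  {g : Option Ω → ℝ} {h : ι → ℝ}

omit [DecidableEq ι] [DecidableEq κ] [DecidableEq Ω] in
theorem RFB_gen (hR : RS v φ A B q g h) (T : Finset Ω) :
    GenericOn (vR φ) (fun ω => g (some ω)) T := by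
  intro σ _ hσ l _ hl β hβ
  have hind : LinearIndepOn ℝ (vR (phq q φ))
      ((σ.map Function.Embedding.some : Finset (Option Ω)) : Set (Option Ω)) := by
    rw [linearIndepOn_finset_iff] at hσ ⊢
    intro d hd o ho
    rw [sum_map] at hd
    obtain ⟨ω, hω, rfl⟩ := mem_map.1 ho
    exact hσ (fun ω => d (some ω)) hd ω hω
  have h1 := hR.ggen univ (σ.map Function.Embedding.some) (subset_univ _) hind (some l)
    (mem_univ _) (by simpa using hl) (fun o => o.elim 0 β) (by rw [sum_map]; exact hβ)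
  rw [sum_map] at h1
  exact h1

theorem rfb (hR : RS v φ A B q g h) (Ξ : Finset Ω) (hΞ : InT φ q g Ξ)
    (hc : Ξ.card + 2 ≤ Fintype.card κ) (σ : Finset ι) (hσ : σ ∈ TT v φ h Ξ) (b : ι) (hb : b ∈ σ)
    (hno : ∀ u ∈ Gx v φ Ξ, 0 ≤ cf (vR v) σ (vR v u) b) :
    ∃ ω, ω ∉ Ξ ∧ 0 < pr (φ ω) (v b) ∧ (∀ t ∈ σ.erase b, pr (φ ω) (v t) = 0) ∧
      InT φ q g (insert ω Ξ) ∧ σ.erase b ∈ TT v φ h (insert ω Ξ) ∧
      ∀ ω', ω' ∉ Ξ → (∀ t ∈ σ.erase b, pr (φ ω') (v t) = 0) → InT φ q g (insert ω' Ξ) →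
        ω' = ω := by
  obtain ⟨hΞi, hΞc, hΞup⟩ := rint hΞ
  obtain ⟨⟨hσG, hσi, hσup⟩, hσc⟩ := mem_TT.1 hσ
  have hτc : (σ.erase b).card + 1 = σ.card := card_erase_add_one hb
  have hτi : LinearIndepOn ℝ (vR v) ((σ.erase b : Finset ι) : Set ι) :=
    hσi.mono (by exact_mod_cast erase_subset b σ)
  have hτG : σ.erase b ⊆ Gx v φ Ξ := (erase_subset b σ).trans hσG
  have hΞG : Ξ ⊆ Gx φ v (σ.erase b) := sub_Gxs.1 hτG
  have hΞb : ∀ ω ∈ Ξ, pr (φ ω) (v b) = 0 := fun ω hω => mem_Gx.1 (hσG hb) ω hω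
  let ψ : (κ → ℝ) →ₗ[ℝ] ℝ :=
    { toFun := fun x => ∑ j, x j * (v b j : ℝ)
      map_add' := fun x y => by simp only [Pi.add_apply, add_mul, sum_add_distrib]
      map_smul' := fun c x => by
        simp only [Pi.smul_apply, smul_eq_mul, RingHom.id_apply, mul_sum, mul_assoc] }
  have hψ : ∀ ω, ψ (vR φ ω) = (pr (φ ω) (v b) : ℝ) := by
    intro ω
    show ∑ j, (φ ω j : ℝ) * (v b j : ℝ) = _
    rw [pr]
    push_cast
    rfl
  have hψnn : ∀ l ∈ Gx φ v (σ.erase b), 0 ≤ ψ (vR φ l) := fun l _ => by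
    rw [hψ l]
    exact_mod_cast hR.zt.nn b l
  have hpos : ∃ u ∈ Gx φ v (σ.erase b), 0 < ψ (vR φ u) := by
    obtain ⟨u, hu1, hu2⟩ := rfa hR.zt Ξ hΞi σ hσ b hb hno
    refine ⟨u, mem_Gxs.2 hu2, ?_⟩
    rw [hψ u]
    exact_mod_cast hu1
  have hspan : ∀ u ∈ Gx φ v (σ.erase b), 0 < ψ (vR φ u) → ∀ l ∈ Gx φ v (σ.erase b),
      ∃ β : Ω → ℝ, vR φ l = ∑ i ∈ insert u Ξ, β i • vR φ i := by
    intro u hu hu0 l hl
    have huΞ : u ∉ Ξ := fun h1 => by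
      rw [hψ u, hΞb u h1] at hu0
      simp at hu0
    have hi : LinearIndepOn ℝ (vR φ) ((insert u Ξ : Finset Ω) : Set Ω) :=
      ZEXT_ind (vR φ) ψ Ξ (fun l hl => by rw [hψ l, hΞb l hl, Int.cast_zero]) hΞi u hu0.ne'
    refine rdim φ v (σ.erase b) (insert u Ξ) hτi hi ?_ ?_ (vR φ l) ?_
    · intro i hi t ht
      rw [pr_cm]
      rcases mem_insert.1 hi with rfl | hi
      · exact mem_Gxs.1 hu t ht
      · exact mem_Gxs.1 (hΞG hi) t ht
    · rw [card_insert_of_notMem huΞ]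
      omega
    · intro t ht
      rw [prR_vR, pr_cm, mem_Gxs.1 hl t ht, Int.cast_zero]
  obtain ⟨ω, hωG, hωb, hωup, hωuniq⟩ := zext (vR φ) (fun ω => g (some ω)) (RFB_gen hR)
    (Gx φ v (σ.erase b)) ψ hψnn hpos Ξ
    (fun l hl => ⟨hΞG hl, by rw [hψ l, hΞb l hl, Int.cast_zero]⟩)
    ⟨hΞi, fun l hl _ hlΞ β hβ => (hΞup _ hΞG).2.2 l hl hlΞ β hβ⟩ hspan
  have hωb' : 0 < pr (φ ω) (v b) := by
    rw [hψ ω] at hωb
    exact_mod_cast hωb
  have hωΞ : ω ∉ Ξ := fun h1 => by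
    rw [hΞb ω h1] at hωb'
    exact lt_irrefl _ hωb'
  have hωτ : ∀ t ∈ σ.erase b, pr (φ ω) (v t) = 0 := mem_Gxs.1 hωG
  have hsub : σ.erase b ⊆ Gx v φ (insert ω Ξ) := sub_Gxs.2 (insert_subset hωG hΞG)
  have hcard : (σ.erase b).card + (insert ω Ξ).card = Fintype.card κ := by
    rw [card_insert_of_notMem hωΞ]
    omega
  refine ⟨ω, hωΞ, hωb', hωτ, ?_, ?_, ?_⟩
  · exact rext hR (insert ω Ξ) (σ.erase b) hωup.2.1 hτi hsub hcard
      (card_pos.1 (by omega)) hωup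
  · refine mem_TT.2 ⟨⟨hsub, hτi, ?_⟩, hcard⟩
    intro l hl hlτ β hβ
    have hlΞ : l ∈ Gx v φ Ξ := Gx_mono (subset_insert ω Ξ) hl
    have hlσ : l ∉ σ := by
      intro h1
      have h2 : l = b := by
        by_contra h3
        exact hlτ (mem_erase.2 ⟨h3, h1⟩)
      have h3 := mem_Gx.1 hl ω (mem_insert_self ω Ξ)
      rw [h2] at h3
      exact hωb'.ne' h3
    have key : ∀ (M : Type) [AddCommGroup M] [Module ℝ M] (f : ι → M),
        ∑ i ∈ σ, (if i = b then 0 else β i) • f i = ∑ i ∈ σ.erase b, β i • f i := by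
      intro M _ _ f
      conv_lhs => rw [← insert_erase hb, sum_insert (notMem_erase b σ)]
      rw [if_pos rfl, zero_smul, zero_add]
      exact sum_congr rfl fun i hi => by rw [if_neg (ne_of_mem_erase hi)]
    have h1 := hσup l hlΞ hlσ (fun i => if i = b then 0 else β i)
      (hβ.trans (key (κ → ℝ) (vR v)).symm)
    have h2 := key ℝ h
    simp only [smul_eq_mul] at h2
    rw [h2] at h1
    exact h1
  · intro ω' hω'Ξ hω'τ hI'
    obtain ⟨hi', -, hup'⟩ := rint hI'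
    have hω'G : ω' ∈ Gx φ v (σ.erase b) := mem_Gxs.2 hω'τ
    have hω'b : pr (φ ω') (v b) ≠ 0 := by
      intro h0
      have hz : ∀ t ∈ σ, pr (φ ω') (v t) = 0 := by
        intro t ht
        by_cases htb : t = b
        · rw [htb]; exact h0
        · exact hω'τ t (mem_erase.2 ⟨htb, ht⟩)
      obtain ⟨β, hβ⟩ := rdim φ v σ Ξ hσi hΞi
        (fun i hi t ht => by rw [pr_cm]; exact mem_Gxs.1 (sub_Gxs.1 hσG hi) t ht) (by omega)
        (vR φ ω') (fun t ht => by rw [prR_vR, pr_cm, hz t ht, Int.cast_zero])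
      rw [coe_insert, linearIndepOn_insert (by exact_mod_cast hω'Ξ)] at hi'
      exact hi'.2 ((mem_span_iff (vR φ) Ξ (vR φ ω')).2 ⟨β, hβ⟩)
    apply hωuniq ω' hω'G
    · rw [hψ ω']
      exact_mod_cast lt_of_le_of_ne (hR.zt.nn b ω') hω'b.symm
    · exact hup' _ (insert_subset hω'G hΞG)

end Pool.Agent.H37.T6
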