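import Pool.Agent.H37.T6.TDefs
import Pool.Agent.H60.ConeExist

/-!
# RFU: existence of full upper simplices of rays

`cover_upper (vR v) h (Gx v φ Ξ) ℓ` with `ℓ = prR q` (positive on the rays: `prR_vR`, `hR.qpos`), `hR.hgen`, and the point `0 ∈ cCone`: an upper `σ'` whose span contains all `vR v i`, `i ∈ Gx v φ Ξ`, in particular those of `σ`, so `σ'.card ≥ σ.card` (`H60.ConeExist.card_eq_finrank`, `Submodule.finrank_mono`).
Conversely the `vR v i`, `i ∈ σ' ⊆ Gx v φ Ξ`, are in the span of `vR v '' σ` by `rdim` (`hΞ`, `hσ`, `hc`), so `σ'.card ≤ σ.card`.  So `σ' ∈ TT v φ h Ξ` (`mem_TT`).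
-/

set_option autoImplicit false

namespace Pool.Agent.H37.T6

open Finset H60.RegTri
open Pool.Agent.H37.T5

variable {ι κ Ω : Type} [Fintype ι] [DecidableEq ι] [Fintype κ] [DecidableEq κ] [Fintype Ω]
  [DecidableEq Ω] {v : ι → κ → ℤ} {φ : Ω → κ → ℤ} {A B q : κ → ℤ} {s0 : ℂ}
  {g : Option Ω → ℝ} {h : ι → ℝ}

omit [DecidableEq κ] [DecidableEq Ω] in
theorem rfu (hR : RS v φ A B q g h) (Ξ : Finset Ω) (hΞ : LinearIndepOn ℝ (vR φ) (Ξ : Set Ω))
    (σ : Finset ι) (hσ : LinearIndepOn ℝ (vR v) (σ : Set ι)) (hσΞ : σ ⊆ Gx v φ Ξ)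
    (hc : σ.card + Ξ.card = Fintype.card κ) : (TT v φ h Ξ).Nonempty := by
  classical
  let ℓ : (κ → ℝ) →ₗ[ℝ] ℝ :=
    { toFun := fun y => prR q y
      map_add' := fun y y' => ZLOC_prR_add _ y y'
      map_smul' := fun C y => ZLOC_prR_smul _ C y }
  obtain ⟨σ', hσ', hsp, -⟩ := cover_upper (vR v) h (Gx v φ Ξ) ℓ
    (by
      intro i _
      show 0 < prR q (vR v i)
      rw [prR_vR]
      exact_mod_cast hR.qpos i)
    (hR.hgen _) 0 ⟨fun _ => 0, fun _ _ => le_rfl, by simp⟩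
  have h1 : Submodule.span ℝ (vR v '' (σ : Set ι)) ≤ Submodule.span ℝ (vR v '' (σ' : Set ι)) := by
    rw [Submodule.span_le]
    rintro _ ⟨i, hi, rfl⟩
    exact hsp i (hσΞ hi)
  have h2 : Submodule.span ℝ (vR v '' (σ' : Set ι)) ≤ Submodule.span ℝ (vR v '' (σ : Set ι)) := by
    rw [Submodule.span_le]
    rintro _ ⟨i, hi, rfl⟩
    refine (mem_span_iff (vR v) σ _).2 (rdim v φ Ξ σ hΞ hσ ?_ hc _ ?_)
    · intro i hi ω hω
      exact mem_Gx.1 (hσΞ hi) ω hω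
    · intro ω hω
      rw [prR_vR, mem_Gx.1 (hσ'.1 hi) ω hω, Int.cast_zero]
  have h3 := le_antisymm h1 h2
  have h4 : σ'.card = σ.card := by
    rw [H60.ConeExist.card_eq_finrank (vR v) σ' hσ'.2.1,
      H60.ConeExist.card_eq_finrank (vR v) σ hσ, h3]
  exact ⟨σ', mem_TT.2 ⟨hσ', by rw [h4]; exact hc⟩⟩

end Pool.Agent.H37.T6
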