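import Pool.Agent.H37.T6.TDefs
import Pool.Agent.H37.T5.ZIN

/-!
# RIN: the interior pairs cancel

Copy the proof of `zin` (T5, file ZIN) with `Cl = univ`; the only place where the hypotheses `ZS` and `hCl` are used there is `zrank` (the elements of `TT Ξ` are bases of `K = {φ_Ξ = 0}`), which is now `rdim` (TDefs) since `Ξ` is independent (`hΞ`, `mem_TT`).
For `p = (σ, b) ∈ PrN`: `zpm` (with `G = Gx Ξ`, `B = σ`) gives a unique `b'` and `σ' = insert b' (σ.erase b)`, upper, `b' ∉ σ`, coefficient `β = cf σ b' b < 0`.  Then `(σ', b') ∈ PrN`: same cardinality, the element `c ≠ b` of `σ` is in `σ'`, `c ≠ b'`; it is interior: `v b = (1/β) v b' + ...` has negative coefficient at `b'`.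
The map `(σ, b) ↦ (σ', b')` is an involution (uniqueness in `zpm`) without fixed points.  Terms: `tmE σ b = mul(σ) P`, `tmE σ' b' = mul(σ') P` with the same product `P`; `mul(σ') = |β| mul(σ) = -β mul(σ)` (`zvol3`), `c_{b'}(σ') = c_b/β` (`ZIN_cf`): the two terms add up to `0`.  `Finset.sum_involution`.
-/

set_option autoImplicit false

namespace Pool.Agent.H37.T6

open Finset H60.RegTri
open Pool.Agent.H37.T5

variable {ι κ Ω : Type} [Fintype ι] [DecidableEq ι] [Fintype κ] [DecidableEq κ] [Fintype Ω]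
  [DecidableEq Ω] {v : ι → κ → ℤ} {φ : Ω → κ → ℤ} {A B q : κ → ℤ} {s0 : ℂ}
  {g : Option Ω → ℝ} {h : ι → ℝ}

theorem rin (hR : RS v φ A B q g h) (Ξ : Finset Ω) (hΞ : LinearIndepOn ℝ (vR φ) (Ξ : Set Ω))
    (e : κ → ℤ) (he : ∀ ω ∈ Ξ, pr (φ ω) e = 0) :
    ∑ p ∈ PrN v φ h univ Ξ, cE v p.1 e p.2 * tmE A B v p.1 p.2 = 0 := by
  classical
  have hfull : ∀ p ∈ PrN v φ h univ Ξ, LinearIndepOn ℝ (vR φ) (Ξ : Set Ω) ∧
      ∀ y : κ → ℝ, (∀ ω ∈ Ξ, prR (φ ω) y = 0) → ∃ β : ι → ℝ, y = ∑ i ∈ p.1, β i • vR v i := by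
    intro p hp
    rw [mem_PrN, mem_PrT, mem_TC, mem_TT] at hp
    obtain ⟨⟨⟨⟨h1, hcard⟩, _⟩, _⟩, _⟩ := hp
    exact ⟨hΞ, fun y hy => rdim v φ Ξ p.1 hΞ h1.2.1
      (fun i hi ω hω => mem_Gx.1 (h1.1 hi) ω hω) hcard y hy⟩
  have hG : ∀ l ∈ Gx v φ Ξ, ∀ ω ∈ Ξ, prR (φ ω) (vR v l) = 0 := by
    intro l hl ω hω
    rw [prR_vR, mem_Gx.1 hl ω hω, Int.cast_zero]
  have key : ∀ p ∈ PrN v φ h univ Ξ, ∃ b' ∈ Gx v φ Ξ, b' ∉ p.1 ∧
      UpperOn (vR v) h (Gx v φ Ξ) (insert b' (p.1.erase p.2)) ∧ cf (vR v) p.1 (vR v b') p.2 < 0 ∧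
      ∀ b'' ∈ Gx v φ Ξ, b'' ∉ p.1 →
        UpperOn (vR v) h (Gx v φ Ξ) (insert b'' (p.1.erase p.2)) → b'' = b' := by
    intro p hp
    have hp' := hp
    rw [mem_PrN, mem_PrT, mem_TC, mem_TT] at hp'
    obtain ⟨⟨⟨⟨h1, _⟩, _⟩, hb, _⟩, hneg⟩ := hp'
    exact zpm (vR v) h hR.hgen (Gx v φ Ξ) p.1 h1 (fun l hl => (hfull p hp).2 _ (hG l hl)) p.2 hb hneg
  choose f hfG hfσ hfU hfneg hfuniq using key
  -- properties of the pair
  have hcf : ∀ (p : Finset ι × ι) (hp : p ∈ PrN v φ h univ Ξ) (y : κ → ℝ),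
      (∀ ω ∈ Ξ, prR (φ ω) y = 0) →
      cf (vR v) (insert (f p hp) (p.1.erase p.2)) y (f p hp) =
        cf (vR v) p.1 y p.2 / cf (vR v) p.1 (vR v (f p hp)) p.2 := by
    intro p hp y hy
    have hp' := hp
    rw [mem_PrN, mem_PrT, mem_TC, mem_TT] at hp'
    obtain ⟨⟨⟨⟨h1, _⟩, _⟩, hb, _⟩, hneg⟩ := hp'
    exact ZIN_cf hb (hfσ p hp) (hfU p hp).2.1
      (cf_sum ((hfull p hp).2 _ (hG _ (hfG p hp)))) (hfneg p hp).ne
      (cf_sum ((hfull p hp).2 y hy))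
  have herase : ∀ (p : Finset ι × ι) (hp : p ∈ PrN v φ h univ Ξ),
      (insert (f p hp) (p.1.erase p.2)).erase (f p hp) = p.1.erase p.2 := by
    intro p hp
    exact Finset.erase_insert fun hmem => hfσ p hp (Finset.mem_of_mem_erase hmem)
  have hins : ∀ (p : Finset ι × ι), p ∈ PrN v φ h univ Ξ → insert p.2 (p.1.erase p.2) = p.1 := by
    intro p hp
    rw [mem_PrN, mem_PrT] at hp
    exact Finset.insert_erase hp.1.2.1
  refine Finset.sum_involution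
    (fun p hp => (insert (f p hp) (p.1.erase p.2), f p hp)) ?_ ?_ ?_ ?_
  · -- the two terms cancel
    intro p hp
    have hp' := hp
    rw [mem_PrN, mem_PrT, mem_TC, mem_TT] at hp'
    obtain ⟨⟨⟨⟨h1, hcard⟩, _⟩, hb, _⟩, hneg⟩ := hp'
    set b' := f p hp with hb'def
    set βb := cf (vR v) p.1 (vR v b') p.2 with hβb
    have hβneg : βb < 0 := hfneg p hp
    have hbτ : p.2 ∉ p.1.erase p.2 := Finset.notMem_erase _ _
    have hb'τ : b' ∉ p.1.erase p.2 := fun hmem => hfσ p hp (Finset.mem_of_mem_erase hmem)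
    have hm := zvol3 v φ (p.1.erase p.2) p.2 b' hbτ hb'τ Ξ
      (by rw [hins p hp]; exact h1.2.1) (hfU p hp).2.1 (hfull p hp).1
      (by
        rw [hins p hp]
        intro i hi ω hω
        exact mem_Gx.1 (h1.1 hi) ω hω)
      (by
        intro i hi ω hω
        exact mem_Gx.1 ((hfU p hp).1 hi) ω hω)
      (by rw [hins p hp]; exact hcard)
      (cf (vR v) p.1 (vR v b')) (by
        rw [hins p hp]
        exact cf_sum ((hfull p hp).2 _ (hG _ (hfG p hp))))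
    rw [hins p hp, ← hβb, abs_of_neg hβneg] at hm
    have hy : ∀ ω ∈ Ξ, prR (φ ω) (fun j => (e j : ℝ)) = 0 := by
      intro ω hω
      have h2 := he ω hω
      unfold pr at h2
      show ∑ j, ((φ ω j : ℝ)) * ((e j : ℝ)) = 0
      exact_mod_cast h2
    have hc2 := hcf p hp _ hy
    rw [← hb'def, ← hβb] at hc2
    simp only [cE, tmE]
    rw [hc2, herase p hp]
    set P := ∏ i ∈ p.1.erase p.2, (VL A B (v i))⁻¹ with hP
    set c := cf (vR v) p.1 (fun j => (e j : ℝ)) p.2 with hc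
    have hmC : ((mulv v (insert b' (p.1.erase p.2)) : ℕ) : RatFunc ℂ) =
        RatFunc.C ((-βb * (mulv v p.1 : ℝ) : ℝ) : ℂ) := by
      rw [← hm]
      simp
    have hmC2 : ((mulv v p.1 : ℕ) : RatFunc ℂ) = RatFunc.C (((mulv v p.1 : ℝ) : ℝ) : ℂ) := by
      simp
    have e1 : RatFunc.C ((c : ℝ) : ℂ) * (RatFunc.C (((mulv v p.1 : ℝ) : ℝ) : ℂ)) +
        RatFunc.C ((c / βb : ℝ) : ℂ) * RatFunc.C ((-βb * (mulv v p.1 : ℝ) : ℝ) : ℂ) = 0 := by
      rw [← map_mul, ← map_mul, ← map_add]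
      have e2 : ((c : ℝ) : ℂ) * (((mulv v p.1 : ℝ) : ℝ) : ℂ) +
          ((c / βb : ℝ) : ℂ) * ((-βb * (mulv v p.1 : ℝ) : ℝ) : ℂ) = 0 := by
        rw [← Complex.ofReal_mul, ← Complex.ofReal_mul, ← Complex.ofReal_add]
        have e3 : c * (mulv v p.1 : ℝ) + c / βb * (-βb * (mulv v p.1 : ℝ)) = 0 := by
          have := hβneg.ne
          field_simp
          ring
        rw [e3, Complex.ofReal_zero]
      rw [e2, map_zero]
    rw [hmC, hmC2]
    calc _ = (RatFunc.C ((c : ℝ) : ℂ) * (RatFunc.C (((mulv v p.1 : ℝ) : ℝ) : ℂ)) +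
        RatFunc.C ((c / βb : ℝ) : ℂ) * RatFunc.C ((-βb * (mulv v p.1 : ℝ) : ℝ) : ℂ)) * P := by ring
      _ = 0 := by rw [e1, zero_mul]
  · -- no fixed points
    intro p hp _ heq
    have h2 : f p hp = p.2 := congrArg Prod.snd heq
    have hp' := hp
    rw [mem_PrN, mem_PrT] at hp'
    exact hfσ p hp (h2 ▸ hp'.1.2.1)
  · -- membership
    intro p hp
    have hp' := hp
    rw [mem_PrN, mem_PrT, mem_TC, mem_TT] at hp'
    obtain ⟨⟨⟨⟨h1, hcard⟩, _⟩, hb, c, hc, hcb, hcl⟩, hneg⟩ := hp'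
    have hb'τ : f p hp ∉ p.1.erase p.2 := fun hmem => hfσ p hp (Finset.mem_of_mem_erase hmem)
    have hcσ' : c ∈ insert (f p hp) (p.1.erase p.2) :=
      Finset.mem_insert_of_mem (Finset.mem_erase.2 ⟨hcb, hc⟩)
    rw [mem_PrN, mem_PrT, mem_TC, mem_TT]
    refine ⟨⟨⟨⟨hfU p hp, ?_⟩, c, hcσ', hcl⟩, Finset.mem_insert_self _ _, c, hcσ', ?_, hcl⟩, ?_⟩
    · rw [Finset.card_insert_of_notMem hb'τ, Finset.card_erase_add_one hb]
      exact hcard
    · rintro rfl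
      exact hfσ p hp hc
    · refine ⟨p.2, h1.1 hb, ?_⟩
      have h2 := hcf p hp (vR v p.2) (hG _ (h1.1 hb))
      have h3 : cf (vR v) p.1 (vR v p.2) p.2 = 1 := by
        rw [cf_eq h1.2.1 (fun i => if i = p.2 then 1 else 0) _ hb]
        · simp
        · simp [hb]
      rw [h3] at h2
      show cf (vR v) (insert (f p hp) (p.1.erase p.2)) (vR v p.2) (f p hp) < 0
      rw [h2]
      exact div_neg_of_pos_of_neg one_pos (hfneg p hp)
  · -- involution
    intro p hp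
    have hp' := hp
    rw [mem_PrN, mem_PrT, mem_TC, mem_TT] at hp'
    obtain ⟨⟨⟨⟨h1, hcard⟩, _⟩, hb, c, hc, hcb, hcl⟩, hneg⟩ := hp'
    have h2 := fun hq => hfuniq (insert (f p hp) (p.1.erase p.2), f p hp) hq p.2 (h1.1 hb)
      (by
        intro hmem
        rcases Finset.mem_insert.1 hmem with h3 | h3
        · exact hfσ p hp (h3 ▸ hb)
        · exact Finset.notMem_erase _ _ h3)
      (by
        show UpperOn (vR v) h (Gx v φ Ξ)
          (insert p.2 ((insert (f p hp) (p.1.erase p.2)).erase (f p hp)))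
        rw [herase p hp, hins p hp]
        exact h1)
    ext1
    · simp only
      rw [← h2, herase p hp, hins p hp]
    · simp only
      rw [← h2]

end Pool.Agent.H37.T6
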