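import Pool.Agent.H37.T6.REXT
import Pool.Agent.H37.T6.RFU
import Pool.Agent.H37.T5.ZPM
import Pool.Agent.H37.T5.ZVOLC

/-!
# RNF: simplices which are not full in their carrier

`Ξ` is independent (`rint`).  If `TT v φ h (insert ω Ξ) = ∅` then `JJ ... (insert ω Ξ) = 0` (`TC` is a subset of `TT`).  So only the `ω ∉ Ξ` with `InT (insert ω Ξ)` and `TT (insert ω Ξ) ≠ ∅` contribute; call them good.  If there is none, the sum is `0`.
Let `ω1` be good and `σ1 ∈ TT (insert ω1 Ξ)`: `σ1` independent, `σ1 ⊆ Gx (insert ω1 Ξ) ⊆ Gx Ξ`, `σ1.card + Ξ.card + 1 = card κ`; `σ1` is not empty (`hc`: `(insert ω1 Ξ).card + 1 ≤ card κ` by `rint`).  (1) Every `vR v i`, `i ∈ Gx Ξ`, is in the span of `vR v '' σ1`: otherwise `insert i σ1` is independent, in `Gx Ξ`, with `card κ - Ξ.card` elements, and `rfu` contradicts `hF`.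
So `φ_ω1` vanishes on `Gx Ξ`.  Let `G = Gx φ v σ1` (functionals vanishing on `σ1`, equivalently on `Gx Ξ`); `insert ω1 Ξ ⊆ G`, it is independent (`rint`) and spans `G` (`rdim` with exchanged roles).  `UpperOn (vR φ) g' G (insert ω1 Ξ)` by `rint`, `g' ω = g (some ω)`.
(2) Some `u ∈ G` has `cf (vR φ) (insert ω1 Ξ) (vR φ u) ω1 < 0`: otherwise take `y1` with `φ_ω1(y1) = 1`, `φ_Ξ(y1) = 0` (`ZLOC_surj`); for `u ∈ G`: `φ_u(y1) = cf ... ≥ 0`.  With `x0 = ∑_{i∈σ1} v_i` (`φ_u(x0) > 0` for `u ∉ G`) and `M` large `y2 = y1 + M x0` is in the cone, `φ_Ξ(y2) = 0`; `tcone`: `y2` is a combination of the `v_i`, `i ∈ Gx Ξ`, so `φ_ω1(y2) = 0`, but `φ_ω1(y2) = 1`.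
(3) `zpm` for `G`, `B = insert ω1 Ξ`, `b = ω1` (`B.erase ω1 = Ξ`): `ω2 ∈ G`, `ω2 ∉ insert ω1 Ξ`, `UpperOn G (insert ω2 Ξ)`, `β = cf (vR φ) (insert ω1 Ξ) (vR φ ω2) ω1 < 0`, and every `ω3 ∈ G`, `ω3 ∉ insert ω1 Ξ` with `UpperOn G (insert ω3 Ξ)` is `ω2`.  `rext` for `insert ω2 Ξ` and `σ1`: `InT (insert ω2 Ξ)`.
(4) Every good `ω` is `ω1` or `ω2`: `σ ∈ TT (insert ω Ξ)` has the same number of elements as `σ1` and is contained in the span of `σ1` by (1), so it spans the same space, `φ_ω` vanishes on `σ1`: `ω ∈ G`, `UpperOn G (insert ω Ξ)` by `rint`; (3).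
(5) `Gx (insert ω1 Ξ) = Gx Ξ = Gx (insert ω2 Ξ)` (`ω1, ω2 ∈ G`, (1)), so `TT` and `TC` agree for the two sets (in particular `ω2` is good).  `pr (φ ω2) z = β pr (φ ω1) z` (`hz`, expand `vR φ ω2` in `insert ω1 Ξ`), `mulv φ (insert ω2 Ξ) = |β| mulv φ (insert ω1 Ξ)` (`zvol3` with `v := φ`, `φ := v`, `τ := Ξ`, `b := ω1`, `b' := ω2`, `Ξ := σ1`).
So the two terms `pr (φ ω) z * (mulv φ (insert ω Ξ))⁻¹ * ∑_{TC} tmv`, `ω = ω1, ω2`, add up to `0`.
-/

set_option autoImplicit false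

namespace Pool.Agent.H37.T6

open Finset H60.RegTri
open Pool.Agent.H37.T5

variable {ι κ Ω : Type} [Fintype ι] [DecidableEq ι] [Fintype κ] [DecidableEq κ] [Fintype Ω]
  [DecidableEq Ω] {v : ι → κ → ℤ} {φ : Ω → κ → ℤ} {A B q : κ → ℤ} {s0 : ℂ}
  {g : Option Ω → ℝ} {h : ι → ℝ}

omit [Fintype ι] [DecidableEq ι] [Fintype Ω] [DecidableEq Ω] [DecidableEq κ] [Fintype κ] in
theorem RNF_gen (hg : ∀ τ, GenericOn (vR (phq q φ)) g τ) (τ : Finset Ω) :
    GenericOn (vR φ) (fun ω => g (some ω)) τ := by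
  intro σ hσ hind l hl hlσ β hβ
  have h1 := hg (τ.map Function.Embedding.some) (σ.map Function.Embedding.some)
    (map_subset_map.2 hσ) ?_ (some l) (by simpa using hl) (by simpa using hlσ)
    (fun o => o.elim 0 β) ?_
  · intro h2
    apply h1
    rw [sum_map]
    exact h2
  · rw [linearIndepOn_finset_iff] at hind ⊢
    intro c hc o ho
    rw [sum_map] at hc
    obtain ⟨ω, hω, rfl⟩ := mem_map.1 ho
    exact hind (fun ω => c (some ω)) hc ω hω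
  · rw [sum_map]
    exact hβ

omit [Fintype ι] [DecidableEq ι] [DecidableEq κ] in
theorem RNF_prR_sum (v : ι → κ → ℤ) (f : κ → ℤ) (σ : Finset ι) (β : ι → ℝ) :
    prR f (∑ j ∈ σ, β j • vR v j) = ∑ j ∈ σ, β j * (pr f (v j) : ℝ) := by
  classical
  induction σ using Finset.induction_on with
  | empty => simp [prR]
  | insert a s ha ih =>
    rw [sum_insert ha, sum_insert ha, ZLOC_prR_add, ZLOC_prR_smul, prR_vR, ih]

omit [Fintype Ω] [DecidableEq Ω] [DecidableEq κ] in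
theorem RNF_fun (φ : Ω → κ → ℤ) (u : Ω) (Ξ : Finset Ω) (c : Ω → ℝ)
    (h : vR φ u = ∑ i ∈ Ξ, c i • vR φ i) (y : κ → ℝ) :
    prR (φ u) y = ∑ i ∈ Ξ, c i * prR (φ i) y := by
  have h1 : ∀ j, (φ u j : ℝ) = ∑ i ∈ Ξ, c i * (φ i j : ℝ) := by
    intro j
    have := congrFun h j
    simpa [vR] using this
  unfold prR
  simp_rw [h1, sum_mul, mul_sum]
  rw [sum_comm]
  exact sum_congr rfl fun i _ => sum_congr rfl fun j _ => by ring

omit [Fintype Ω] [DecidableEq Ω] [DecidableEq κ] in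
theorem RNF_prR_int (f z : κ → ℤ) : prR f (fun j => (z j : ℝ)) = (pr f z : ℝ) := by
  unfold prR pr
  push_cast
  rfl

omit [DecidableEq κ] [DecidableEq Ω] in
/-- The rays in `Gx Ξ` are in the span of `σ1`, so a functional vanishing on `σ1` vanishes there. -/
theorem RNF_van (hR : RS v φ A B q g h) (Ξ : Finset Ω)
    (hΞ : LinearIndepOn ℝ (vR φ) (Ξ : Set Ω)) (hF : TT v φ h Ξ = ∅) (σ1 : Finset ι)
    (hσ : LinearIndepOn ℝ (vR v) (σ1 : Set ι)) (hs : σ1 ⊆ Gx v φ Ξ)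
    (hcard : σ1.card + Ξ.card + 1 = Fintype.card κ) (f : κ → ℤ) (hf : ∀ i ∈ σ1, pr f (v i) = 0)
    {i : ι} (hi : i ∈ Gx v φ Ξ) : pr f (v i) = 0 := by
  have hspan : vR v i ∈ Submodule.span ℝ (vR v '' (σ1 : Set ι)) := by
    by_contra hn
    have hiσ : i ∉ σ1 := fun h1 => hn (Submodule.subset_span ⟨i, h1, rfl⟩)
    have h1 : LinearIndepOn ℝ (vR v) ((insert i σ1 : Finset ι) : Set ι) := by
      rw [coe_insert, linearIndepOn_insert (by simpa using hiσ)]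
      exact ⟨hσ, hn⟩
    have h2 := rfu hR Ξ hΞ (insert i σ1) h1 (insert_subset hi hs)
      (by rw [card_insert_of_notMem hiσ]; omega)
    rw [hF] at h2
    exact not_nonempty_empty h2
  obtain ⟨β, hβ⟩ := (mem_span_iff _ _ _).1 hspan
  have h3 : (pr f (v i) : ℝ) = 0 := by
    rw [← prR_vR, hβ, RNF_prR_sum]
    exact sum_eq_zero fun j hj => by rw [hf j hj, Int.cast_zero, mul_zero]
  exact_mod_cast h3

omit [DecidableEq κ] in
/-- a good functional is beyond some wall -/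
theorem RNF_neg (hR : RS v φ A B q g h) (Ξ : Finset Ω) (hF : TT v φ h Ξ = ∅) (ω1 : Ω)
    (hω1 : ω1 ∉ Ξ) (hI1 : LinearIndepOn ℝ (vR φ) ((insert ω1 Ξ : Finset Ω) : Set Ω))
    (σ1 : Finset ι) (hσ : LinearIndepOn ℝ (vR v) (σ1 : Set ι))
    (hs : σ1 ⊆ Gx v φ (insert ω1 Ξ))
    (hcard : σ1.card + (insert ω1 Ξ).card = Fintype.card κ)
    (hfull : ∀ l ∈ Gx φ v σ1, ∃ β : Ω → ℝ, vR φ l = ∑ i ∈ insert ω1 Ξ, β i • vR φ i) :
    ∃ u ∈ Gx φ v σ1, cf (vR φ) (insert ω1 Ξ) (vR φ u) ω1 < 0 := by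
  by_contra hcon
  push Not at hcon
  have hc1 : (insert ω1 Ξ).card = Ξ.card + 1 := card_insert_of_notMem hω1
  have hI0 : LinearIndepOn ℝ (vR φ) (Ξ : Set Ω) :=
    hI1.mono (by rw [coe_insert]; exact Set.subset_insert _ _)
  have hs0 : σ1 ⊆ Gx v φ Ξ := hs.trans (Gx_mono (subset_insert _ _))
  have hW : LinearIndependent ℝ (fun t : (insert ω1 Ξ : Finset Ω) => vR φ (t : Ω)) := hI1
  obtain ⟨y1, hy1⟩ := ZLOC_surj _ hW (fun t => if (t : Ω) = ω1 then 1 else 0)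
  have hy1' : ∀ o ∈ insert ω1 Ξ, prR (φ o) y1 = if o = ω1 then 1 else 0 :=
    fun o ho => hy1 ⟨o, ho⟩
  have hval : ∀ u ∈ Gx φ v σ1, 0 ≤ prR (φ u) y1 := by
    intro u hu
    have h1 := cf_sum (hfull u hu)
    rw [RNF_fun φ u (insert ω1 Ξ) _ h1 y1]
    rw [sum_congr rfl (fun o ho => by rw [hy1' o ho])]
    simp only [mul_ite, mul_one, mul_zero]
    rw [sum_ite_eq' (insert ω1 Ξ) ω1, if_pos (mem_insert_self _ _)]
    exact hcon u hu
  set Mb : ℝ := ∑ u, |prR (φ u) y1| with hMb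
  set x0 : κ → ℝ := ∑ i ∈ σ1, (1 : ℝ) • vR v i with hx0
  have hx0v : ∀ f : κ → ℤ, prR f x0 = ∑ i ∈ σ1, (pr f (v i) : ℝ) := by
    intro f
    rw [hx0, RNF_prR_sum]
    exact sum_congr rfl fun i _ => one_mul _
  have hx0G : ∀ u ∈ Gx φ v σ1, prR (φ u) x0 = 0 := by
    intro u hu
    rw [hx0v]
    exact sum_eq_zero fun i hi => by rw [mem_Gxs.1 hu i hi, Int.cast_zero]
  have hy2 : ∀ u, 0 ≤ prR (φ u) (y1 + Mb • x0) := by
    intro u
    rw [ZLOC_prR_add, ZLOC_prR_smul]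
    by_cases hu : u ∈ Gx φ v σ1
    · rw [hx0G u hu, mul_zero, add_zero]
      exact hval u hu
    · have h1 : (1 : ℝ) ≤ prR (φ u) x0 := by
        rw [hx0v]
        rw [mem_Gxs] at hu
        push Not at hu
        obtain ⟨i, hi, hne⟩ := hu
        have h2 : ∀ j ∈ σ1, (0 : ℝ) ≤ (pr (φ u) (v j) : ℝ) := fun j _ => by
          exact_mod_cast hR.zt.nn j u
        refine le_trans ?_ (single_le_sum h2 hi)
        have h3 := hR.zt.nn i u
        have h4 : (1 : ℤ) ≤ pr (φ u) (v i) := by omega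
        exact_mod_cast h4
      have h5 : |prR (φ u) y1| ≤ Mb :=
        single_le_sum (f := fun u => |prR (φ u) y1|) (fun _ _ => abs_nonneg _) (mem_univ u)
      have h6 : 0 ≤ Mb := (abs_nonneg _).trans h5
      have h7 := neg_abs_le (prR (φ u) y1)
      nlinarith
  have hΞG : insert ω1 Ξ ⊆ Gx φ v σ1 := sub_Gxs.1 hs
  have hy20 : ∀ ω ∈ Ξ, prR (φ ω) (y1 + Mb • x0) = 0 := by
    intro ω hω
    have hne' : ω ≠ ω1 := by
      intro h1
      rw [h1] at hω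
      exact hω1 hω
    rw [ZLOC_prR_add, ZLOC_prR_smul, hx0G ω (hΞG (mem_insert_of_mem hω)), mul_zero, add_zero,
      hy1' ω (mem_insert_of_mem hω), if_neg hne']
  obtain ⟨x, -, hx2, hx3⟩ := tcone hR.zt Ξ _ hy2 hy20
  have h8 : prR (φ ω1) (y1 + Mb • x0) = 1 := by
    rw [ZLOC_prR_add, ZLOC_prR_smul, hx0G ω1 (hΞG (mem_insert_self _ _)), mul_zero, add_zero,
      hy1' ω1 (mem_insert_self _ _), if_pos rfl]
  rw [hx3, ZLOC_prR_sum] at h8
  have h9 : ∑ i, x i * (pr (φ ω1) (v i) : ℝ) = 0 := by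
    refine sum_eq_zero fun i _ => ?_
    by_cases hi : i ∈ Gx v φ Ξ
    · rw [RNF_van hR Ξ hI0 hF σ1 hσ hs0 (by omega) (φ ω1)
        (fun j hj => mem_Gx.1 (hs hj) ω1 (mem_insert_self _ _)) hi, Int.cast_zero, mul_zero]
    · rw [hx2 i hi, zero_mul]
  linarith

open Classical in
theorem rnf (hR : RS v φ A B q g h) (Ξ : Finset Ω) (hΞ : InT φ q g Ξ)
    (hc : Ξ.card + 2 ≤ Fintype.card κ) (hF : TT v φ h Ξ = ∅) (z : κ → ℤ)
    (hz : ∀ ω ∈ Ξ, pr (φ ω) z = 0) :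
    ∑ ω ∈ (univ \ Ξ).filter (fun ω => InT φ q g (insert ω Ξ)),
      (pr (φ ω) z : RatFunc ℂ) * JJ v φ A B h univ (insert ω Ξ) = 0 := by
  have hI0 : LinearIndepOn ℝ (vR φ) (Ξ : Set Ω) := (rint hΞ).1
  -- the terms with no simplices vanish
  have hJ0 : ∀ ω, TT v φ h (insert ω Ξ) = ∅ → JJ v φ A B h univ (insert ω Ξ) = 0 := by
    intro ω hω
    unfold JJ
    have h1 : TC v φ h univ (insert ω Ξ) = ∅ := by
      rw [eq_empty_iff_forall_notMem]
      intro σ hσ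
      have h2 := (mem_TC.1 hσ).1
      rw [hω] at h2
      exact notMem_empty _ h2
    rw [h1, sum_empty, mul_zero]
  by_cases hgood : ∃ ω1, ω1 ∉ Ξ ∧ InT φ q g (insert ω1 Ξ) ∧ (TT v φ h (insert ω1 Ξ)).Nonempty
  swap
  · push Not at hgood
    refine sum_eq_zero fun ω hω => ?_
    obtain ⟨h1, h2⟩ := mem_filter.1 hω
    have h3 := hgood ω (mem_sdiff.1 h1).2 h2
    rw [hJ0 ω h3, mul_zero]
  obtain ⟨ω1, hω1, hT1, σ1, hσ1⟩ := hgood
  obtain ⟨⟨hs, hσ, -⟩, hcard⟩ := mem_TT.1 hσ1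
  obtain ⟨hI1, hc1, hup1⟩ := rint hT1
  have hins : (insert ω1 Ξ).card = Ξ.card + 1 := card_insert_of_notMem hω1
  have hs0 : σ1 ⊆ Gx v φ Ξ := hs.trans (Gx_mono (subset_insert _ _))
  have hne : σ1.Nonempty := by
    rw [← card_pos]
    omega
  have hvan : ∀ f : κ → ℤ, (∀ i ∈ σ1, pr f (v i) = 0) → ∀ i ∈ Gx v φ Ξ, pr f (v i) = 0 :=
    fun f hf i hi => RNF_van hR Ξ hI0 hF σ1 hσ hs0 (by omega) f hf hi
  have hΞG : insert ω1 Ξ ⊆ Gx φ v σ1 := sub_Gxs.1 hs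
  have hfull : ∀ l ∈ Gx φ v σ1, ∃ β : Ω → ℝ, vR φ l = ∑ i ∈ insert ω1 Ξ, β i • vR φ i := by
    intro l hl
    refine rdim φ v σ1 (insert ω1 Ξ) hσ hI1 ?_ (by omega) (vR φ l) ?_
    · intro ω hω i hi
      rw [pr_cm]
      exact mem_Gxs.1 (hΞG hω) i hi
    · intro i hi
      rw [prR_vR, pr_cm, mem_Gxs.1 hl i hi, Int.cast_zero]
  obtain ⟨ω2, hω2G, hω2, hup2, hβneg, huniq⟩ := zpm (vR φ) (fun ω => g (some ω))
    (RNF_gen hR.ggen) (Gx φ v σ1) (insert ω1 Ξ) (hup1 _ hΞG) hfull ω1 (mem_insert_self _ _)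
    (RNF_neg hR Ξ hF ω1 hω1 hI1 σ1 hσ hs hcard hfull)
  rw [erase_insert hω1] at hup2
  simp only [erase_insert hω1] at huniq
  have hω2Ξ : ω2 ∉ Ξ := fun h1 => hω2 (mem_insert_of_mem h1)
  have hω21 : ω2 ≠ ω1 := by
    intro h1
    rw [h1] at hω2
    exact hω2 (mem_insert_self _ _)
  have hI2 := hup2.2.1
  have hins2 : (insert ω2 Ξ).card = Ξ.card + 1 := card_insert_of_notMem hω2Ξ
  have hs2 : σ1 ⊆ Gx v φ (insert ω2 Ξ) := sub_Gxs.2 hup2.1
  have hT2 : InT φ q g (insert ω2 Ξ) :=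
    rext hR (insert ω2 Ξ) σ1 hI2 hσ hs2 (by omega) hne hup2
  -- the two sets have the same rays
  have hGx : ∀ ω ∈ Gx φ v σ1, Gx v φ (insert ω Ξ) = Gx v φ Ξ := by
    intro ω hω
    refine Subset.antisymm (Gx_mono (subset_insert _ _)) ?_
    intro i hi
    rw [mem_Gx]
    intro ω' hω'
    rcases mem_insert.1 hω' with rfl | h1
    · exact hvan _ (mem_Gxs.1 hω) i hi
    · exact mem_Gx.1 hi ω' h1
  have hTC : TC v φ h univ (insert ω2 Ξ) = TC v φ h univ (insert ω1 Ξ) := by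
    ext σ
    rw [mem_TC, mem_TC, mem_TT, mem_TT, hGx ω2 hω2G, hGx ω1 (hΞG (mem_insert_self _ _)), hins,
      hins2]
  -- the good functionals
  have hgd : ∀ ω, ω ∉ Ξ → InT φ q g (insert ω Ξ) → (TT v φ h (insert ω Ξ)).Nonempty →
      ω = ω1 ∨ ω = ω2 := by
    intro ω hω hT ⟨σ, hσT⟩
    obtain ⟨⟨hsσ, hσi, -⟩, hcσ⟩ := mem_TT.1 hσT
    have hinsω : (insert ω Ξ).card = Ξ.card + 1 := card_insert_of_notMem hω
    have hsσ0 : σ ⊆ Gx v φ Ξ := hsσ.trans (Gx_mono (subset_insert _ _))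
    have hωG : ω ∈ Gx φ v σ1 := by
      rw [mem_Gxs]
      intro j hj
      obtain ⟨β, hβ⟩ := rdim v φ (insert ω1 Ξ) σ hI1 hσi (by
        intro i hi ω' hω'
        rcases mem_insert.1 hω' with h1 | h1
        · rw [h1]
          exact hvan _ (fun k hk => mem_Gx.1 (hs hk) ω1 (mem_insert_self _ _)) i (hsσ0 hi)
        · exact mem_Gx.1 (hsσ0 hi) ω' h1) (by omega) (vR v j) (by
        intro ω' hω'
        rw [prR_vR, mem_Gx.1 (hs hj) ω' hω', Int.cast_zero])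
      have h3 : (pr (φ ω) (v j) : ℝ) = 0 := by
        rw [← prR_vR, hβ, RNF_prR_sum]
        exact sum_eq_zero fun i hi => by
          rw [mem_Gx.1 (hsσ hi) ω (mem_insert_self _ _), Int.cast_zero, mul_zero]
      exact_mod_cast h3
    by_cases h1 : ω ∈ insert ω1 Ξ
    · rcases mem_insert.1 h1 with h2 | h2
      · exact Or.inl h2
      · exact absurd h2 hω
    · right
      refine huniq ω hωG h1 ((rint hT).2.2 _ (insert_subset hωG ?_))
      exact (subset_insert _ _).trans hΞG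
  -- reduce to the two terms
  have hsum : ∑ ω ∈ (univ \ Ξ).filter (fun ω => InT φ q g (insert ω Ξ)),
      (pr (φ ω) z : RatFunc ℂ) * JJ v φ A B h univ (insert ω Ξ) =
      ∑ ω ∈ ({ω1, ω2} : Finset Ω),
        (pr (φ ω) z : RatFunc ℂ) * JJ v φ A B h univ (insert ω Ξ) := by
    symm
    refine sum_subset ?_ ?_
    · intro ω hω
      rw [mem_filter, mem_sdiff]
      rcases mem_insert.1 hω with h1 | h1
      · rw [h1]
        exact ⟨⟨mem_univ _, hω1⟩, hT1⟩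
      · rw [mem_singleton.1 h1]
        exact ⟨⟨mem_univ _, hω2Ξ⟩, hT2⟩
    · intro ω hω hn
      obtain ⟨h1, h2⟩ := mem_filter.1 hω
      have h3 := (mem_sdiff.1 h1).2
      by_cases h4 : (TT v φ h (insert ω Ξ)).Nonempty
      · exfalso
        apply hn
        rw [mem_insert, mem_singleton]
        exact hgd ω h3 h2 h4
      · rw [hJ0 ω (not_nonempty_iff_eq_empty.1 h4), mul_zero]
  rw [hsum, sum_pair hω21.symm]
  -- the relation between the two terms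
  set β := cf (vR φ) (insert ω1 Ξ) (vR φ ω2) with hβ
  have hβs : vR φ ω2 = ∑ i ∈ insert ω1 Ξ, β i • vR φ i := cf_sum (hfull ω2 hω2G)
  have hm : (mulv φ (insert ω2 Ξ) : ℝ) = |β ω1| * mulv φ (insert ω1 Ξ) := by
    refine zvol3 φ v Ξ ω1 ω2 hω1 hω2Ξ σ1 hI1 hI2 hσ ?_ ?_ (by omega) β hβs
    · intro ω hω i hi
      rw [pr_cm]
      exact mem_Gxs.1 (hΞG hω) i hi
    · intro ω hω i hi
      rw [pr_cm]
      exact mem_Gxs.1 (hup2.1 hω) i hi
  have hp : (pr (φ ω2) z : ℝ) = β ω1 * pr (φ ω1) z := by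
    rw [← RNF_prR_int, RNF_fun φ ω2 (insert ω1 Ξ) β hβs, sum_insert hω1]
    have h1 : ∑ ω ∈ Ξ, β ω * prR (φ ω) (fun j => (z j : ℝ)) = 0 :=
      sum_eq_zero fun ω hω => by rw [RNF_prR_int, hz ω hω, Int.cast_zero, mul_zero]
    rw [h1, add_zero, RNF_prR_int]
  have hm' : (mulv φ (insert ω2 Ξ) : ℝ) = -β ω1 * mulv φ (insert ω1 Ξ) := by
    rw [hm, abs_of_neg hβneg]
  unfold JJ
  rw [hTC]
  set S := ∑ σ ∈ TC v φ h univ (insert ω1 Ξ), tmv A B v σ with hS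
  set m1 := mulv φ (insert ω1 Ξ) with hm1
  set m2 := mulv φ (insert ω2 Ξ) with hm2
  set p1 := pr (φ ω1) z with hp1
  set p2 := pr (φ ω2) z with hp2
  have hkey : (p1 : RatFunc ℂ) * (m1 : RatFunc ℂ)⁻¹ + (p2 : RatFunc ℂ) * (m2 : RatFunc ℂ)⁻¹ = 0 := by
    by_cases h0 : m1 = 0
    · have h1 : m2 = 0 := by
        have : (m2 : ℝ) = 0 := by rw [hm', h0]; simp
        exact_mod_cast this
      rw [h0, h1]
      simp
    · have h1 : m2 ≠ 0 := by
        intro h2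
        rw [h2] at hm'
        have h3 : (m1 : ℝ) ≠ 0 := by exact_mod_cast h0
        have h4 : -β ω1 ≠ 0 := by
          have := hβneg
          intro h5
          linarith
        exact (mul_ne_zero h4 h3) (by rw [← hm']; simp)
      have h2 : (p1 : ℝ) * m2 + (p2 : ℝ) * m1 = 0 := by
        rw [hm', hp]
        ring
      have h3 : p1 * (m2 : ℤ) + p2 * (m1 : ℤ) = 0 := by exact_mod_cast h2
      have h4 : (p1 : RatFunc ℂ) * (m2 : RatFunc ℂ) + (p2 : RatFunc ℂ) * (m1 : RatFunc ℂ) = 0 := by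
        have := congrArg (fun n : ℤ => (n : RatFunc ℂ)) h3
        push_cast at this
        simpa using this
      have h5 : (m1 : RatFunc ℂ) ≠ 0 := by exact_mod_cast h0
      have h6 : (m2 : RatFunc ℂ) ≠ 0 := by exact_mod_cast h1
      field_simp
      linear_combination h4
  have : (p1 : RatFunc ℂ) * ((m1 : RatFunc ℂ)⁻¹ * S) + (p2 : RatFunc ℂ) * ((m2 : RatFunc ℂ)⁻¹ * S) =
      ((p1 : RatFunc ℂ) * (m1 : RatFunc ℂ)⁻¹ + (p2 : RatFunc ℂ) * (m2 : RatFunc ℂ)⁻¹) * S := by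
    ring
  rw [this, hkey, zero_mul]

end Pool.Agent.H37.T6
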