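import Pool.Agent.H37.T6.RCOV
import Pool.Agent.H37.T5.ZPM

/-!
# RPM: walls of the primal triangulation

`zpm` (T5, file ZPM) with `v := vR (phq q φ)`, `h := g`, `G := univ`, `B := insertNone Δ`, `b := some ω`; `hgen := hR.ggen`; `hfull`: `rspan`.
`hneg`: suppose `cf (vR f) (insertNone Δ) (vR f u) (some ω) ≥ 0` for all `u : Option Ω` (`f = phq q φ`).  `ZLOC_surj` gives `y : κ → ℝ` with `φ_ω(y) = 1` and `f_o(y) = 0` for the other `o ∈ insertNone Δ` (also `q(y) = 0`).  For every `u : Ω`: `φ_u(y) = cf (vR f) _ (vR φ u) (some ω) ≥ 0` (expand `vR φ u` by `cf_sum`, `rspan`).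
So `y = ∑ x_i v_i`, `x ≥ 0` (`hR.zt.gen`), `0 = q(y) = ∑ x_i q(v_i)` with `q(v_i) > 0` (`qpos`): all `x_i = 0`, `y = 0`, contradicting `φ_ω(y) = 1`.
`zpm` gives `b' ∉ insertNone Δ`, so `b' ≠ none`, `b' = some ω'`, `ω' ∉ Δ`; `insert (some ω') ((insertNone Δ).erase (some ω)) = insertNone (insert ω' (Δ.erase ω))`: in `DD` (same cardinality).
Uniqueness: `Δ2 ∈ DD`, `Δ.erase ω ⊆ Δ2`, `Δ2.card = Δ.card`: `Δ2 = insert x (Δ.erase ω)` with `x ∉ Δ.erase ω`; `x = ω` gives `Δ2 = Δ`; otherwise `x ∉ Δ`, `some x ∉ insertNone Δ` and the uniqueness in `zpm` gives `x = ω'`.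
-/

set_option autoImplicit false

namespace Pool.Agent.H37.T6

open Finset H60.RegTri
open Pool.Agent.H37.T5

variable {ι κ Ω : Type} [Fintype ι] [DecidableEq ι] [Fintype κ] [DecidableEq κ] [Fintype Ω]
  [DecidableEq Ω] {v : ι → κ → ℤ} {φ : Ω → κ → ℤ} {A B q : κ → ℤ} {s0 : ℂ}
  {g : Option Ω → ℝ} {h : ι → ℝ}

omit [DecidableEq κ] in
theorem rpm (hR : RS v φ A B q g h) {Δ : Finset Ω} (hΔ : Δ ∈ DD φ q g) {ω : Ω} (hω : ω ∈ Δ) :
    ∃ ω', ω' ∉ Δ ∧ insert ω' (Δ.erase ω) ∈ DD φ q g ∧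
      cf (vR (phq q φ)) (insertNone Δ) (vR φ ω') (some ω) < 0 ∧
      ∀ Δ2 ∈ DD φ q g, Δ.erase ω ⊆ Δ2 → Δ2 = Δ ∨ Δ2 = insert ω' (Δ.erase ω) := by
  classical
  obtain ⟨hup, hcard⟩ := mem_DD.1 hΔ
  have hind := hup.2.1
  have hωi : some ω ∈ insertNone Δ := by rw [some_mem_insertNone]; exact hω
  have hneg : ∃ u ∈ (univ : Finset (Option Ω)),
      cf (vR (phq q φ)) (insertNone Δ) (vR (phq q φ) u) (some ω) < 0 := by
    by_contra hcon
    push Not at hcon
    have hW : LinearIndependent ℝ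
        (fun t : (insertNone Δ : Finset (Option Ω)) => vR (phq q φ) (t : Option Ω)) := hind
    obtain ⟨y, hy⟩ := ZLOC_surj _ hW (fun t => if (t : Option Ω) = some ω then 1 else 0)
    have hy' : ∀ o ∈ insertNone Δ, prR (phq q φ o) y = if o = some ω then 1 else 0 :=
      fun o ho => hy ⟨o, ho⟩
    have hval : ∀ u : Ω, prR (φ u) y =
        cf (vR (phq q φ)) (insertNone Δ) (vR φ u) (some ω) := by
      intro u
      set β := cf (vR (phq q φ)) (insertNone Δ) (vR φ u) with hβ
      have h1 : vR φ u = ∑ o ∈ insertNone Δ, β o • vR (phq q φ) o := cf_sum (rspan hΔ (vR φ u))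
      have h2 : prR (φ u) y = ∑ j, vR φ u j * y j := rfl
      have h3 : ∀ j, vR φ u j = ∑ o ∈ insertNone Δ, β o * vR (phq q φ) o j := by
        intro j
        rw [h1]
        simp
      calc prR (φ u) y = ∑ j, (∑ o ∈ insertNone Δ, β o * vR (phq q φ) o j) * y j := by
            rw [h2]; exact sum_congr rfl fun j _ => by rw [h3 j]
        _ = ∑ o ∈ insertNone Δ, β o * prR (phq q φ o) y := by
            simp only [sum_mul]
            rw [sum_comm]
            refine sum_congr rfl fun o _ => ?_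
            rw [prR, mul_sum]
            exact sum_congr rfl fun j _ => by rw [mul_assoc]; rfl
        _ = ∑ o ∈ insertNone Δ, β o * (if o = some ω then 1 else 0) :=
            sum_congr rfl fun o ho => by rw [hy' o ho]
        _ = β (some ω) := by
            simp only [mul_ite, mul_one, mul_zero]
            rw [sum_ite_eq' (insertNone Δ) (some ω) β, if_pos hωi]
    have hnn : ∀ u : Ω, 0 ≤ prR (φ u) y := fun u => by
      rw [hval u]
      exact hcon (some u) (mem_univ _)
    obtain ⟨x, hx, hyx⟩ := hR.zt.gen y hnn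
    have hq : prR q y = 0 := by
      have h1 := hy' none none_mem_insertNone
      rw [phq_none] at h1
      rw [h1, if_neg (by simp)]
    rw [hyx, ZLOC_prR_sum] at hq
    have hx0 : ∀ i, x i = 0 := by
      intro i
      have h2 := (sum_eq_zero_iff_of_nonneg (fun i _ => mul_nonneg (hx i)
        (by exact_mod_cast (hR.qpos i).le))).1 hq i (mem_univ i)
      rcases mul_eq_zero.1 h2 with h3 | h3
      · exact h3
      · exact absurd (by exact_mod_cast h3) (hR.qpos i).ne'
    have hy0 : y = 0 := by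
      rw [hyx]
      exact sum_eq_zero fun i _ => by rw [hx0 i, zero_smul]
    have h4 := hy' (some ω) hωi
    rw [if_pos rfl, hy0] at h4
    simp [prR] at h4
  obtain ⟨b', -, hb', hup', hn', huniq⟩ := zpm (vR (phq q φ)) g hR.ggen univ (insertNone Δ) hup
    (fun l _ => rspan hΔ _) (some ω) hωi hneg
  obtain ⟨ω', rfl⟩ : ∃ ω', b' = some ω' := by
    cases b' with
    | none => exact absurd none_mem_insertNone hb'
    | some w => exact ⟨w, rfl⟩
  have hω' : ω' ∉ Δ := fun h1 => hb' (by rw [some_mem_insertNone]; exact h1)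
  have hins : ∀ w : Ω, insert (some w) ((insertNone Δ).erase (some ω)) =
      insertNone (insert w (Δ.erase ω)) := by
    intro w
    ext o
    cases o with
    | none => simp
    | some u => simp
  have hcard' : ∀ w : Ω, w ∉ Δ → (insert w (Δ.erase ω)).card = Δ.card := by
    intro w hw
    rw [card_insert_of_notMem (fun h1 => hw (mem_of_mem_erase h1)), card_erase_of_mem hω]
    have : 0 < Δ.card := card_pos.2 ⟨ω, hω⟩
    omega
  refine ⟨ω', hω', ?_, hn', ?_⟩
  · rw [mem_DD]
    refine ⟨?_, ?_⟩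
    · rw [← hins]; exact hup'
    · rw [hcard' ω' hω']; exact hcard
  · intro Δ2 hΔ2 hsub
    obtain ⟨hup2, hcard2⟩ := mem_DD.1 hΔ2
    have hc2 : Δ2.card = Δ.card := by omega
    have hpos : 0 < Δ.card := card_pos.2 ⟨ω, hω⟩
    have hce : (Δ.erase ω).card + 1 = Δ2.card := by
      rw [card_erase_of_mem hω]; omega
    obtain ⟨x, hx, hx2⟩ : ∃ x, x ∉ Δ.erase ω ∧ insert x (Δ.erase ω) = Δ2 := by
      obtain ⟨x, hx⟩ := exists_eq_insert_iff.2 ⟨hsub, hce⟩
      exact ⟨x, hx.1, hx.2⟩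
    by_cases hxω : x = ω
    · left
      rw [← hx2, hxω, insert_erase hω]
    · right
      have hxΔ : x ∉ Δ := fun h1 => hx (mem_erase.2 ⟨hxω, h1⟩)
      have h5 : (some x : Option Ω) = some ω' := by
        apply huniq (some x) (mem_univ _)
        · rw [some_mem_insertNone]; exact hxΔ
        · rw [hins, hx2]; exact hup2
      rw [← hx2, Option.some.inj h5]

end Pool.Agent.H37.T6
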