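import Pool.Agent.H37.T6.TDefs

/-!
# TSP: splitting of a term (`ZSPL` of T5 for the setting `ZT`)
-/

set_option autoImplicit false

namespace Pool.Agent.H37.T6

open Finset H60.RegTri
open Pool.Agent.H37.T5

variable {ι κ Ω : Type} [Fintype ι] [DecidableEq ι] [Fintype κ] [Fintype Ω]
  {v : ι → κ → ℤ} {φ : Ω → κ → ℤ} {A B : κ → ℤ} {s0 : ℂ}

theorem TSP_VL (A B x : κ → ℤ) : VL A B x = algebraMap (Polynomial ℂ) (RatFunc ℂ)
    ((pr A x : Polynomial ℂ) + (pr B x : Polynomial ℂ) * Polynomial.X) := by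
  rw [VL, map_add, map_mul, map_intCast, map_intCast, RatFunc.algebraMap_X]

theorem TSP_int (n : ℤ) : ((n : ℤ) : RatFunc ℂ) = RatFunc.C (((n : ℝ) : ℝ) : ℂ) := by
  rw [show (((n : ℝ) : ℝ) : ℂ) = ((n : ℤ) : ℂ) by push_cast; rfl, map_intCast]

/-- `V(x)` vanishes identically only if both pairings vanish. -/
theorem VL_eq_zero {A B x : κ → ℤ} (h : VL A B x = 0) : pr A x = 0 ∧ pr B x = 0 := by
  rw [TSP_VL] at h
  have h1 : ((pr A x : Polynomial ℂ) + (pr B x : Polynomial ℂ) * Polynomial.X) = 0 :=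
    RatFunc.algebraMap_injective ℂ (by rw [h, map_zero])
  have h2 : ((pr A x : Polynomial ℂ) + (pr B x : Polynomial ℂ) * Polynomial.X) =
      Polynomial.C (pr A x : ℂ) + Polynomial.C (pr B x : ℂ) * Polynomial.X := by
    rw [map_intCast, map_intCast]
  rw [h2] at h1
  have h3 := congrArg (fun p => Polynomial.coeff p 0) h1
  have h4 := congrArg (fun p => Polynomial.coeff p 1) h1
  simp only [Polynomial.coeff_add, Polynomial.coeff_C_mul, Polynomial.coeff_C,
    Polynomial.coeff_X, Polynomial.coeff_zero] at h3 h4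
  norm_num at h3 h4
  exact ⟨h3, h4⟩

omit [DecidableEq ι] in
theorem VL_neT (hZ : ZT v φ A B) (i : ι) : VL A B (v i) ≠ 0 := by
  intro h
  obtain ⟨h3, h4⟩ := VL_eq_zero h
  rcases hZ.ne i with h | h
  · exact h h3
  · exact h h4

omit [Fintype ι] [DecidableEq ι] in
theorem TSP_pr (A e : κ → ℤ) (σ : Finset ι) (c : ι → ℝ)
    (h : (fun j => (e j : ℝ)) = ∑ i ∈ σ, c i • vR v i) :
    ((pr A e : ℤ) : RatFunc ℂ) = ∑ b ∈ σ, RatFunc.C ((c b : ℝ) : ℂ) * (pr A (v b) : RatFunc ℂ) := by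
  have h1 : ((pr A e : ℤ) : ℝ) = ∑ b ∈ σ, c b * ((pr A (v b) : ℤ) : ℝ) := by
    simp only [pr, Int.cast_sum, Int.cast_mul, Finset.mul_sum]
    rw [Finset.sum_comm]
    refine sum_congr rfl fun j _ => ?_
    have h2 := congrFun h j
    simp only [Finset.sum_apply, Pi.smul_apply, vR, smul_eq_mul] at h2
    rw [h2, Finset.mul_sum]
    exact sum_congr rfl fun b _ => by ring
  rw [TSP_int, h1]
  push_cast
  rw [map_sum]
  refine sum_congr rfl fun b _ => ?_
  rw [map_mul, map_intCast]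

theorem zsplitT (hZ : ZT v φ A B) (σ : Finset ι) (e : κ → ℤ)
    (he : ∃ β : ι → ℝ, (fun j => (e j : ℝ)) = ∑ i ∈ σ, β i • vR v i) :
    VL A B e * tmv A B v σ = ∑ b ∈ σ, cE v σ e b * tmE A B v σ b := by
  have h1 := cf_sum he
  have h2 : VL A B e = ∑ b ∈ σ, cE v σ e b * VL A B (v b) := by
    rw [VL, TSP_pr A e σ _ h1, TSP_pr B e σ _ h1, Finset.sum_mul, ← Finset.sum_add_distrib]
    refine sum_congr rfl fun b _ => ?_
    rw [cE, VL]
    ring
  rw [h2, Finset.sum_mul]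
  refine sum_congr rfl fun b hb => ?_
  rw [tmv, tmE, ← Finset.mul_prod_erase σ (fun i => (VL A B (v i))⁻¹) hb]
  have h3 := mul_inv_cancel₀ (VL_neT hZ b)
  linear_combination (cE v σ e b * (mulv v σ : RatFunc ℂ) *
    ∏ i ∈ σ.erase b, (VL A B (v i))⁻¹) * h3

end Pool.Agent.H37.T6
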