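import Pool.Agent.H37.T6.RIN
import Pool.Agent.H37.T6.RBD
import Pool.Agent.H37.T6.RNF
import Pool.Agent.H37.T6.TSP

/-!
# RREL: the relation between the sums over rays

If `TT v φ h Ξ = ∅` then `TC` is empty, `JJ ... Ξ = 0`, and the right side is `0` by `rnf`.  Otherwise: `Ξ` is independent (`rint`), every `σ ∈ TT Ξ` has `card κ - Ξ.card ≥ 2` elements, so `TC v φ h univ Ξ = TT v φ h Ξ` and `PrT v φ h univ Ξ` consists of all pairs `(σ, b)`, `σ ∈ TT Ξ`, `b ∈ σ`.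
`JJ = (mulv φ Ξ)⁻¹ * ∑_{σ ∈ TC} tmv σ`; `zsplitT` (TSP; `z` is in the span of `σ` by `rdim`, `hz`): `VL A B z * ∑_{σ} tmv σ = ∑_{(σ,b) ∈ PrT} cE σ z b * tmE σ b`, and `PrT` is the disjoint union of `PrN` and `PrB` (`Finset.sum_filter_add_sum_filter_not`; `mem_PrN`, `mem_PrB`): `rin`, `rbd`.
-/

set_option autoImplicit false

namespace Pool.Agent.H37.T6

open Finset H60.RegTri
open Pool.Agent.H37.T5

variable {ι κ Ω : Type} [Fintype ι] [DecidableEq ι] [Fintype κ] [DecidableEq κ] [Fintype Ω]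
  [DecidableEq Ω] {v : ι → κ → ℤ} {φ : Ω → κ → ℤ} {A B q : κ → ℤ} {s0 : ℂ}
  {g : Option Ω → ℝ} {h : ι → ℝ}

open Classical in
theorem rrel (hR : RS v φ A B q g h) (Ξ : Finset Ω) (hΞ : InT φ q g Ξ)
    (hc : Ξ.card + 2 ≤ Fintype.card κ) (z : κ → ℤ) (hz : ∀ ω ∈ Ξ, pr (φ ω) z = 0) :
    VL A B z * JJ v φ A B h univ Ξ =
      ∑ ω ∈ (univ \ Ξ).filter (fun ω => InT φ q g (insert ω Ξ)),
        (pr (φ ω) z : RatFunc ℂ) * JJ v φ A B h univ (insert ω Ξ) := by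
  by_cases hF : TT v φ h Ξ = ∅
  · have h1 : JJ v φ A B h univ Ξ = 0 := by
      unfold JJ
      have h2 : TC v φ h univ Ξ = ∅ := by
        rw [eq_empty_iff_forall_notMem]
        intro σ hσ
        have h3 := (mem_TC.1 hσ).1
        rw [hF] at h3
        exact absurd h3 (notMem_empty _)
      rw [h2, sum_empty, mul_zero]
    rw [h1, mul_zero]
    exact (rnf hR Ξ hΞ hc hF z hz).symm
  · have hne := nonempty_iff_ne_empty.2 hF
    have hind := (rint hΞ).1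
    have e1 : VL A B z * ∑ σ ∈ TC v φ h univ Ξ, tmv A B v σ =
        ∑ σ ∈ TC v φ h univ Ξ, ∑ b ∈ σ, cE v σ z b * tmE A B v σ b := by
      rw [mul_sum]
      refine sum_congr rfl fun σ hσ => zsplitT hR.zt σ z ?_
      obtain ⟨⟨hsub, hi, -⟩, hcard⟩ := mem_TT.1 (mem_TC.1 hσ).1
      refine rdim v φ Ξ σ hind hi (fun i hi => mem_Gx.1 (hsub hi)) hcard _ fun ω hω => ?_
      have h3 := hz ω hω
      have h4 : prR (φ ω) (fun j => (z j : ℝ)) = ((pr (φ ω) z : ℤ) : ℝ) := by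
        simp only [prR, pr]
        push_cast
        rfl
      rw [h4, h3, Int.cast_zero]
    have e2 : ∑ p ∈ PrT v φ h univ Ξ, cE v p.1 z p.2 * tmE A B v p.1 p.2 =
        ∑ σ ∈ TC v φ h univ Ξ, ∑ b ∈ σ, cE v σ z b * tmE A B v σ b := by
      refine sum_finset_product (PrT v φ h univ Ξ) (TC v φ h univ Ξ) (fun σ => σ) ?_
      intro p
      rw [mem_PrT]
      constructor
      · exact fun h1 => ⟨h1.1, h1.2.1⟩
      · rintro ⟨h1, h2⟩
        have hcard := (mem_TT.1 (mem_TC.1 h1).1).2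
        obtain ⟨c, hc1, hc2⟩ := exists_mem_ne (show 1 < p.1.card by omega) p.2
        exact ⟨h1, h2, c, hc1, hc2, mem_univ c⟩
    have e3 : ∑ p ∈ PrT v φ h univ Ξ, cE v p.1 z p.2 * tmE A B v p.1 p.2 =
        ∑ p ∈ PrN v φ h univ Ξ, cE v p.1 z p.2 * tmE A B v p.1 p.2 +
          ∑ p ∈ PrB v φ h univ Ξ, cE v p.1 z p.2 * tmE A B v p.1 p.2 := by
      unfold PrN PrB
      rw [sum_filter_add_sum_filter_not]
    rw [← rbd hR Ξ hΞ hc hne z hz, JJ, mul_left_comm, e1, ← e2, e3, rin hR Ξ hind z hz, zero_add]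

end Pool.Agent.H37.T6
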