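import Pool.Agent.H37.T5.FDefs

/-!
# The hypothesis of the zeta side for arbitrary nondegenerate polynomials

`w` is an integral weight vector with `N(w) > 0`; `Y` consists of the vectors `(1, a_b)`,
`b ∈ Yb`, and `(0, e_j)`, `j ∈ Yj`.
-/

set_option autoImplicit false

namespace Pool.Agent.H37.T6

open Finset
open Pool.Agent.H56.SMC
open Pool.Agent.H37.T5

/-- `Y` is a linearly independent set of vectors on the face of `w` (the exponents `a_i` with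
`a_i·w = N(w)` and the directions `e_j` with `w_j = 0`), not contained in a proper face of it
(`rel`), and `p0 = (|w|/N(w); 1, …, 1)` is in the span of `Y`. -/
structure YD {n r : ℕ} (a : Fin r → (Fin n →₀ ℕ)) (w : Fin n → ℕ) (Yb : Finset (Fin r))
    (Yj : Finset (Fin n)) : Prop where
  pos : 0 < H22.wmin a w
  on : ∀ b ∈ Yb, ∑ j, a b j * w j = H22.wmin a w
  onj : ∀ j ∈ Yj, w j = 0
  ind : LinearIndependent ℝ (Sum.elim (fun b : Yb => H22.rowR a b.1)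
    (fun j : Yj => (eR j.1 : Unit ⊕ Fin n → ℝ)))
  rel : ∀ y : Unit ⊕ Fin n → ℝ,
    (∀ i, ∑ j, a i j * w j = H22.wmin a w → 0 ≤ ∑ t, H22.rowR a i t * y t) →
    (∀ j, w j = 0 → 0 ≤ y (Sum.inr j)) →
    (∀ b ∈ Yb, ∑ t, H22.rowR a b t * y t = 0) → (∀ j ∈ Yj, y (Sum.inr j) = 0) →
    (∀ i, ∑ j, a i j * w j = H22.wmin a w → ∑ t, H22.rowR a i t * y t = 0) ∧
      ∀ j, w j = 0 → y (Sum.inr j) = 0
  span : p0R a w ∈ Submodule.span ℝ
    ({y | ∃ b ∈ Yb, y = H22.rowR a b} ∪ {y | ∃ j ∈ Yj, y = eR j})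

/-- `k` is an apex direction of `b`: the `k`-th coordinate is `1` at `a_b` and `0` at the other
elements of `Y`. -/
def ApexY {n r : ℕ} (a : Fin r → (Fin n →₀ ℕ)) (Yb : Finset (Fin r)) (Yj : Finset (Fin n))
    (b : Fin r) (k : Fin n) : Prop :=
  b ∈ Yb ∧ a b k = 1 ∧ k ∉ Yj ∧ ∀ b' ∈ Yb, b' ≠ b → a b' k = 0

/-- Some `b ∈ Yb` has exactly one apex direction. -/
def UY {n r : ℕ} (a : Fin r → (Fin n →₀ ℕ)) (Yb : Finset (Fin r)) (Yj : Finset (Fin n)) : Prop :=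
  ∃ b k, ApexY a Yb Yj b k ∧ ∀ k', ApexY a Yb Yj b k' → k' = k

/-- The hypothesis of the zeta side. -/
def HY {n r : ℕ} (a : Fin r → (Fin n →₀ ℕ)) (s0 : ℂ) : Prop :=
  ∀ (w : Fin n → ℕ) (Yb : Finset (Fin r)) (Yj : Finset (Fin n)), YD a w Yb Yj →
    s0 = -(H22.wsum w : ℂ) / (H22.wmin a w : ℂ) → UY a Yb Yj

end Pool.Agent.H37.T6
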