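import Pool.Agent.H37.T5.ZLAM
import Pool.Agent.H37.T5.ZCD
import Pool.Agent.H37.T6.YDefs

/-!
# The zeta side for arbitrary nondegenerate polynomials: definitions and basic lemmas

Rays `v i ∈ ℤ^κ`, functionals `φ ω ∈ ℤ^κ`; `q` is a generic integral vector in the interior of the
cone generated by the functionals.  `phq q φ` is the family of the functionals together with `q`
(index `none`).  `g` are generic heights on it with `q` highest: all upper simplices with `|κ|`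
elements contain `none`, and `DD φ q g` is the set of these simplices without `none`.
-/

set_option autoImplicit false

namespace Pool.Agent.H37.T6

open Finset H60.RegTri
open Pool.Agent.H37.T5

/-- The setting: the rays generate the cone `{φ ≥ 0}`; the functionals span and lie in an open
half space. -/
structure ZT {ι κ Ω : Type} [Fintype ι] [Fintype κ] [Fintype Ω] (v : ι → κ → ℤ)
    (φ : Ω → κ → ℤ) (A B : κ → ℤ) : Prop where
  ne : ∀ i, pr A (v i) ≠ 0 ∨ pr B (v i) ≠ 0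
  nn : ∀ i ω, 0 ≤ pr (φ ω) (v i)
  gen : ∀ y : κ → ℝ, (∀ ω, 0 ≤ prR (φ ω) y) →
    ∃ x : ι → ℝ, (∀ i, 0 ≤ x i) ∧ y = ∑ i, x i • vR v i
  sp : ∀ y : κ → ℝ, (∀ ω, prR (φ ω) y = 0) → y = 0
  pt : ∃ y : κ → ℤ, ∀ ω, 0 < pr (φ ω) y

/-- The functionals together with `q`. -/
def phq {κ Ω : Type} (q : κ → ℤ) (φ : Ω → κ → ℤ) : Option Ω → κ → ℤ := fun o => o.elim q φ

theorem phq_none {κ Ω : Type} (q : κ → ℤ) (φ : Ω → κ → ℤ) : phq q φ none = q := rfl

theorem phq_some {κ Ω : Type} (q : κ → ℤ) (φ : Ω → κ → ℤ) (ω : Ω) : phq q φ (some ω) = φ ω := rfl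

/-- The conditions on `q`. -/
structure QG {ι κ Ω : Type} [Fintype ι] [Fintype κ] [Fintype Ω] (v : ι → κ → ℤ)
    (φ : Ω → κ → ℤ) (A B : κ → ℤ) (s0 : ℂ) (q : κ → ℤ) : Prop where
  pos : ∀ i, 0 < pr q (v i)
  na : ∀ Ξ : Finset Ω, LinearIndepOn ℝ (vR φ) (Ξ : Set Ω) → Ξ.card + 2 = Fintype.card κ →
    (∃ z : κ → ℤ, (∀ ω ∈ Ξ, pr (φ ω) z = 0) ∧ VL A B z ≠ 0) →
    ∃ z : κ → ℤ, (∀ ω ∈ Ξ, pr (φ ω) z = 0) ∧ pr q z = 0 ∧ VL A B z ≠ 0
  nb : ∀ Ξ : Finset Ω, LinearIndepOn ℝ (vR φ) (Ξ : Set Ω) → Ξ.card + 2 = Fintype.card κ →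
    (∃ z : κ → ℤ, (∀ ω ∈ Ξ, pr (φ ω) z = 0) ∧ ¬ IsCr A B s0 z) →
    ∃ z : κ → ℤ, (∀ ω ∈ Ξ, pr (φ ω) z = 0) ∧ pr q z = 0 ∧ ¬ IsCr A B s0 z

/-- The setting with `q`, the heights `g` of the functionals and `q`, and the heights `h` of the
rays. -/
structure RS {ι κ Ω : Type} [Fintype ι] [Fintype κ] [Fintype Ω] (v : ι → κ → ℤ)
    (φ : Ω → κ → ℤ) (A B q : κ → ℤ) (g : Option Ω → ℝ) (h : ι → ℝ) : Prop where
  kp : 0 < Fintype.card κ
  zt : ZT v φ A B
  qpos : ∀ i, 0 < pr q (v i)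
  ggen : ∀ τ, GenericOn (vR (phq q φ)) g τ
  gtop : ∀ σ : Finset (Option Ω), none ∉ σ →
    LinearIndepOn ℝ (vR (phq q φ)) (σ : Set (Option Ω)) → ∀ β : Option Ω → ℝ,
    vR (phq q φ) none = ∑ i ∈ σ, β i • vR (phq q φ) i → ∑ i ∈ σ, β i * g i < g none
  hgen : ∀ τ, GenericOn (vR v) h τ

section
variable {κ Ω : Type} [Fintype κ] [Fintype Ω]

open Classical in
/-- The maximal simplices of the triangulation of the boundary of the cone of the functionals. -/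
noncomputable def DD (φ : Ω → κ → ℤ) (q : κ → ℤ) (g : Option Ω → ℝ) : Finset (Finset Ω) :=
  univ.filter (fun Δ => UpperOn (vR (phq q φ)) g univ (insertNone Δ) ∧
    Δ.card + 1 = Fintype.card κ)

theorem mem_DD {φ : Ω → κ → ℤ} {q : κ → ℤ} {g : Option Ω → ℝ} {Δ : Finset Ω} :
    Δ ∈ DD φ q g ↔ UpperOn (vR (phq q φ)) g univ (insertNone Δ) ∧
      Δ.card + 1 = Fintype.card κ := by
  simp [DD]

/-- `Ξ` is a simplex of this triangulation. -/
def InT (φ : Ω → κ → ℤ) (q : κ → ℤ) (g : Option Ω → ℝ) (Ξ : Finset Ω) : Prop :=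
  ∃ Δ ∈ DD φ q g, Ξ ⊆ Δ

/-- The coordinates of `A + B s` in the basis `Δ + q` as polynomials in `s`. -/
noncomputable def LaR (φ : Ω → κ → ℤ) (q A B : κ → ℤ) (Δ : Finset Ω) (o : Option Ω) :
    RatFunc ℂ :=
  cE (phq q φ) (insertNone Δ) A o + cE (phq q φ) (insertNone Δ) B o * RatFunc.X

/-- The coordinates of `A + B s0` in the basis `Δ + q`. -/
noncomputable def laC (φ : Ω → κ → ℤ) (q A B : κ → ℤ) (s0 : ℂ) (Δ : Finset Ω) (o : Option Ω) :
    ℂ :=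
  ((cf (vR (phq q φ)) (insertNone Δ) (fun j => (A j : ℝ)) o : ℝ) : ℂ) +
    ((cf (vR (phq q φ)) (insertNone Δ) (fun j => (B j : ℝ)) o : ℝ) : ℂ) * s0

/-- The contribution of `Δ` to `L(Ξ)`. -/
noncomputable def LLt [DecidableEq Ω] (φ : Ω → κ → ℤ) (q A B : κ → ℤ) (Δ Ξ : Finset Ω) :
    RatFunc ℂ :=
  (mulv (phq q φ) (insertNone Δ) : RatFunc ℂ)⁻¹ * (LaR φ q A B Δ none)⁻¹ *
    ∏ ω ∈ Δ \ Ξ, (LaR φ q A B Δ (some ω))⁻¹

/-- The contribution of `Δ` to `W(Ξ)`. -/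
noncomputable def WWt [DecidableEq Ω] (φ : Ω → κ → ℤ) (q A B : κ → ℤ) (Δ Ξ : Finset Ω) :
    RatFunc ℂ :=
  (mulv (phq q φ) (insertNone Δ) : RatFunc ℂ)⁻¹ * ∏ ω ∈ Δ \ Ξ, (LaR φ q A B Δ (some ω))⁻¹

/-- `L(Ξ)` for the family `D`. -/
noncomputable def LLs [DecidableEq Ω] (φ : Ω → κ → ℤ) (q A B : κ → ℤ) (D : Finset (Finset Ω))
    (Ξ : Finset Ω) : RatFunc ℂ :=
  ∑ Δ ∈ D.filter (fun Δ => Ξ ⊆ Δ), LLt φ q A B Δ Ξ

/-- `W(Ξ)` for the family `D`. -/
noncomputable def WWs [DecidableEq Ω] (φ : Ω → κ → ℤ) (q A B : κ → ℤ) (D : Finset (Finset Ω))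
    (Ξ : Finset Ω) : RatFunc ℂ :=
  ∑ Δ ∈ D.filter (fun Δ => Ξ ⊆ Δ), WWt φ q A B Δ Ξ

open Classical in
/-- The elements of `D` which contain the support of `Λ`. -/
noncomputable def DL (D : Finset (Finset Ω)) (Λ : Ω → ℂ) : Finset (Finset Ω) :=
  D.filter (fun Δ => ∀ ω, Λ ω ≠ 0 → ω ∈ Δ)

theorem mem_DL {D : Finset (Finset Ω)} {Λ : Ω → ℂ} {Δ : Finset Ω} :
    Δ ∈ DL D Λ ↔ Δ ∈ D ∧ ∀ ω, Λ ω ≠ 0 → ω ∈ Δ := by
  simp [DL]

/-- The properties of the family `D` of the maximal simplices which are used on the side of the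
formula of Lawrence. -/
structure LS [DecidableEq Ω] (φ : Ω → κ → ℤ) (q A B : κ → ℤ) (s0 : ℂ)
    (D : Finset (Finset Ω)) : Prop where
  card : ∀ Δ ∈ D, Δ.card + 1 = Fintype.card κ
  ind : ∀ Δ ∈ D, LinearIndepOn ℝ (vR (phq q φ)) ((insertNone Δ : Finset (Option Ω)) : Set (Option Ω))
  wall : ∀ Δ ∈ D, ∀ ω ∈ Δ, ∃ ω', ω' ∉ Δ ∧ insert ω' (Δ.erase ω) ∈ D ∧
    cf (vR (phq q φ)) (insertNone Δ) (vR φ ω') (some ω) < 0 ∧
    ∀ Δ2 ∈ D, Δ.erase ω ⊆ Δ2 → Δ2 = Δ ∨ Δ2 = insert ω' (Δ.erase ω)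
  lnz : ∀ Δ ∈ D, LaR φ q A B Δ none ≠ 0 ∧ ∀ ω ∈ Δ, LaR φ q A B Δ (some ω) ≠ 0
  lnc : ∀ Δ ∈ D, laC φ q A B s0 Δ none ≠ 0 → ∀ ω ∈ Δ, laC φ q A B s0 Δ (some ω) ≠ 0

end

/-! ### Basic lemmas -/

section
variable {ι κ Ω : Type} [Fintype ι] [Fintype κ] [Fintype Ω] {v : ι → κ → ℤ} {φ : Ω → κ → ℤ}
  {A B q : κ → ℤ} {g : Option Ω → ℝ} {h : ι → ℝ}

omit [Fintype ι] [Fintype Ω] in
theorem pr_cm (x y : κ → ℤ) : pr x y = pr y x := by
  simp only [pr]
  exact sum_congr rfl fun j _ => mul_comm _ _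

omit [Fintype ι] in
/-- The functionals which vanish on `σ`. -/
theorem mem_Gxs {σ : Finset ι} {ω : Ω} : ω ∈ Gx φ v σ ↔ ∀ i ∈ σ, pr (φ ω) (v i) = 0 := by
  rw [mem_Gx]
  exact ⟨fun h i hi => by rw [pr_cm]; exact h i hi, fun h i hi => by rw [pr_cm]; exact h i hi⟩

omit [Fintype ι] in
theorem sub_Gxs [Fintype ι] {σ : Finset ι} {Ξ : Finset Ω} : σ ⊆ Gx v φ Ξ ↔ Ξ ⊆ Gx φ v σ := by
  constructor
  · intro h ω hω
    exact mem_Gxs.2 fun i hi => mem_Gx.1 (h hi) ω hω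
  · intro h i hi
    exact mem_Gx.2 fun ω hω => mem_Gxs.1 (h hω) i hi

omit [Fintype ι] [Fintype Ω] in
/-- A family of functionals with `|κ| - |σ|` independent elements which vanish on the independent
`σ`: `σ` spans the space where they vanish.  (Also used with the roles of `v` and `φ`
exchanged.) -/
theorem rdim (v : ι → κ → ℤ) (φ : Ω → κ → ℤ) (Ξ : Finset Ω) (σ : Finset ι)
    (hΞ : LinearIndepOn ℝ (vR φ) (Ξ : Set Ω)) (hσ : LinearIndepOn ℝ (vR v) (σ : Set ι))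
    (h0 : ∀ i ∈ σ, ∀ ω ∈ Ξ, pr (φ ω) (v i) = 0) (hcard : σ.card + Ξ.card = Fintype.card κ)
    (y : κ → ℝ) (hy : ∀ ω ∈ Ξ, prR (φ ω) y = 0) :
    ∃ β : ι → ℝ, y = ∑ i ∈ σ, β i • vR v i := by
  classical
  let L : (κ → ℝ) →ₗ[ℝ] (Ξ → ℝ) :=
    { toFun := fun y ω => prR (φ (ω : Ω)) y
      map_add' := fun y y' => funext fun ω => ZLOC_prR_add _ y y'
      map_smul' := fun C y => funext fun ω => ZLOC_prR_smul _ C y }
  have hL : LinearMap.range L = ⊤ := by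
    rw [LinearMap.range_eq_top]
    intro x
    obtain ⟨y, hy⟩ := ZLOC_surj (fun t : Ξ => vR φ (t : Ω)) hΞ x
    exact ⟨y, funext hy⟩
  have hker : Module.finrank ℝ (LinearMap.ker L) = σ.card := by
    have h1 := LinearMap.finrank_range_add_finrank_ker L
    rw [hL, finrank_top, Module.finrank_fintype_fun_eq_card, Module.finrank_fintype_fun_eq_card,
      Fintype.card_coe] at h1
    omega
  have hle : Submodule.span ℝ (vR v '' (σ : Set ι)) ≤ LinearMap.ker L := by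
    rw [Submodule.span_le]
    rintro _ ⟨i, hi, rfl⟩
    rw [SetLike.mem_coe, LinearMap.mem_ker]
    funext ω
    change prR (φ (ω : Ω)) (vR v i) = 0
    rw [prR_vR, h0 i hi ω ω.2, Int.cast_zero]
  have hfr : Module.finrank ℝ (Submodule.span ℝ (vR v '' (σ : Set ι))) = σ.card := by
    have h1 : LinearIndependent ℝ (fun t : σ => vR v (t : ι)) := hσ
    have h2 := finrank_span_eq_card h1
    rw [Fintype.card_coe] at h2
    have h3 : (vR v '' (σ : Set ι)) = Set.range (fun t : σ => vR v (t : ι)) := by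
      rw [Set.image_eq_range]
      rfl
    rw [h3, h2]
  have heq := Submodule.eq_of_le_of_finrank_eq hle (hfr.trans hker.symm)
  have hyk : y ∈ LinearMap.ker L := by
    rw [LinearMap.mem_ker]
    funext ω
    exact hy ω ω.2
  rw [← heq] at hyk
  exact (mem_span_iff (vR v) σ y).1 hyk

/-- A point of the cone where `Ξ` vanishes is a combination of the rays in `Gx Ξ`. -/
theorem tcone (hZ : ZT v φ A B) (Ξ : Finset Ω) (y : κ → ℝ) (hy : ∀ ω, 0 ≤ prR (φ ω) y)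
    (h0 : ∀ ω ∈ Ξ, prR (φ ω) y = 0) :
    ∃ x : ι → ℝ, (∀ i, 0 ≤ x i) ∧ (∀ i, i ∉ Gx v φ Ξ → x i = 0) ∧ y = ∑ i, x i • vR v i := by
  obtain ⟨x, hx, rfl⟩ := hZ.gen y hy
  refine ⟨x, hx, fun i hi => ?_, rfl⟩
  rw [mem_Gx] at hi
  push Not at hi
  obtain ⟨ω, hω, hne⟩ := hi
  have h1 := h0 ω hω
  rw [ZLOC_prR_sum] at h1
  have h2 := (sum_eq_zero_iff_of_nonneg (fun i _ => mul_nonneg (hx i)
    (by exact_mod_cast hZ.nn i ω))).1 h1 i (mem_univ i)
  rcases mul_eq_zero.1 h2 with h3 | h3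
  · exact h3
  · exact absurd (by exact_mod_cast h3) hne

/-- The rays are not zero. -/
theorem v_ne (hZ : ZT v φ A B) (i : ι) : v i ≠ 0 := by
  intro h
  have h1 : ∀ x : κ → ℤ, pr x (v i) = 0 := fun x => by rw [h]; simp [pr]
  rcases hZ.ne i with h2 | h2
  · exact h2 (h1 A)
  · exact h2 (h1 B)

omit [Fintype ι] in
/-- A subset of an element of `DD` is an independent upper simplex of every set of functionals
containing it. -/
theorem rint {Ξ : Finset Ω} (hΞ : InT φ q g Ξ) :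
    LinearIndepOn ℝ (vR φ) (Ξ : Set Ω) ∧ Ξ.card + 1 ≤ Fintype.card κ ∧
      ∀ G : Finset Ω, Ξ ⊆ G → UpperOn (vR φ) (fun ω => g (some ω)) G Ξ := by
  classical
  obtain ⟨Δ, hΔ, hsub⟩ := hΞ
  obtain ⟨⟨-, hind, hup⟩, hc⟩ := mem_DD.1 hΔ
  -- sums over `insertNone Δ` of functions supported in `Ξ`
  have key : ∀ (M : Type) [AddCommMonoid M] (f : Ω → M),
      ∑ o ∈ insertNone Δ, (o.elim 0 (fun ω => if ω ∈ Ξ then f ω else 0) : M) = ∑ ω ∈ Ξ, f ω := by
    intro M _ f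
    rw [sum_insertNone]
    simp only [Option.elim_none, Option.elim_some, zero_add]
    rw [← sum_filter, filter_mem_eq_inter, inter_eq_right.2 hsub]
  have keyR : ∀ (c : Ω → ℝ) , ∑ o ∈ insertNone Δ,
      (o.elim 0 (fun ω => if ω ∈ Ξ then c ω else 0) : ℝ) • vR (phq q φ) o =
        ∑ ω ∈ Ξ, c ω • vR φ ω := by
    intro c
    rw [← key (κ → ℝ) (fun ω => c ω • vR φ ω)]
    refine sum_congr rfl fun o _ => ?_
    cases o with
    | none => simp
    | some ω =>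
      simp only [Option.elim_some]
      by_cases h1 : ω ∈ Ξ
      · rw [if_pos h1, if_pos h1]; rfl
      · rw [if_neg h1, if_neg h1, zero_smul]
  have hi : LinearIndepOn ℝ (vR φ) (Ξ : Set Ω) := by
    rw [linearIndepOn_finset_iff]
    intro c hc ω hω
    rw [linearIndepOn_finset_iff] at hind
    have h1 := hind (fun o => o.elim 0 (fun ω => if ω ∈ Ξ then c ω else 0))
      ((keyR c).trans hc) (some ω) (by rw [some_mem_insertNone]; exact hsub hω)
    simp only [Option.elim_some] at h1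
    rwa [if_pos hω] at h1
  refine ⟨hi, ?_, fun G hG => ⟨hG, hi, fun l _ hl β hβ => ?_⟩⟩
  · have := card_le_card hsub
    omega
  · by_cases hlΔ : l ∈ Δ
    · exfalso
      rw [linearIndepOn_finset_iff] at hind
      have h1 := hind (fun o => (o.elim 0 (fun ω => if ω ∈ Ξ then β ω else 0) : ℝ) -
        if o = some l then 1 else 0) ?_ (some l) (by rw [some_mem_insertNone]; exact hlΔ)
      · simp only [Option.elim_some, if_neg hl, if_true] at h1
        norm_num at h1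
      · simp only [sub_smul, sum_sub_distrib]
        rw [keyR β, ← hβ]
        simp only [ite_smul, one_smul, zero_smul]
        rw [sum_ite_eq' (insertNone Δ) (some l) (fun o => vR (phq q φ) o),
          if_pos (by rw [some_mem_insertNone]; exact hlΔ)]
        exact sub_self _
    · have h1 := hup (some l) (mem_univ _) (by rw [some_mem_insertNone]; exact hlΔ)
        (fun o => o.elim 0 (fun ω => if ω ∈ Ξ then β ω else 0)) ?_
      · have h2 : ∑ o ∈ insertNone Δ, (o.elim 0 (fun ω => if ω ∈ Ξ then β ω else 0) : ℝ) * g o =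
            ∑ ω ∈ Ξ, β ω * g (some ω) := by
          rw [← key ℝ (fun ω => β ω * g (some ω))]
          refine sum_congr rfl fun o _ => ?_
          cases o with
          | none => simp
          | some ω =>
            simp only [Option.elim_some]
            by_cases h1 : ω ∈ Ξ
            · rw [if_pos h1, if_pos h1]
            · rw [if_neg h1, if_neg h1, zero_mul]
        rw [h2] at h1
        exact h1
      · rw [keyR β, ← hβ]
        rfl

omit [Fintype ι] in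
theorem InT.mono {Ξ Ξ' : Finset Ω} (hΞ : InT φ q g Ξ') (h : Ξ ⊆ Ξ') : InT φ q g Ξ := by
  obtain ⟨Δ, hΔ, hsub⟩ := hΞ
  exact ⟨Δ, hΔ, h.trans hsub⟩

end

/-! ### The concrete setting: all exponents and all directions -/

/-- The functionals `(1, a_i)` and `(0, e_j)`. -/
def pf {n r : ℕ} (a : Fin r → (Fin n →₀ ℕ)) : Fin r ⊕ Fin n → Unit ⊕ Fin n → ℤ :=
  Sum.elim (fun i => H22.homRow a i) (fun j => Sum.elim (fun _ => 0) (Pi.single j 1))

/-- The functionals `(1, a_i)`, `i ∈ T`. -/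
def inB {n r : ℕ} (T : Finset (Fin r)) : Finset (Fin r ⊕ Fin n) :=
  T.map ⟨Sum.inl, Sum.inl_injective⟩

open Classical in
/-- The full upper simplices of a set of exponents. -/
noncomputable def UF {n r : ℕ} (a : Fin r → (Fin n →₀ ℕ)) (g : Fin r → ℝ)
    (τ : Finset (Fin r)) : Finset (Finset (Fin r)) :=
  univ.filter (fun T => UpperOn (H22.rowR a) g τ T ∧ T.card = H22.faceRank a τ)

theorem mem_UF {n r : ℕ} {a : Fin r → (Fin n →₀ ℕ)} {g : Fin r → ℝ} {τ T : Finset (Fin r)} :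
    T ∈ UF a g τ ↔ UpperOn (H22.rowR a) g τ T ∧ T.card = H22.faceRank a τ := by
  simp [UF]

/-- The heights of the directions are low compared with those of the exponents. -/
def Bot {Ω1 Ω2 κ : Type} (φ : Ω1 ⊕ Ω2 → κ → ℤ) (g : Option (Ω1 ⊕ Ω2) → ℝ) : Prop :=
  ∀ T : Finset Ω1, LinearIndepOn ℝ (fun i => vR φ (Sum.inl i)) (T : Set Ω1) → ∀ (j : Ω2)
    (β : Ω1 → ℝ), vR φ (Sum.inr j) = ∑ i ∈ T, β i • vR φ (Sum.inl i) →
    g (some (Sum.inr j)) < ∑ i ∈ T, β i * g (some (Sum.inl i))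

/-- The concrete setting. -/
structure CS {n r : ℕ} (a : Fin r → (Fin n →₀ ℕ)) (R : Finset (Fin n → ℕ)) (s0 : ℂ)
    (q : Unit ⊕ Fin n → ℤ) (g : Option (Fin r ⊕ Fin n) → ℝ) (h : Option R → ℝ) : Prop where
  inj : Function.Injective a
  rp : 0 < r
  np : 0 < n
  rays : Pool.Agent.H56.SMC.RaySet a R
  rs : RS (vv a R) (pf a) AA BB q g h
  qg : QG (vv a R) (pf a) AA BB s0 q
  gen' : ∀ τ, GenericOn (rv0 R) h τ
  bot : Bot (pf a) g

theorem mem_inB {n r : ℕ} {T : Finset (Fin r)} {i : Fin r} :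
    (Sum.inl i : Fin r ⊕ Fin n) ∈ inB T ↔ i ∈ T := by
  simp [inB]

theorem inr_inB {n r : ℕ} {T : Finset (Fin r)} {j : Fin n} :
    (Sum.inr j : Fin r ⊕ Fin n) ∉ inB T := by
  simp [inB]

theorem vR_pf_inl {n r : ℕ} (a : Fin r → (Fin n →₀ ℕ)) (i : Fin r) :
    vR (pf a) (Sum.inl i) = H22.rowR a i := by
  funext t
  rcases t with t | t
  · simp [vR, pf, H22.homRow, H22.rowR]
  · simp [vR, pf, H22.homRow, H22.rowR]

theorem vR_pf_inr {n r : ℕ} (a : Fin r → (Fin n →₀ ℕ)) (j : Fin n) :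
    vR (pf a) (Sum.inr j) = eR j := by
  funext t
  rcases t with t | t
  · simp [vR, pf, eR]
  · by_cases h : j = t
    · subst h; simp [vR, pf, eR]
    · simp [vR, pf, eR, Ne.symm h]

theorem pf_inl_lf {n r : ℕ} (a : Fin r → (Fin n →₀ ℕ)) (i : Fin r) (w : Fin n → ℕ) :
    pr (pf a (Sum.inl i)) (lf a w) = (∑ j, a i j * w j : ℕ) - (H22.wmin a w : ℤ) := by
  simp only [pr, pf, lf, H22.homRow, Sum.elim_inl, Fintype.sum_sum_type, univ_unique, sum_const,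
    card_singleton, one_smul, Sum.elim_inr, one_mul]
  push_cast
  ring

theorem pf_inr {n r : ℕ} (a : Fin r → (Fin n →₀ ℕ)) (j : Fin n) (y : Unit ⊕ Fin n → ℤ) :
    pr (pf a (Sum.inr j)) y = y (Sum.inr j) := by
  simp only [pr, pf, Sum.elim_inr, Fintype.sum_sum_type, univ_unique, Sum.elim_inl, zero_mul,
    sum_const_zero, zero_add]
  rw [Finset.sum_eq_single j]
  · simp
  · intro b _ hb; simp [hb]
  · intro h; exact absurd (mem_univ j) h

theorem pf_inl {n r : ℕ} (a : Fin r → (Fin n →₀ ℕ)) (i : Fin r) (y : Unit ⊕ Fin n → ℤ) :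
    pr (pf a (Sum.inl i)) y = y (Sum.inl ()) + ∑ j, (a i j : ℤ) * y (Sum.inr j) := by
  simp [pr, pf, H22.homRow]

theorem pfR_inr {n r : ℕ} (a : Fin r → (Fin n →₀ ℕ)) (j : Fin n) (y : Unit ⊕ Fin n → ℝ) :
    prR (pf a (Sum.inr j)) y = y (Sum.inr j) := by
  simp only [prR, pf, Sum.elim_inr, Fintype.sum_sum_type, univ_unique, Sum.elim_inl,
    Int.cast_zero, zero_mul, sum_const_zero, zero_add]
  rw [Finset.sum_eq_single j]
  · simp
  · intro b _ hb; simp [hb]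
  · intro h; exact absurd (mem_univ j) h

theorem pfR_inl {n r : ℕ} (a : Fin r → (Fin n →₀ ℕ)) (i : Fin r) (y : Unit ⊕ Fin n → ℝ) :
    prR (pf a (Sum.inl i)) y = y (Sum.inl ()) + ∑ j, (a i j : ℝ) * y (Sum.inr j) := by
  simp [prR, pf, H22.homRow]

end Pool.Agent.H37.T6
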